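import Mathlib
import Pool.Agent.H5.W.Defs
import Pool.Agent.H95.FT.Dens

/-!
# [H24 FU] MP_470117_nt, total number of exceptional Feit-Thompson pairs (definitions)
-/

namespace Pool.Agent.H24.FU

open Finset

/-- number of forbidden classes at the prime `l`: `p` classes if `l = 1 mod p`, one class otherwise -/
def kap (p l : ℕ) : ℕ := if l % p = 1 then p else 1

/-- the sieve sum with `kap p l` forbidden classes at the primes `l ≠ p` -/
noncomputable def JJ (p z : ℕ) : ℝ :=
  ∑ n ∈ (Icc 1 z).filter (fun n => Squarefree n ∧ n.Coprime p),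
    ∏ l ∈ n.primeFactors, ((kap p l : ℝ) / ((l : ℝ) - kap p l))

/-- the sum over the primes `l = 1 mod p` of the window `(y^(1/2), y]` -/
noncomputable def VV (p : ℕ) (y : ℝ) : ℝ :=
  ∑ l ∈ (Ioc ⌊y ^ (1 / 2 : ℝ)⌋₊ ⌊y⌋₊).filter (fun l => l.Prime ∧ l % p = 1), ((p : ℝ) - 1) / l

end Pool.Agent.H24.FU
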