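import Pool.Agent.H24.FU.Sv
import Pool.Agent.H5.FA.Fin

/-!
# [H24 FU EX] the number of exceptional primes `q ≤ x` of one `p`, uniformly in `p`

Proof.  `q ≤ z`: at most `z`.  For `q > z`, `q ∈ exc p x`: (i) `q % l ≠ 0` for all primes `l ≤ z`; (ii) for
`l ∈ goodPrimes z p` with `l % p = 1`, `l ∤ 1 + q + ... + q^(p-1)` by `FTDens.lt_of_dvd` (as `l ≤ z < q`; the
divisibility in geometric sums by `Nat.geomSum_eq`, see `FTDens.exc_le`); so `q % l` avoids
`B l = {a < l : a = 0 or (l % p = 1 and l ∣ ∑ a^i)}`, `|B l| ≥ kap p l` by `FTDens.card_good`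
(`|good| + p ≤ l`); take `Ω l ⊆ B l` with `|Ω l| = kap p l` (`Finset.exists_subset_card_eq`); (iii)
`H5FA.pth` : `Cg p q`, a property of `r = q % p^2`; at most `p` residues `r < p^2` satisfy it, one above each
`r % p` other than `1` (`H5FA.uni`), none above `1` (`H5FA.no_one`).  For each such `r` apply `sv` with
`κ = kap p`, `E = p`, `q = p^2`, `A = 0`, `X = x` (`1 ≤ kap p l < l` on `goodPrimes z p`).
-/

namespace Pool.Agent.H24.FU

open Finset Pool.Agent.H5.W

private theorem ex_kap_lt {p l : ℕ} (hp : p.Prime) (hl : l.Prime) : 1 ≤ kap p l ∧ kap p l < l := by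
  unfold kap
  split_ifs with h
  · refine ⟨hp.one_le, ?_⟩
    by_contra hcon
    push Not at hcon
    rcases Nat.lt_or_eq_of_le hcon with h1 | h1
    · rw [Nat.mod_eq_of_lt h1] at h
      have := hl.one_lt
      omega
    · rw [h1, Nat.mod_self] at h
      omega
  · exact ⟨le_rfl, hl.one_lt⟩

private theorem ex_JJ_nonneg {p : ℕ} (z : ℕ) (hp : p.Prime) : 0 ≤ JJ p z := by
  unfold JJ
  refine Finset.sum_nonneg fun n _ => Finset.prod_nonneg fun l hl => ?_
  have hlp : l.Prime := Nat.prime_of_mem_primeFactors hl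
  have h1 := (ex_kap_lt hp hlp).2
  have h2 : (kap p l : ℝ) < l := by exact_mod_cast h1
  exact div_nonneg (Nat.cast_nonneg _) (by linarith)

/-- the forbidden classes -/
private noncomputable def exB (p l : ℕ) : Finset ℕ := by
  classical
  exact (range l).filter (fun a => a = 0 ∨ (l % p = 1 ∧ l ∣ ∑ i ∈ range p, a ^ i))

private theorem ex_mod_one {p l : ℕ} (h : l % p = 1) : (l : ZMod p) = 1 := by
  rw [← Nat.mod_add_div l p, h]
  push_cast
  simp

private theorem ex_cardB {p l : ℕ} (hp : p.Prime) (hl : l.Prime) : kap p l ≤ (exB p l).card := by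
  classical
  by_cases h : l % p = 1
  · unfold kap
    rw [if_pos h]
    haveI : NeZero l := ⟨hl.ne_zero⟩
    have hg := FTDens.card_good (p := p) (l := l) hp hl (ex_mod_one h)
    have h1 : ((range l).filter (fun a => ¬ (a = 0 ∨ (l % p = 1 ∧ l ∣ ∑ i ∈ range p, a ^ i)))).card ≤
        (FTDens.good p l).card := by
      apply Finset.card_le_card_of_injOn (fun a : ℕ => (a : ZMod l))
      · intro a ha
        rw [Finset.mem_coe, Finset.mem_filter, Finset.mem_range] at ha
        rw [Finset.mem_coe, FTDens.good, Finset.mem_filter]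
        obtain ⟨ha1, ha2⟩ := ha
        push Not at ha2
        refine ⟨Finset.mem_univ _, ?_, ?_⟩
        · intro h0
          rw [ZMod.natCast_eq_zero_iff] at h0
          exact ha2.1 (Nat.eq_zero_of_dvd_of_lt h0 ha1)
        · intro h0
          apply ha2.2 h
          rw [← ZMod.natCast_eq_zero_iff]
          push_cast
          exact h0
      · intro a ha b hb hab
        rw [Finset.mem_coe, Finset.mem_filter, Finset.mem_range] at ha hb
        have h2 := (ZMod.natCast_eq_natCast_iff a b l).mp hab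
        have h3 : a % l = b % l := h2
        rwa [Nat.mod_eq_of_lt ha.1, Nat.mod_eq_of_lt hb.1] at h3
    have h2 := Finset.card_filter_add_card_filter_not (s := range l)
      (fun a => a = 0 ∨ (l % p = 1 ∧ l ∣ ∑ i ∈ range p, a ^ i))
    rw [Finset.card_range] at h2
    unfold exB
    omega
  · unfold kap
    rw [if_neg h]
    rw [Nat.succ_le_iff, Finset.card_pos]
    refine ⟨0, ?_⟩
    unfold exB
    rw [Finset.mem_filter, Finset.mem_range]
    exact ⟨hl.pos, Or.inl rfl⟩

private theorem ex_notB {p q l : ℕ} (hp : p.Prime) (hq : q.Prime) (hl : l.Prime) (hlq : l < q)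
    (h : (q ^ p - 1) / (q - 1) ∣ (p ^ q - 1) / (p - 1)) : q % l ∉ exB p l := by
  classical
  intro hB
  unfold exB at hB
  rw [Finset.mem_filter] at hB
  rcases hB.2 with h0 | ⟨h1, h2⟩
  · have h3 : l ∣ q := Nat.dvd_of_mod_eq_zero h0
    rw [Nat.prime_dvd_prime_iff_eq hl hq] at h3
    omega
  · have h3 : l ∣ ∑ i ∈ range p, q ^ i := by
      rw [← ZMod.natCast_eq_zero_iff] at h2 ⊢
      push_cast at h2 ⊢
      have e : ((q % l : ℕ) : ZMod l) = (q : ZMod l) := ZMod.natCast_mod q l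
      rw [e] at h2
      exact h2
    have h4 : (∑ i ∈ range p, q ^ i) ∣ ∑ i ∈ range q, p ^ i := by
      rw [Nat.geomSum_eq hq.two_le, Nat.geomSum_eq hp.two_le]
      exact h
    have := FTDens.lt_of_dvd hp hq hl (ex_mod_one h1) h3 h4
    omega

private theorem ex_Cg {p : ℕ} {x y : ℤ} (h : x ≡ y [ZMOD (p : ℤ) ^ 2]) (hx : H5FA.Cg p x) :
    H5FA.Cg p y := by
  unfold H5FA.Cg at hx ⊢
  refine Int.ModEq.trans ?_ hx
  refine Int.ModEq.add ((h.symm.sub_right 1).pow _) ?_
  rw [Int.modEq_iff_dvd, ← Finset.sum_sub_distrib]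
  refine Finset.dvd_sum fun k _ => ?_
  rw [← mul_sub]
  exact Dvd.dvd.mul_left (Int.modEq_iff_dvd.mp (h.symm.pow _)) _

/-- the residues -/
private noncomputable def exR (p : ℕ) : Finset ℕ := by
  classical
  exact (range (p ^ 2)).filter (fun r => H5FA.Cg p (r : ℤ))

private theorem ex_cardR {p : ℕ} (hp : p.Prime) (hp2 : 2 < p) : (exR p).card ≤ p := by
  classical
  have h1 : (exR p).card ≤ (range p).card := by
    apply Finset.card_le_card_of_injOn (fun r => r % p)
    · intro r _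
      rw [Finset.mem_coe, Finset.mem_range]
      exact Nat.mod_lt _ hp.pos
    · intro r hr s hs hrs
      rw [Finset.mem_coe, exR, Finset.mem_filter, Finset.mem_range] at hr hs
      have hrs' : r % p = s % p := hrs
      by_cases hx : (p : ℤ) ∣ ((r % p : ℕ) : ℤ) - 1
      · exfalso
        refine H5FA.no_one p hp hp2 (r : ℤ) ?_ hr.2
        have h2 : (r : ℤ) - 1 = (((r % p : ℕ) : ℤ) - 1) + p * ((r / p : ℕ) : ℤ) := by
          have h3 : ((r % p + p * (r / p) : ℕ) : ℤ) = (r : ℤ) := by rw [Nat.mod_add_div]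
          push_cast at h3 ⊢
          linarith
        rw [h2]
        exact dvd_add hx (Dvd.intro _ rfl)
      · obtain ⟨t, -, ht⟩ := H5FA.uni p hp hp2 ((r % p : ℕ) : ℤ) hx
        have e1 : ((r % p : ℕ) : ℤ) + p * ((r / p : ℕ) : ℤ) = (r : ℤ) := by
          have h3 : ((r % p + p * (r / p) : ℕ) : ℤ) = (r : ℤ) := by rw [Nat.mod_add_div]
          push_cast at h3 ⊢
          exact h3
        have e2 : ((r % p : ℕ) : ℤ) + p * ((s / p : ℕ) : ℤ) = (s : ℤ) := by
          rw [hrs']
          have h3 : ((s % p + p * (s / p) : ℕ) : ℤ) = (s : ℤ) := by rw [Nat.mod_add_div]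
          push_cast at h3 ⊢
          exact h3
        have hrp : r / p < p := Nat.div_lt_of_lt_mul (by have := hr.1; rw [pow_two] at this; exact this)
        have hsp : s / p < p := Nat.div_lt_of_lt_mul (by have := hs.1; rw [pow_two] at this; exact this)
        have h4 := ht (r / p) ⟨hrp, by rw [e1]; exact hr.2⟩
        have h5 := ht (s / p) ⟨hsp, by rw [e2]; exact hs.2⟩
        rw [← Nat.mod_add_div r p, ← Nat.mod_add_div s p, hrs', h4, h5]
  rwa [Finset.card_range] at h1

theorem ex (p x z : ℕ) (hp : p.Prime) (hp2 : 2 < p) (hz : 1 ≤ z) :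
    ((FTDens.exc p x).card : ℝ) ≤ z + ((x : ℝ) / p) / JJ p z + p * (z : ℝ) ^ 4 := by
  classical
  have hgp : ∀ l ∈ goodPrimes z p, l.Prime ∧ l ≤ z ∧ ¬ l ∣ p := by
    intro l hl
    unfold goodPrimes at hl
    rw [Finset.mem_filter, Finset.mem_range] at hl
    exact ⟨hl.2.1, by omega, hl.2.2⟩
  have hΩex : ∀ l : ℕ, ∃ W : Finset ℕ, l.Prime → (W ⊆ exB p l ∧ W.card = kap p l) := by
    intro l
    by_cases hl : l.Prime
    · obtain ⟨W, hW1, hW2⟩ := Finset.exists_subset_card_eq (ex_cardB hp hl)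
      exact ⟨W, fun _ => ⟨hW1, hW2⟩⟩
    · exact ⟨∅, fun h => absurd h hl⟩
  choose Ω hΩ using hΩex
  have hΩlt : ∀ l ∈ goodPrimes z p, ∀ a ∈ Ω l, a < l := by
    intro l hl a ha
    have h1 := (hΩ l (hgp l hl).1).1 ha
    unfold exB at h1
    rw [Finset.mem_filter, Finset.mem_range] at h1
    exact h1.1
  set F : ℕ → Finset ℕ := fun r => (Ioc 0 (0 + x)).filter (fun v => v ≡ r [MOD p ^ 2] ∧
      ∀ l ∈ goodPrimes z p, v % l ∉ Ω l) with hF
  have hsv : ∀ r : ℕ, ((F r).card : ℝ) ≤ ((x : ℝ) / (p : ℝ) ^ 2) / JJ p z + (z : ℝ) ^ 4 := by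
    intro r
    have h1 := sv (kap p) p z (p ^ 2) r 0 x hz (pow_pos hp.pos 2)
      (fun l hl => ex_kap_lt hp (hgp l hl).1)
      (fun l hl h2 => (hgp l hl).2.2 ((hgp l hl).1.dvd_of_dvd_pow h2)) Ω
      (fun l hl => (hΩ l (hgp l hl).1).2) hΩlt
    unfold JJ
    push_cast at h1
    exact h1
  have hsub : FTDens.exc p x ⊆ Icc 1 z ∪ (exR p).biUnion F := by
    intro q hq
    rw [FTDens.exc, Finset.mem_filter, Finset.mem_Icc] at hq
    obtain ⟨⟨hq1, hq2⟩, hqp, hpq, hdiv⟩ := hq
    rw [Finset.mem_union]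
    by_cases hqz : q ≤ z
    · left
      rw [Finset.mem_Icc]
      exact ⟨hq1, hqz⟩
    · right
      push Not at hqz
      rw [Finset.mem_biUnion]
      have hCg := H5FA.pth p q hp hqp hp2 hpq hdiv
      refine ⟨q % p ^ 2, ?_, ?_⟩
      · rw [exR, Finset.mem_filter, Finset.mem_range]
        refine ⟨Nat.mod_lt _ (pow_pos hp.pos 2), ex_Cg ?_ hCg⟩
        push_cast
        exact (Int.mod_modEq _ _).symm
      · rw [hF]
        simp only
        rw [Finset.mem_filter, Finset.mem_Ioc]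
        refine ⟨⟨by omega, by omega⟩, (Nat.mod_modEq _ _).symm, ?_⟩
        intro l hl hmem
        have h1 := hgp l hl
        exact ex_notB hp hqp h1.1 (by omega) hdiv ((hΩ l h1.1).1 hmem)
  have hcard : (FTDens.exc p x).card ≤ z + ∑ r ∈ exR p, (F r).card := by
    refine (Finset.card_le_card hsub).trans ((Finset.card_union_le _ _).trans ?_)
    rw [Nat.card_Icc, Nat.add_sub_cancel]
    exact Nat.add_le_add_left Finset.card_biUnion_le _
  have hJ := ex_JJ_nonneg z hp
  have hp0 : (0 : ℝ) < p := by exact_mod_cast hp.pos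
  have hnn : 0 ≤ ((x : ℝ) / (p : ℝ) ^ 2) / JJ p z + (z : ℝ) ^ 4 := by positivity
  calc ((FTDens.exc p x).card : ℝ) ≤ ((z + ∑ r ∈ exR p, (F r).card : ℕ) : ℝ) := by exact_mod_cast hcard
    _ = z + ∑ r ∈ exR p, ((F r).card : ℝ) := by push_cast; rfl
    _ ≤ z + ∑ r ∈ exR p, (((x : ℝ) / (p : ℝ) ^ 2) / JJ p z + (z : ℝ) ^ 4) := by
        gcongr with r _
        exact hsv r
    _ = z + (exR p).card * (((x : ℝ) / (p : ℝ) ^ 2) / JJ p z + (z : ℝ) ^ 4) := by
        rw [Finset.sum_const, nsmul_eq_mul]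
    _ ≤ z + p * (((x : ℝ) / (p : ℝ) ^ 2) / JJ p z + (z : ℝ) ^ 4) := by
        have h1 : ((exR p).card : ℝ) ≤ p := by exact_mod_cast ex_cardR hp hp2
        have h2 := mul_le_mul_of_nonneg_right h1 hnn
        linarith
    _ = z + ((x : ℝ) / p) / JJ p z + p * (z : ℝ) ^ 4 := by
        have h1 : (p : ℝ) * (((x : ℝ) / (p : ℝ) ^ 2) / JJ p z) = ((x : ℝ) / p) / JJ p z := by
          rw [← mul_div_assoc]
          congr 1
          field_simp
        rw [mul_add, h1]
        ring

end Pool.Agent.H24.FU
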