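import Pool.Agent.H24.FU.SuB

/-!
# [H24 FU FIN] the total number of exceptional pairs
-/

namespace Pool.Agent.H24.FU

open Finset Filter Pool.Agent.H75.AP

/-- the exceptional pairs `p < q ≤ x`, `p ≤ x^c` -/
noncomputable def pairs (x : ℕ) (c : ℝ) : Finset (ℕ × ℕ) := by
  classical
  exact (Icc 1 x ×ˢ Icc 1 x).filter (fun w => w.1.Prime ∧ w.2.Prime ∧ w.1 < w.2 ∧
    (w.1 : ℝ) ≤ (x : ℝ) ^ c ∧ (w.2 ^ w.1 - 1) / (w.2 - 1) ∣ (w.1 ^ w.2 - 1) / (w.1 - 1))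

theorem pairs_le (x : ℕ) (c : ℝ) (T : Finset ℕ)
    (hT : ∀ p : ℕ, p.Prime → (p : ℝ) ≤ (x : ℝ) ^ c → p ∈ T) :
    ((pairs x c).card : ℝ) ≤ ∑ p ∈ T, ((FTDens.exc p x).card : ℝ) := by
  classical
  have h1 : pairs x c ⊆ T.biUnion (fun p => (FTDens.exc p x).image (fun q => (p, q))) := by
    intro w hw
    unfold pairs at hw
    rw [Finset.mem_filter, Finset.mem_product] at hw
    obtain ⟨⟨h1, h2⟩, h3, h4, h5, h6, h7⟩ := hw
    rw [Finset.mem_biUnion]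
    refine ⟨w.1, hT _ h3 h6, ?_⟩
    rw [Finset.mem_image]
    refine ⟨w.2, ?_, rfl⟩
    unfold FTDens.exc
    rw [Finset.mem_filter]
    exact ⟨h2, h4, h5, h7⟩
  have h2 : (pairs x c).card ≤ ∑ p ∈ T, (FTDens.exc p x).card := by
    refine (Finset.card_le_card h1).trans (Finset.card_biUnion_le.trans ?_)
    exact Finset.sum_le_sum fun p _ => Finset.card_image_le
  exact_mod_cast h2

/-- the primes below `P0` -/
theorem small (P0 : ℕ) (ε : ℝ) (hε : 0 < ε) : ∀ᶠ x : ℕ in atTop,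
    ∑ p ∈ (range P0).filter Nat.Prime, ((FTDens.exc p x).card : ℝ) ≤ ε * (Nat.primeCounting x : ℝ) := by
  classical
  have h1 : Tendsto (fun x : ℕ => ∑ p ∈ (range P0).filter Nat.Prime,
      ((FTDens.exc p x).card : ℝ) / (Nat.primeCounting x : ℝ)) atTop
      (nhds (∑ _p ∈ (range P0).filter Nat.Prime, (0 : ℝ))) :=
    tendsto_finset_sum _ fun p hp => FTDens.main (Finset.mem_filter.1 hp).2
  rw [Finset.sum_const_zero] at h1
  filter_upwards [h1.eventually (gt_mem_nhds hε), eventually_ge_atTop 2] with x hx hx2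
  have hpi : (0 : ℝ) < (Nat.primeCounting x : ℝ) := by
    have : 0 < Nat.primeCounting x := by
      have h3 : Nat.primeCounting 2 ≤ Nat.primeCounting x := Nat.monotone_primeCounting hx2
      have h4 : Nat.primeCounting 2 = 1 := by decide
      omega
    exact_mod_cast this
  rw [← Finset.sum_div, div_lt_iff₀ hpi] at hx
  exact hx.le

/-- the level `z` -/
theorem level (δ : ℝ) (hδ : 0 < δ) : ∀ᶠ x : ℕ in atTop, 2 ≤ ⌊(x : ℝ) ^ δ⌋₊ ∧
    (x : ℝ) ^ (δ / 2) ≤ (⌊(x : ℝ) ^ δ⌋₊ : ℝ) ∧ (⌊(x : ℝ) ^ δ⌋₊ : ℝ) ≤ (x : ℝ) ^ δ ∧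
    δ / 2 * Real.log x ≤ Real.log (⌊(x : ℝ) ^ δ⌋₊ : ℝ) := by
  have h1 : ∀ᶠ x : ℕ in atTop, (2 : ℝ) ≤ (x : ℝ) ^ (δ / 2) :=
    ((tendsto_rpow_atTop (by positivity : 0 < δ / 2)).comp tendsto_natCast_atTop_atTop).eventually_ge_atTop 2
  filter_upwards [h1, eventually_ge_atTop 1] with x hx hx1
  have hx0 : (1 : ℝ) ≤ x := by exact_mod_cast hx1
  have e1 : (x : ℝ) ^ δ = (x : ℝ) ^ (δ / 2) * (x : ℝ) ^ (δ / 2) := by
    rw [← Real.rpow_add (by linarith)]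
    congr 1
    ring
  have h2 : (x : ℝ) ^ (δ / 2) + 1 ≤ (x : ℝ) ^ δ := by
    rw [e1]
    nlinarith
  have h3 := Nat.lt_floor_add_one ((x : ℝ) ^ δ)
  have h4 : (x : ℝ) ^ (δ / 2) ≤ (⌊(x : ℝ) ^ δ⌋₊ : ℝ) := by linarith
  refine ⟨?_, h4, Nat.floor_le (by positivity), ?_⟩
  · have : (2 : ℝ) ≤ (⌊(x : ℝ) ^ δ⌋₊ : ℝ) := by linarith
    exact_mod_cast this
  · rw [← Real.log_rpow (by linarith)]
    exact Real.log_le_log (by positivity) h4

private theorem pi_lower : ∀ᶠ y : ℕ in atTop,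
    (y : ℝ) / (2 * Real.log y) ≤ (Nat.primeCounting y : ℝ) := by
  have h1 : Tendsto (fun y : ℕ => (y : ℝ)) atTop atTop := tendsto_natCast_atTop_atTop
  have h2 : ∀ᶠ x : ℝ in atTop, Real.log (x + 1) ≤ (1 / 10) * x := by
    have h3 : (fun x : ℝ => Real.log x) =o[atTop] (fun x : ℝ => x) := Real.isLittleO_log_id_atTop
    have h4 : Tendsto (fun x : ℝ => x + 1) atTop atTop := tendsto_atTop_add_const_right _ _ tendsto_id
    have h5 := h4.eventually (h3.bound (show (0 : ℝ) < 1 / 20 by norm_num))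
    filter_upwards [h5, eventually_ge_atTop 1] with x hx hx1
    rw [Real.norm_of_nonneg (Real.log_nonneg (by linarith)),
      Real.norm_of_nonneg (by linarith)] at hx
    linarith
  filter_upwards [h1.eventually h2, eventually_ge_atTop 2] with y hy hy2
  have hy2' : (2 : ℝ) ≤ y := by exact_mod_cast hy2
  have hlog : 0 < Real.log (y : ℝ) := Real.log_pos (by linarith)
  refine le_trans ?_ (Chebyshev.pi_ge y)
  rw [div_le_div_iff₀ (by positivity) hlog]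
  have hl2 : (0.6931471803 : ℝ) < Real.log 2 := Real.log_two_gt_d9
  have : (y : ℝ) ≤ 2 * (y * Real.log 2 - Real.log (y + 1)) := by nlinarith
  nlinarith

/-- powers below `1` are negligible -/
theorem negl (a ε : ℝ) (ha : a < 1) (hε : 0 < ε) : ∀ᶠ x : ℕ in atTop,
    (x : ℝ) ^ a ≤ ε * (Nat.primeCounting x : ℝ) := by
  have h := isLittleO_log_rpow_atTop (r := 1 - a) (by linarith)
  have h1 := (h.bound (show 0 < ε / 2 by positivity))
  have h2 := tendsto_natCast_atTop_atTop.eventually h1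
  filter_upwards [h2, pi_lower, eventually_ge_atTop 3] with x hx hpi hx3
  have hx0 : (3 : ℝ) ≤ x := by exact_mod_cast hx3
  have hl : 0 < Real.log x := Real.log_pos (by linarith)
  rw [Real.norm_of_nonneg hl.le, Real.norm_of_nonneg (by positivity)] at hx
  have e1 : (x : ℝ) = (x : ℝ) ^ a * (x : ℝ) ^ (1 - a) := by
    rw [← Real.rpow_add (by linarith)]
    simp
  have ha0 : 0 < (x : ℝ) ^ a := Real.rpow_pos_of_pos (by linarith) _
  have h3 : (x : ℝ) ^ a ≤ ε * ((x : ℝ) / (2 * Real.log x)) := by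
    rw [mul_div_assoc', le_div_iff₀ (by positivity)]
    calc (x : ℝ) ^ a * (2 * Real.log x) ≤ (x : ℝ) ^ a * (2 * (ε / 2 * (x : ℝ) ^ (1 - a))) := by gcongr
      _ = ε * ((x : ℝ) ^ a * (x : ℝ) ^ (1 - a)) := by ring
      _ = ε * x := by rw [← e1]
  exact h3.trans (mul_le_mul_of_nonneg_left hpi hε.le)

theorem mid (c : ℝ) (hc : 0 < c) (hc2 : c < 1 / 2) : ∃ C : ℝ, 0 < C ∧ ∀ᶠ x : ℕ in atTop,
    ∑ p ∈ PI ((yy ⌊(x : ℝ) ^ (1 / 16 : ℝ)⌋₊ 0) ^ (1 / 40 : ℝ)) ((x : ℝ) ^ c),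
      ((FTDens.exc p x).card : ℝ) ≤ C * (Nat.primeCounting x : ℝ) := by
  classical
  obtain ⟨CM, hCM, hme⟩ := me 2560 (by norm_num)
  have hd : 0 < 1 - 2 * c := by linarith
  refine ⟨2 + 128 * CM / (1 - 2 * c), by positivity, ?_⟩
  have ev1 : ∀ᶠ x : ℕ in atTop, (2 : ℝ) ≤ (x : ℝ) ^ (1 / 5120 : ℝ) :=
    ((tendsto_rpow_atTop (by norm_num : (0 : ℝ) < 1 / 5120)).comp
      tendsto_natCast_atTop_atTop).eventually_ge_atTop 2
  filter_upwards [level (1 / 16) (by norm_num), level ((1 - 2 * c) / 8) (by positivity), ev1,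
    negl (1 / 2 + c) 1 (by linarith) one_pos, pi_lower, eventually_ge_atTop 3]
    with x hz hw hx5 hneg hpi hx3
  have hx0 : (3 : ℝ) ≤ x := by exact_mod_cast hx3
  have hlx : 0 < Real.log x := Real.log_pos (by linarith)
  obtain ⟨z, hzz⟩ : ∃ z, z = ⌊(x : ℝ) ^ (1 / 16 : ℝ)⌋₊ := ⟨_, rfl⟩
  obtain ⟨w, hww⟩ : ∃ w, w = ⌊(x : ℝ) ^ ((1 - 2 * c) / 8)⌋₊ := ⟨_, rfl⟩
  rw [← hzz] at hz ⊢
  rw [← hww] at hw
  obtain ⟨hz1, hz2, hz3, hz4⟩ := hz
  obtain ⟨hw1, hw2, hw3, hw4⟩ := hw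
  have hz' : (2 : ℝ) ≤ z := by exact_mod_cast hz1
  have hw' : (2 : ℝ) ≤ w := by exact_mod_cast hw1
  have hlw : 0 < Real.log w := Real.log_pos (by linarith)
  obtain ⟨u, hu⟩ : ∃ u, u = (yy z 0) ^ (1 / 40 : ℝ) := ⟨_, rfl⟩
  rw [← hu]
  have hu1 : (x : ℝ) ^ (1 / 5120 : ℝ) ≤ u := by
    rw [hu]
    unfold yy
    rw [pow_zero, ← Real.rpow_mul (by linarith)]
    calc (x : ℝ) ^ (1 / 5120 : ℝ) = ((x : ℝ) ^ ((1 / 16 : ℝ) / 2)) ^ ((1 / 4 : ℝ) * 1 * (1 / 40)) := by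
          rw [← Real.rpow_mul (by linarith)]
          congr 1
          norm_num
      _ ≤ _ := Real.rpow_le_rpow (by positivity) hz2 (by norm_num)
  have hxc1 : 1 ≤ (x : ℝ) ^ c := Real.one_le_rpow (by linarith) hc.le
  have hmem : ∀ p ∈ PI u ((x : ℝ) ^ c), p.Prime ∧ u < (p : ℝ) ∧ (p : ℝ) ≤ (x : ℝ) ^ c := by
    intro p hp
    unfold PI at hp
    rw [Finset.mem_filter, Finset.mem_range] at hp
    exact ⟨hp.2.1, hp.2.2, (Nat.le_floor_iff (by linarith)).1 (Nat.lt_succ_iff.1 hp.1)⟩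
  have hcard : ((PI u ((x : ℝ) ^ c)).card : ℝ) ≤ (x : ℝ) ^ c := by
    have h1 : PI u ((x : ℝ) ^ c) ⊆ Icc 1 ⌊(x : ℝ) ^ c⌋₊ := by
      intro p hp
      obtain ⟨h1, _, h3⟩ := hmem p hp
      exact Finset.mem_Icc.2 ⟨h1.one_le, Nat.le_floor h3⟩
    have h2 := Finset.card_le_card h1
    rw [Nat.card_Icc, Nat.add_sub_cancel] at h2
    exact (by exact_mod_cast h2 : ((PI u ((x : ℝ) ^ c)).card : ℝ) ≤ (⌊(x : ℝ) ^ c⌋₊ : ℝ)).trans
      (Nat.floor_le (by linarith))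
  have hexc : ∀ p ∈ PI u ((x : ℝ) ^ c), ((FTDens.exc p x).card : ℝ) ≤
      2 * (x : ℝ) ^ c * (w : ℝ) ^ 4 + (x : ℝ) * (4 / Real.log w) * (1 / p) := by
    intro p hp
    obtain ⟨h1, h2, h3⟩ := hmem p hp
    have hp2 : (2 : ℝ) < p := by linarith
    have h4 := ex p x w h1 (by exact_mod_cast hp2) (by omega)
    have h5 := JJ_good p w 0 h1 (by omega) 0 le_rfl (fun i hi => by omega)
    rw [pow_zero, mul_one] at h5
    have h6 : 0 < Real.log w / 4 := by positivity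
    have h7 : ((x : ℝ) / p) / JJ p w ≤ (x : ℝ) * (4 / Real.log w) * (1 / p) := by
      calc ((x : ℝ) / p) / JJ p w ≤ ((x : ℝ) / p) / (Real.log w / 4) := by gcongr
        _ = _ := by
          field_simp
    have h8 : (w : ℝ) ≤ (x : ℝ) ^ c * (w : ℝ) ^ 4 := by
      have h9 : (w : ℝ) ≤ (w : ℝ) ^ 4 := le_self_pow₀ (by linarith) (by norm_num)
      have h10 : (0 : ℝ) ≤ (w : ℝ) ^ 4 := by positivity
      nlinarith
    have h9 : (p : ℝ) * (w : ℝ) ^ 4 ≤ (x : ℝ) ^ c * (w : ℝ) ^ 4 := by gcongr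
    linarith
  have hw44 : (w : ℝ) ^ 4 ≤ (x : ℝ) ^ ((1 - 2 * c) / 2) := by
    calc (w : ℝ) ^ 4 ≤ ((x : ℝ) ^ ((1 - 2 * c) / 8)) ^ 4 := by gcongr
      _ = _ := by
        rw [← Real.rpow_natCast, ← Real.rpow_mul (by linarith)]
        congr 1
        push_cast
        ring
  have hsum : ∑ p ∈ PI u ((x : ℝ) ^ c), 1 / (p : ℝ) ≤ CM := by
    refine hme u _ (by linarith) ?_
    calc (x : ℝ) ^ c ≤ (x : ℝ) ^ (1 / 2 : ℝ) := Real.rpow_le_rpow_of_exponent_le (by linarith) hc2.le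
      _ = ((x : ℝ) ^ (1 / 5120 : ℝ)) ^ (2560 : ℝ) := by
        rw [← Real.rpow_mul (by linarith)]
        congr 1
        norm_num
      _ ≤ u ^ (2560 : ℝ) := Real.rpow_le_rpow (by positivity) hu1 (by norm_num)
  have hx2l : (x : ℝ) / Real.log x ≤ 2 * (Nat.primeCounting x : ℝ) := by
    have e1 : (x : ℝ) / Real.log x = 2 * ((x : ℝ) / (2 * Real.log x)) := by
      field_simp
    rw [e1]
    linarith
  calc ∑ p ∈ PI u ((x : ℝ) ^ c), ((FTDens.exc p x).card : ℝ)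
      ≤ ∑ p ∈ PI u ((x : ℝ) ^ c), (2 * (x : ℝ) ^ c * (w : ℝ) ^ 4 +
          (x : ℝ) * (4 / Real.log w) * (1 / p)) := Finset.sum_le_sum hexc
    _ = (PI u ((x : ℝ) ^ c)).card * (2 * (x : ℝ) ^ c * (w : ℝ) ^ 4) +
        (x : ℝ) * (4 / Real.log w) * ∑ p ∈ PI u ((x : ℝ) ^ c), 1 / (p : ℝ) := by
        rw [Finset.sum_add_distrib, Finset.sum_const, nsmul_eq_mul, Finset.mul_sum]
    _ ≤ (x : ℝ) ^ c * (2 * (x : ℝ) ^ c * (x : ℝ) ^ ((1 - 2 * c) / 2)) +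
        (x : ℝ) * (4 / Real.log w) * CM := by gcongr
    _ ≤ 2 * (1 * (Nat.primeCounting x : ℝ)) + (128 * CM / (1 - 2 * c)) * (Nat.primeCounting x : ℝ) := by
        refine add_le_add ?_ ?_
        · calc (x : ℝ) ^ c * (2 * (x : ℝ) ^ c * (x : ℝ) ^ ((1 - 2 * c) / 2))
              = 2 * ((x : ℝ) ^ c * (x : ℝ) ^ c * (x : ℝ) ^ ((1 - 2 * c) / 2)) := by ring
            _ = 2 * (x : ℝ) ^ (1 / 2 + c) := by
              rw [← Real.rpow_add (by linarith), ← Real.rpow_add (by linarith)]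
              congr 2
              ring
            _ ≤ _ := by linarith
        · calc (x : ℝ) * (4 / Real.log w) * CM
              ≤ (x : ℝ) * (4 / ((1 - 2 * c) / 8 / 2 * Real.log x)) * CM := by gcongr
            _ = (64 * CM / (1 - 2 * c)) * ((x : ℝ) / Real.log x) := by
              field_simp
              ring
            _ ≤ (64 * CM / (1 - 2 * c)) * (2 * (Nat.primeCounting x : ℝ)) := by gcongr
            _ = _ := by ring
    _ = _ := by ring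

theorem low : ∃ K : ℝ, 0 < K ∧ ∃ θ : ℝ, 0 < θ ∧ θ < 1 ∧ ∃ P1 : ℕ, 3 ≤ P1 ∧ ∀ P0 : ℕ, P1 ≤ P0 →
    ∀ I0 : ℕ, ∀ ε : ℝ, 0 < ε → ∀ᶠ x : ℕ in atTop,
    ∑ p ∈ (Icc P0 ⌊(yy ⌊(x : ℝ) ^ (1 / 16 : ℝ)⌋₊ I0) ^ (1 / 40 : ℝ)⌋₊).filter Nat.Prime,
      ((FTDens.exc p x).card : ℝ) ≤
      (K * (θ ^ I0 + 1 / (Real.log P0) ^ 2) + ε) * (Nat.primeCounting x : ℝ) := by
  obtain ⟨K, hK, θ, hθ0, hθ1, P1, hP1, h⟩ := r1
  refine ⟨64 * K, by positivity, θ, hθ0, hθ1, P1, hP1, ?_⟩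
  intro P0 hP0 I0 ε hε
  filter_upwards [level (1 / 16) (by norm_num), negl (3 / 8) (ε / 2) (by norm_num) (by positivity),
    pi_lower, eventually_ge_atTop 3] with x hz hneg hpi hx3
  have hx0 : (3 : ℝ) ≤ x := by exact_mod_cast hx3
  have hlx : 0 < Real.log x := Real.log_pos (by linarith)
  obtain ⟨z, hzz⟩ : ∃ z, z = ⌊(x : ℝ) ^ (1 / 16 : ℝ)⌋₊ := ⟨_, rfl⟩
  rw [← hzz] at hz ⊢
  obtain ⟨hz1, hz2, hz3, hz4⟩ := hz
  have hz' : (2 : ℝ) ≤ z := by exact_mod_cast hz1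
  have hlz : 0 < Real.log z := Real.log_pos (by linarith)
  refine (h P0 hP0 I0 x z hz1).trans ?_
  have h1 : (z : ℝ) ^ 6 ≤ (x : ℝ) ^ (3 / 8 : ℝ) := by
    calc (z : ℝ) ^ 6 ≤ ((x : ℝ) ^ (1 / 16 : ℝ)) ^ 6 := by gcongr
      _ = _ := by
        rw [← Real.rpow_natCast, ← Real.rpow_mul (by linarith)]
        congr 1
        norm_num
  have h2 : (x : ℝ) / Real.log z ≤ 64 * (Nat.primeCounting x : ℝ) := by
    calc (x : ℝ) / Real.log z ≤ (x : ℝ) / ((1 / 16 : ℝ) / 2 * Real.log x) := by gcongr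
      _ = 64 * ((x : ℝ) / (2 * Real.log x)) := by
        field_simp
        ring
      _ ≤ _ := by linarith
  have h3 : 0 ≤ K * (θ ^ I0 + 1 / (Real.log P0) ^ 2) := by positivity
  have h4 := mul_le_mul_of_nonneg_left h2 h3
  linarith

/-- the number of exceptional pairs with `p ≤ x^c`, `c < 1/2` -/
theorem main2 (c : ℝ) (hc2 : c < 1 / 2) : ∃ C : ℝ, ∀ x : ℕ, 2 ≤ x →
    ((pairs x c).card : ℝ) ≤ C * (Nat.primeCounting x : ℝ) := by
  classical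
  obtain ⟨c', hc', hcc, hc'2⟩ : ∃ c' : ℝ, 0 < c' ∧ c ≤ c' ∧ c' < 1 / 2 :=
    ⟨max c (1 / 4), by positivity, le_max_left _ _, max_lt hc2 (by norm_num)⟩
  obtain ⟨C2, hC2, hmid⟩ := mid c' hc' hc'2
  obtain ⟨K, hK, θ, hθ0, hθ1, P1, hP1, hlow⟩ := low
  have hpi : ∀ x : ℕ, 2 ≤ x → (1 : ℝ) ≤ (Nat.primeCounting x : ℝ) := by
    intro x hx2
    have h3 : Nat.primeCounting 2 ≤ Nat.primeCounting x := Nat.monotone_primeCounting hx2
    have h4 : Nat.primeCounting 2 = 1 := by decide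
    exact_mod_cast (by omega : 1 ≤ Nat.primeCounting x)
  obtain ⟨D, hD⟩ : ∃ D, D = 1 + (K * (θ ^ 0 + 1 / (Real.log P1) ^ 2) + 1) + C2 := ⟨_, rfl⟩
  have hD0 : 0 ≤ D := by rw [hD]; positivity
  obtain ⟨x0, hx0⟩ := ((small P1 1 one_pos).and ((hlow P1 le_rfl 0 1 one_pos).and
    (hmid.and (eventually_ge_atTop 2)))).exists_forall_of_atTop
  refine ⟨D + (x0 : ℝ) ^ 2, fun x hx => ?_⟩
  have hp := hpi x hx
  rcases le_or_gt x0 x with hxx | hxx
  · obtain ⟨h1, h2, h3, -⟩ := hx0 x hxx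
    rw [one_mul] at h1
    obtain ⟨u, hu⟩ : ∃ u, u = (yy ⌊(x : ℝ) ^ (1 / 16 : ℝ)⌋₊ 0) ^ (1 / 40 : ℝ) := ⟨_, rfl⟩
    rw [← hu] at h2 h3
    have hu0 : 0 ≤ u := by
      rw [hu]
      unfold yy
      positivity
    have h4 := pairs_le x c ((range P1).filter Nat.Prime ∪ ((Icc P1 ⌊u⌋₊).filter Nat.Prime ∪
      PI u ((x : ℝ) ^ c'))) ?_
    · refine h4.trans ?_
      have hun : ∀ A B : Finset ℕ, ∑ p ∈ A ∪ B, ((FTDens.exc p x).card : ℝ) ≤
          ∑ p ∈ A, ((FTDens.exc p x).card : ℝ) + ∑ p ∈ B, ((FTDens.exc p x).card : ℝ) := by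
        intro A B
        have h5 := Finset.sum_union_inter (s₁ := A) (s₂ := B)
          (f := fun p : ℕ => ((FTDens.exc p x).card : ℝ))
        have h6 : 0 ≤ ∑ p ∈ A ∩ B, ((FTDens.exc p x).card : ℝ) :=
          Finset.sum_nonneg fun p _ => by positivity
        linarith
      have h5 := hun ((range P1).filter Nat.Prime) ((Icc P1 ⌊u⌋₊).filter Nat.Prime ∪
        PI u ((x : ℝ) ^ c'))
      have h6 := hun ((Icc P1 ⌊u⌋₊).filter Nat.Prime) (PI u ((x : ℝ) ^ c'))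
      have h7 : D * (Nat.primeCounting x : ℝ) = 1 * (Nat.primeCounting x : ℝ) +
          (K * (θ ^ 0 + 1 / (Real.log P1) ^ 2) + 1) * (Nat.primeCounting x : ℝ) +
          C2 * (Nat.primeCounting x : ℝ) := by
        rw [hD]
        ring
      have h8 : (D + (x0 : ℝ) ^ 2) * (Nat.primeCounting x : ℝ) =
          D * (Nat.primeCounting x : ℝ) + (x0 : ℝ) ^ 2 * (Nat.primeCounting x : ℝ) := by ring
      have h9 : 0 ≤ (x0 : ℝ) ^ 2 * (Nat.primeCounting x : ℝ) := by positivity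
      linarith
    · intro p hp1 hp2
      have hx1 : (1 : ℝ) ≤ x := by exact_mod_cast (by omega : 1 ≤ x)
      have hp3 : (p : ℝ) ≤ (x : ℝ) ^ c' := hp2.trans (Real.rpow_le_rpow_of_exponent_le hx1 hcc)
      rw [Finset.mem_union, Finset.mem_union]
      rcases lt_or_ge p P1 with h5 | h5
      · left
        rw [Finset.mem_filter, Finset.mem_range]
        exact ⟨h5, hp1⟩
      · right
        rcases le_or_gt (p : ℝ) u with h6 | h6
        · left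
          rw [Finset.mem_filter, Finset.mem_Icc]
          exact ⟨⟨h5, Nat.le_floor h6⟩, hp1⟩
        · right
          unfold PI
          rw [Finset.mem_filter, Finset.mem_range]
          exact ⟨Nat.lt_succ_of_le (Nat.le_floor hp3), hp1, h6⟩
  · have h1 : (pairs x c).card ≤ x * x := by
      unfold pairs
      refine (Finset.card_filter_le _ _).trans ?_
      rw [Finset.card_product, Nat.card_Icc, Nat.add_sub_cancel]
    have h2 : ((pairs x c).card : ℝ) ≤ (x : ℝ) * x := by exact_mod_cast h1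
    have h3 : (x : ℝ) ≤ x0 := by exact_mod_cast hxx.le
    have h4 : (x : ℝ) * x ≤ (x0 : ℝ) ^ 2 := by
      rw [sq]
      gcongr
    have h5 : 0 ≤ D * (Nat.primeCounting x : ℝ) := by positivity
    have h6 : (x0 : ℝ) ^ 2 * 1 ≤ (x0 : ℝ) ^ 2 * (Nat.primeCounting x : ℝ) := by gcongr
    have h8 : (D + (x0 : ℝ) ^ 2) * (Nat.primeCounting x : ℝ) =
        D * (Nat.primeCounting x : ℝ) + (x0 : ℝ) ^ 2 * (Nat.primeCounting x : ℝ) := by ring
    linarith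

/-- the number of exceptional pairs with `p ≤ x^c` is at most `C c^κ π(x)` for large `x` -/
theorem main1 : ∃ C κ : ℝ, 0 < C ∧ 0 < κ ∧ ∀ c : ℝ, 0 < c → c ≤ 1 / 4 → ∀ᶠ x : ℕ in atTop,
    ((pairs x c).card : ℝ) ≤ C * c ^ κ * (Nat.primeCounting x : ℝ) := by
  classical
  obtain ⟨K, hK, θ, hθ0, hθ1, P1, hP1, hlow⟩ := low
  obtain ⟨C3', hC3'⟩ := main2 (1 / 4) (by norm_num)
  obtain ⟨C3, hC3, hC30⟩ : ∃ C3 : ℝ, (∀ x : ℕ, 2 ≤ x →
      ((pairs x (1 / 4)).card : ℝ) ≤ C3 * (Nat.primeCounting x : ℝ)) ∧ 0 ≤ C3 := by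
    refine ⟨max C3' 0, fun x hx => (hC3' x hx).trans ?_, le_max_right _ _⟩
    exact mul_le_mul_of_nonneg_right (le_max_left _ _) (Nat.cast_nonneg _)
  obtain ⟨κ, hκ⟩ : ∃ κ, κ = -(Real.log θ / Real.log 2) := ⟨_, rfl⟩
  have hl2 : 0 < Real.log 2 := Real.log_pos (by norm_num)
  have hlθ : Real.log θ < 0 := Real.log_neg hθ0 hθ1
  have hκ0 : 0 < κ := by
    rw [hκ, neg_pos]
    exact div_neg_of_neg_of_pos hlθ hl2
  have hθκ : ((1 : ℝ) / 2) ^ κ = θ := by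
    rw [Real.rpow_def_of_pos (by norm_num), hκ, one_div, Real.log_inv]
    have : -Real.log 2 * -(Real.log θ / Real.log 2) = Real.log θ := by
      field_simp
    rw [this, Real.exp_log hθ0]
  refine ⟨(2 * K + 2) * 10240 ^ κ + C3 * 5120 ^ κ, κ, by positivity, hκ0, ?_⟩
  intro c hc hc4
  rcases le_or_gt c (1 / 5120) with hcs | hcs
  · obtain ⟨I0, hI1, hI2⟩ := exists_nat_pow_near_of_lt_one (show 0 < 5120 * c by positivity)
      (show 5120 * c ≤ 1 by linarith) (show (0 : ℝ) < 1 / 2 by norm_num) (show (1 : ℝ) / 2 < 1 by norm_num)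
    have hθI0 : 0 < θ ^ I0 := by positivity
    have hθI : θ ^ I0 ≤ 10240 ^ κ * c ^ κ := by
      rw [← hθκ, ← Real.rpow_natCast, ← Real.rpow_mul (by norm_num), mul_comm κ, Real.rpow_mul (by norm_num),
        Real.rpow_natCast, ← Real.mul_rpow (by norm_num) hc.le]
      refine Real.rpow_le_rpow (by positivity) ?_ hκ0.le
      rw [pow_succ] at hI1
      linarith
    obtain ⟨P0, hP0, hP0'⟩ : ∃ P0 : ℕ, P1 ≤ P0 ∧ 1 / (Real.log P0) ^ 2 ≤ θ ^ I0 := by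
      have h1 : Tendsto (fun n : ℕ => Real.log n) atTop atTop :=
        Real.tendsto_log_atTop.comp tendsto_natCast_atTop_atTop
      obtain ⟨P0, h2, h3, h4⟩ := ((h1.eventually_ge_atTop (1 / θ ^ I0)).and
        ((h1.eventually_ge_atTop 1).and (eventually_ge_atTop P1))).exists
      refine ⟨P0, h4, ?_⟩
      have h5 : Real.log P0 ≤ (Real.log P0) ^ 2 := by nlinarith
      have h6 : 1 / (Real.log P0) ^ 2 ≤ 1 / (1 / θ ^ I0) := by
        apply one_div_le_one_div_of_le (by positivity)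
        linarith
      rwa [one_div_one_div] at h6
    filter_upwards [small P0 (θ ^ I0) hθI0, hlow P0 hP0 I0 (θ ^ I0) hθI0,
      level (1 / 16) (by norm_num), eventually_ge_atTop 2] with x h1 h2 h3 hx2
    have hx1 : (1 : ℝ) ≤ x := by exact_mod_cast (by omega : 1 ≤ x)
    obtain ⟨z, hzz⟩ : ∃ z, z = ⌊(x : ℝ) ^ (1 / 16 : ℝ)⌋₊ := ⟨_, rfl⟩
    rw [← hzz] at h2 h3
    obtain ⟨hz1, hz2, hz3, hz4⟩ := h3
    obtain ⟨u, hu⟩ : ∃ u, u = (yy z I0) ^ (1 / 40 : ℝ) := ⟨_, rfl⟩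
    rw [← hu] at h2
    have hxu : (x : ℝ) ^ c ≤ u := by
      calc (x : ℝ) ^ c ≤ (x : ℝ) ^ ((1 / 16 : ℝ) / 2 * ((1 / 4 : ℝ) * (1 / 2) ^ I0 * (1 / 40))) := by
            refine Real.rpow_le_rpow_of_exponent_le hx1 ?_
            linarith
        _ = ((x : ℝ) ^ ((1 / 16 : ℝ) / 2)) ^ ((1 / 4 : ℝ) * (1 / 2) ^ I0 * (1 / 40)) :=
            Real.rpow_mul (by linarith) _ _
        _ ≤ (z : ℝ) ^ ((1 / 4 : ℝ) * (1 / 2) ^ I0 * (1 / 40)) :=
            Real.rpow_le_rpow (by positivity) hz2 (by positivity)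
        _ = u := by
            rw [hu]
            unfold yy
            rw [← Real.rpow_mul (by positivity)]
    have hu0 : 0 ≤ u := le_trans (by positivity) hxu
    have h4 := pairs_le x c ((range P0).filter Nat.Prime ∪ (Icc P0 ⌊u⌋₊).filter Nat.Prime) ?_
    · refine h4.trans ?_
      have h5 := Finset.sum_union_inter (s₁ := (range P0).filter Nat.Prime)
        (s₂ := (Icc P0 ⌊u⌋₊).filter Nat.Prime) (f := fun p : ℕ => ((FTDens.exc p x).card : ℝ))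
      have h6 : 0 ≤ ∑ p ∈ (range P0).filter Nat.Prime ∩ (Icc P0 ⌊u⌋₊).filter Nat.Prime,
          ((FTDens.exc p x).card : ℝ) := Finset.sum_nonneg fun p _ => by positivity
      have hp : (0 : ℝ) ≤ (Nat.primeCounting x : ℝ) := Nat.cast_nonneg _
      have h7 : (K * (θ ^ I0 + 1 / (Real.log P0) ^ 2) + θ ^ I0) * (Nat.primeCounting x : ℝ) ≤
          (K * (θ ^ I0 + θ ^ I0) + θ ^ I0) * (Nat.primeCounting x : ℝ) := by gcongr
      have h8 : θ ^ I0 * (Nat.primeCounting x : ℝ) + (K * (θ ^ I0 + θ ^ I0) + θ ^ I0) *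
          (Nat.primeCounting x : ℝ) = (2 * K + 2) * θ ^ I0 * (Nat.primeCounting x : ℝ) := by ring
      have h9 : (2 * K + 2) * θ ^ I0 * (Nat.primeCounting x : ℝ) ≤
          (2 * K + 2) * (10240 ^ κ * c ^ κ) * (Nat.primeCounting x : ℝ) := by gcongr
      have h10 : 0 ≤ C3 * 5120 ^ κ * c ^ κ * (Nat.primeCounting x : ℝ) := by positivity
      have h11 : ((2 * K + 2) * 10240 ^ κ + C3 * 5120 ^ κ) * c ^ κ * (Nat.primeCounting x : ℝ) =
          (2 * K + 2) * (10240 ^ κ * c ^ κ) * (Nat.primeCounting x : ℝ) +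
          C3 * 5120 ^ κ * c ^ κ * (Nat.primeCounting x : ℝ) := by ring
      linarith
    · intro p hp1 hp2
      rw [Finset.mem_union]
      rcases lt_or_ge p P0 with h5 | h5
      · left
        rw [Finset.mem_filter, Finset.mem_range]
        exact ⟨h5, hp1⟩
      · right
        rw [Finset.mem_filter, Finset.mem_Icc]
        exact ⟨⟨h5, Nat.le_floor (hp2.trans hxu)⟩, hp1⟩
  · filter_upwards [eventually_ge_atTop 2] with x hx
    have hx1 : (1 : ℝ) ≤ x := by exact_mod_cast (by omega : 1 ≤ x)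
    have h1 : pairs x c ⊆ pairs x (1 / 4) := by
      intro w hw
      unfold pairs at hw ⊢
      rw [Finset.mem_filter] at hw ⊢
      exact ⟨hw.1, hw.2.1, hw.2.2.1, hw.2.2.2.1,
        hw.2.2.2.2.1.trans (Real.rpow_le_rpow_of_exponent_le hx1 hc4), hw.2.2.2.2.2⟩
    have h2 : ((pairs x c).card : ℝ) ≤ ((pairs x (1 / 4)).card : ℝ) := by
      exact_mod_cast Finset.card_le_card h1
    have h3 := hC3 x hx
    have h4 : 1 ≤ (5120 : ℝ) ^ κ * c ^ κ := by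
      rw [← Real.mul_rpow (by norm_num) hc.le]
      exact Real.one_le_rpow (by linarith) hκ0.le
    have h5 : C3 * (Nat.primeCounting x : ℝ) * 1 ≤
        C3 * (Nat.primeCounting x : ℝ) * ((5120 : ℝ) ^ κ * c ^ κ) := by
      gcongr
    have h10 : 0 ≤ (2 * K + 2) * 10240 ^ κ * c ^ κ * (Nat.primeCounting x : ℝ) := by positivity
    have h11 : ((2 * K + 2) * 10240 ^ κ + C3 * 5120 ^ κ) * c ^ κ * (Nat.primeCounting x : ℝ) =
        (2 * K + 2) * 10240 ^ κ * c ^ κ * (Nat.primeCounting x : ℝ) +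
        C3 * (Nat.primeCounting x : ℝ) * ((5120 : ℝ) ^ κ * c ^ κ) := by ring
    linarith

theorem pairs_mono (x : ℕ) (hx : 1 ≤ x) {c c' : ℝ} (h : c ≤ c') : pairs x c ⊆ pairs x c' := by
  have hx1 : (1 : ℝ) ≤ x := by exact_mod_cast hx
  intro w hw
  unfold pairs at hw ⊢
  rw [Finset.mem_filter] at hw ⊢
  exact ⟨hw.1, hw.2.1, hw.2.2.1, hw.2.2.2.1,
    hw.2.2.2.2.1.trans (Real.rpow_le_rpow_of_exponent_le hx1 h), hw.2.2.2.2.2⟩

/-- the final form -/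
theorem main3 : ∃ κ : ℝ, 0 < κ ∧ ∀ c₀ : ℝ, c₀ < 1 / 2 → ∃ C : ℝ, ∀ c : ℝ, 0 < c → c ≤ c₀ →
    ∀ᶠ x : ℕ in atTop, ((pairs x c).card : ℝ) ≤ C * c ^ κ * (Nat.primeCounting x : ℝ) := by
  obtain ⟨C1, κ, hC1, hκ, h⟩ := main1
  refine ⟨κ, hκ, fun c₀ hc₀ => ?_⟩
  obtain ⟨C2', h2'⟩ := main2 c₀ hc₀
  obtain ⟨C2, h2, hC2⟩ : ∃ C2 : ℝ, (∀ x : ℕ, 2 ≤ x →
      ((pairs x c₀).card : ℝ) ≤ C2 * (Nat.primeCounting x : ℝ)) ∧ 0 ≤ C2 := by
    refine ⟨max C2' 0, fun x hx => (h2' x hx).trans ?_, le_max_right _ _⟩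
    exact mul_le_mul_of_nonneg_right (le_max_left _ _) (Nat.cast_nonneg _)
  refine ⟨C1 + C2 * 4 ^ κ, fun c hc hcc => ?_⟩
  have hc1 : 0 < c ^ κ := Real.rpow_pos_of_pos hc κ
  rcases le_or_gt c (1 / 4) with h4 | h4
  · filter_upwards [h c hc h4] with x hx
    have h5 : 0 ≤ C2 * 4 ^ κ * c ^ κ * (Nat.primeCounting x : ℝ) := by positivity
    have h6 : (C1 + C2 * 4 ^ κ) * c ^ κ * (Nat.primeCounting x : ℝ) =
        C1 * c ^ κ * (Nat.primeCounting x : ℝ) + C2 * 4 ^ κ * c ^ κ * (Nat.primeCounting x : ℝ) := by ring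
    linarith
  · filter_upwards [eventually_ge_atTop 2] with x hx
    have h5 : ((pairs x c).card : ℝ) ≤ ((pairs x c₀).card : ℝ) := by
      exact_mod_cast Finset.card_le_card (pairs_mono x (by omega) hcc)
    have h6 := h2 x hx
    have h7 : 1 ≤ (4 : ℝ) ^ κ * c ^ κ := by
      rw [← Real.mul_rpow (by norm_num) hc.le]
      exact Real.one_le_rpow (by linarith) hκ.le
    have h8 : C2 * (Nat.primeCounting x : ℝ) * 1 ≤
        C2 * (Nat.primeCounting x : ℝ) * ((4 : ℝ) ^ κ * c ^ κ) := by gcongr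
    have h9 : 0 ≤ C1 * c ^ κ * (Nat.primeCounting x : ℝ) := by positivity
    have h10 : (C1 + C2 * 4 ^ κ) * c ^ κ * (Nat.primeCounting x : ℝ) =
        C1 * c ^ κ * (Nat.primeCounting x : ℝ) +
        C2 * (Nat.primeCounting x : ℝ) * ((4 : ℝ) ^ κ * c ^ κ) := by ring
    linarith

end Pool.Agent.H24.FU
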