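import Pool.Agent.H24.FU.Mp
import Pool.Agent.H95.FL.Main
import Pool.Agent.H75.AP.MertensB
import Pool.Agent.H92.AP.Siv

/-!
# [H24 FU FP] one fixed `p`: at most `C_p x/(log x)^2` exceptional `q ≤ x`

Proof.  Upper bound sieve of the fundamental lemma `Pool.Agent.H95.FL.FL` (see how `H92/AP/Siv.lean`, theorem
`sv`, uses the lower bound weights `phim`; here `phip`) of dimension `N = p`: sieving primes
`P = {l : w < l ≤ x^a}`, `w ≥ max w0 p`, forbidden classes `B l = {b < l : b = 0 or (l % p = 1 and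
l ∣ ∑_(i < p) b^i)}`; `|B l| = g l * l ≤ p`, and `|B l| ≥ p` if `l % p = 1` (`FTDens.card_good`:
`|good p l| + p ≤ l`).  For `q ∈ exc p x`, `q > x^a`, and `l ∈ P`: `q % l ∉ B l` (`FTDens.lt_of_dvd`, see
`FTDens.exc_le`).  So `|exc p x| ≤ x^a + 2 x ∏_(l ∈ P) (1 - g l) + x^(1/2)`, and
`∏ (1 - g l) ≤ exp(-∑_(l ∈ P) 1/l - ∑_(l ∈ P, l = 1 mod p) (p-1)/l) ≤ C/(log x)^2` by `mertens_low` and `mp`.
-/

namespace Pool.Agent.H24.FU

open Finset

/-- the forbidden classes modulo `l` -/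
private theorem classes (p l : ℕ) (hp : p.Prime) (hl : l.Prime) : ∃ R : Finset ℤ, R.card = kap p l ∧
    (∀ r ∈ R, 0 ≤ r ∧ r < (l : ℤ)) ∧
    ∀ x q : ℕ, q ∈ FTDens.exc p x → l < q → ¬ ((q : ℤ) % (l : ℤ) ∈ R) := by
  classical
  have : NeZero l := ⟨hl.ne_zero⟩
  by_cases h1 : l % p = 1
  · have hl1 : (l : ZMod p) = 1 := by
      have h2 : ((l : ℕ) : ZMod p) = ((1 : ℕ) : ZMod p) := by
        rw [ZMod.natCast_eq_natCast_iff', h1, Nat.mod_eq_of_lt hp.one_lt]
      rw [h2, Nat.cast_one]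
    have hcard : p ≤ ((FTDens.good p l)ᶜ : Finset (ZMod l)).card := by
      have h2 := FTDens.card_good hp hl hl1
      rw [card_compl, ZMod.card]
      omega
    obtain ⟨R0, hR0, hR0c⟩ := exists_subset_card_eq hcard
    refine ⟨R0.image fun a => ((a.val : ℕ) : ℤ), ?_, ?_, ?_⟩
    · rw [card_image_of_injective, hR0c, kap, if_pos h1]
      intro a b hab
      have h2 : ((a.val : ℕ) : ℤ) = ((b.val : ℕ) : ℤ) := hab
      have h3 : a.val = b.val := by exact_mod_cast h2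
      exact ZMod.val_injective l h3
    · intro r hr
      obtain ⟨a, -, rfl⟩ := mem_image.1 hr
      exact ⟨by positivity, by exact_mod_cast ZMod.val_lt a⟩
    · intro x q hq hlq hmem
      obtain ⟨a, ha, haq⟩ := mem_image.1 hmem
      have h2 : a.val = q % l := by exact_mod_cast haq
      have h3 : a = (q : ZMod l) := by
        apply ZMod.val_injective l
        rw [h2, ZMod.val_natCast]
      have h4 := hR0 ha
      rw [mem_compl, h3] at h4
      rw [FTDens.exc, mem_filter] at hq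
      obtain ⟨-, hqp, hpq, hd⟩ := hq
      apply h4
      rw [FTDens.good, mem_filter]
      refine ⟨mem_univ _, ?_, ?_⟩
      · intro h0
        rw [ZMod.natCast_eq_zero_iff, Nat.prime_dvd_prime_iff_eq hl hqp] at h0
        omega
      · intro h0
        have h5 : ((∑ j ∈ range p, q ^ j : ℕ) : ZMod l) = 0 := by push_cast; exact h0
        rw [ZMod.natCast_eq_zero_iff] at h5
        have h6 : (∑ i ∈ range p, q ^ i) ∣ ∑ i ∈ range q, p ^ i := by
          rw [Nat.geomSum_eq hqp.two_le, Nat.geomSum_eq hp.two_le]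
          exact hd
        have h7 := FTDens.lt_of_dvd hp hqp hl hl1 h5 h6
        omega
  · refine ⟨{0}, ?_, ?_, ?_⟩
    · rw [card_singleton, kap, if_neg h1]
    · intro r hr
      rw [mem_singleton] at hr
      rw [hr]
      exact ⟨le_rfl, by exact_mod_cast hl.pos⟩
    · intro x q hq hlq hmem
      rw [mem_singleton] at hmem
      rw [FTDens.exc, mem_filter] at hq
      have h2 : l ∣ q := by
        have h3 : (l : ℤ) ∣ q := Int.dvd_of_emod_eq_zero hmem
        exact_mod_cast h3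
      rw [Nat.prime_dvd_prime_iff_eq hl hq.2.1] at h2
      omega

theorem fp (p : ℕ) (hp : p.Prime) : ∃ C : ℝ, ∀ x : ℕ, 2 ≤ x →
    ((FTDens.exc p x).card : ℝ) ≤ C * (x / (Real.log x) ^ 2) := by
  classical
  have hp2 := hp.two_le
  have hpr : (2 : ℝ) ≤ p := by exact_mod_cast hp2
  obtain ⟨w0, hw0, hFL⟩ := Pool.Agent.H95.FL.FL p (by omega)
  obtain ⟨C₁, hC₁, hmer⟩ := Pool.Agent.H75.AP.mertens_low
  obtain ⟨C₂, hmp⟩ := mp p hp
  have hcl : ∀ l : ℕ, ∃ R : Finset ℤ, l.Prime → R.card = kap p l ∧ (∀ r ∈ R, 0 ≤ r ∧ r < (l : ℤ)) ∧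
      ∀ x q : ℕ, q ∈ FTDens.exc p x → l < q → ¬ ((q : ℤ) % (l : ℤ) ∈ R) := by
    intro l
    by_cases hl : l.Prime
    · obtain ⟨R, hR⟩ := classes p l hp hl
      exact ⟨R, fun _ => hR⟩
    · exact ⟨∅, fun h => absurd h hl⟩
  choose R hR using hcl
  obtain ⟨b, hb⟩ : ∃ b : ℕ, b = 10 * p := ⟨_, rfl⟩
  obtain ⟨a, ha⟩ : ∃ a : ℝ, a = 1 / (2 * (6 * b + 12)) := ⟨_, rfl⟩
  have hb0 : (0 : ℝ) ≤ b := Nat.cast_nonneg _
  have ha0 : 0 < a := by rw [ha]; positivity
  have ha12 : a ≤ 1 / 2 := by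
    rw [ha]
    exact one_div_le_one_div_of_le (by norm_num) (by linarith)
  have ha1 : a ≤ 1 := by linarith
  have ha2 : a * (6 * b + 12) ≤ 1 / 2 := by
    rw [ha]
    field_simp
    norm_num
  obtain ⟨x0, hx0, hF⟩ := hFL b (1 / 2) a (by rw [hb]) ha0 ha1 ha2
  obtain ⟨Y₁, hY₁, hls⟩ := Pool.Agent.H92.AP.log_small 1 one_pos 2
  obtain ⟨X₁, hX₁⟩ : ∃ X₁ : ℝ, X₁ = max (max x0 Y₁) (Real.exp (2 / a)) := ⟨_, rfl⟩
  obtain ⟨C₃, hC₃⟩ : ∃ C₃ : ℝ, C₃ = C₁ + C₂ + (w0 + 1) * p - 2 * Real.log a := ⟨_, rfl⟩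
  refine ⟨2 + 2 * Real.exp C₃ + Real.log X₁ ^ 2, ?_⟩
  intro x hx
  have hx2 : (2 : ℝ) ≤ x := by exact_mod_cast hx
  have hxp : (0 : ℝ) < x := by linarith
  have hlx : 0 < Real.log x := Real.log_pos (by linarith)
  have hq0 : 0 ≤ (x : ℝ) / Real.log x ^ 2 := by positivity
  rcases lt_or_ge (x : ℝ) X₁ with hlt | hge
  · -- small x
    have h1 : ((FTDens.exc p x).card : ℝ) ≤ x := by
      have h2 : FTDens.exc p x ⊆ Icc 1 x := by
        rw [FTDens.exc]
        exact filter_subset _ _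
      have h3 := card_le_card h2
      rw [Nat.card_Icc, Nat.add_sub_cancel] at h3
      exact_mod_cast h3
    have h2 : Real.log x ^ 2 ≤ Real.log X₁ ^ 2 := by
      have h3 : Real.log x ≤ Real.log X₁ := Real.log_le_log hxp hlt.le
      exact pow_le_pow_left₀ hlx.le h3 2
    have h3 : (x : ℝ) ≤ Real.log X₁ ^ 2 * (x / Real.log x ^ 2) := by
      calc (x : ℝ) = Real.log x ^ 2 * (x / Real.log x ^ 2) := by field_simp
        _ ≤ _ := mul_le_mul_of_nonneg_right h2 hq0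
    have h4 : 0 ≤ Real.exp C₃ := (Real.exp_pos _).le
    have h5 : 0 ≤ (2 + 2 * Real.exp C₃) * ((x : ℝ) / Real.log x ^ 2) := by positivity
    calc ((FTDens.exc p x).card : ℝ) ≤ Real.log X₁ ^ 2 * (x / Real.log x ^ 2) := h1.trans h3
      _ ≤ _ := by linarith
  -- large x
  have hYx : x0 ≤ x := by
    refine le_trans ?_ hge
    rw [hX₁]
    exact (le_max_left _ _).trans (le_max_left _ _)
  have hY1x : Y₁ ≤ x := by
    refine le_trans ?_ hge
    rw [hX₁]
    exact (le_max_right _ _).trans (le_max_left _ _)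
  have hY2x : Real.exp (2 / a) ≤ x := by
    refine le_trans ?_ hge
    rw [hX₁]
    exact le_max_right _ _
  obtain ⟨y, hy⟩ : ∃ y : ℝ, y = (x : ℝ) ^ a := ⟨_, rfl⟩
  have hlogy : Real.log y = a * Real.log x := by rw [hy, Real.log_rpow hxp]
  have hy0 : 0 < y := by rw [hy]; positivity
  have hlog2 : 2 ≤ Real.log y := by
    rw [hlogy]
    have h1 : 2 / a ≤ Real.log x := by
      rw [Real.le_log_iff_exp_le hxp]
      exact hY2x
    rw [div_le_iff₀ ha0] at h1
    linarith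
  have hy3 : 3 ≤ y := by
    have h1 : Real.exp 2 ≤ y := by
      rw [← Real.le_log_iff_exp_le hy0]
      exact hlog2
    have h2 := Real.add_one_le_exp (2 : ℝ)
    linarith
  have hyx : y ≤ (x : ℝ) ^ (1 / 2 : ℝ) := by
    rw [hy]
    exact Real.rpow_le_rpow_of_exponent_le (by linarith) ha12
  obtain ⟨P, hP⟩ : ∃ P : Finset ℕ, P = (range (⌊y⌋₊ + 1)).filter (fun l => l.Prime ∧ w0 < l) := ⟨_, rfl⟩
  have hPm : ∀ l, l ∈ P ↔ l.Prime ∧ w0 < l ∧ (l : ℝ) ≤ y := by
    intro l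
    rw [hP, mem_filter, mem_range, Nat.lt_succ_iff, Nat.le_floor_iff hy0.le]
    tauto
  obtain ⟨phip, hmass, hval, hmean⟩ : ∃ phip : Finset ℕ → ℝ,
      (∑ S ∈ P.powerset, |phip S| * (p : ℝ) ^ S.card ≤ (x : ℝ) ^ (1 / 2 : ℝ)) ∧
      (∀ D, D ⊆ P → (if D = ∅ then 1 else 0) ≤ ∑ S ∈ D.powerset, phip S) ∧
      (∀ g : ℕ → ℝ, (∀ l ∈ P, 0 ≤ g l ∧ g l ≤ 2 * (p : ℝ) / l) →
          ∑ S ∈ P.powerset, phip S * ∏ l ∈ S, g l ≤ (1 + (1 / 2 : ℝ) ^ b) * ∏ l ∈ P, (1 - g l)) := by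
    obtain ⟨phim, phip, h1, h2, h3, h4, h5, h6, h7, h8⟩ := hF x hYx P (fun l hl => by
      have := (hPm l).1 hl
      rw [hy] at this
      exact ⟨this.1, this.2.1, this.2.2⟩)
    exact ⟨phip, h6, fun D hD => (h7 D hD).2.1, fun g hg => (h8 g hg).2.2.2⟩
  obtain ⟨g, hg⟩ : ∃ g : ℕ → ℝ, g = fun l => (kap p l : ℝ) / l := ⟨_, rfl⟩
  have hkap : ∀ l, kap p l ≤ p := by
    intro l
    unfold kap
    split_ifs <;> omega
  have hgP : ∀ l ∈ P, 0 ≤ g l ∧ g l ≤ (p : ℝ) / l := by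
    intro l hl
    rw [hg]
    refine ⟨by positivity, ?_⟩
    refine div_le_div_of_nonneg_right ?_ (Nat.cast_nonneg _)
    exact_mod_cast hkap l
  have hg1 : ∀ l ∈ P, g l ≤ 1 := by
    intro l hl
    have h1 := (hPm l).1 hl
    refine (hgP l hl).2.trans ?_
    have h4 : (0 : ℝ) < l := by exact_mod_cast h1.1.pos
    rw [div_le_one h4]
    exact_mod_cast (by omega : p ≤ l)
  obtain ⟨U, hU⟩ : ∃ U : Finset ℤ, U = Ioc 0 (x : ℤ) := ⟨_, rfl⟩
  obtain ⟨D, hD⟩ : ∃ D : ℤ → Finset ℕ, D = fun u => P.filter fun l => u % (l : ℤ) ∈ R l := ⟨_, rfl⟩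
  have hDP : ∀ u, D u ⊆ P := fun u => by rw [hD]; exact filter_subset _ _
  obtain ⟨S, hS⟩ : ∃ S : Finset ℤ, S = U.filter fun u => D u = ∅ := ⟨_, rfl⟩
  -- the sieve
  have hScard : (S.card : ℝ) ≤ x * (2 * ∏ l ∈ P, (1 - g l)) + (x : ℝ) ^ (1 / 2 : ℝ) := by
    have h1 : (S.card : ℝ) = ∑ u ∈ U, (if D u = ∅ then (1 : ℝ) else 0) := by
      rw [hS, card_filter]
      push_cast
      rfl
    have h2 : ∑ u ∈ U, (if D u = ∅ then (1 : ℝ) else 0) ≤ ∑ u ∈ U, ∑ T ∈ (D u).powerset, phip T :=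
      sum_le_sum fun u _ => hval (D u) (hDP u)
    have h3 : ∀ u, ∑ T ∈ (D u).powerset, phip T = ∑ T ∈ P.powerset, (if T ⊆ D u then phip T else 0) := by
      intro u
      rw [← sum_filter]
      refine sum_congr ?_ fun _ _ => rfl
      ext T
      rw [mem_powerset, mem_filter, mem_powerset]
      exact ⟨fun h => ⟨h.trans (hDP u), h⟩, fun h => h.2⟩
    have h4 : ∑ u ∈ U, ∑ T ∈ (D u).powerset, phip T =
        ∑ T ∈ P.powerset, phip T * ((U.filter fun u => T ⊆ D u).card : ℝ) := by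
      rw [sum_congr rfl fun u _ => h3 u, sum_comm]
      refine sum_congr rfl fun T _ => ?_
      rw [← sum_filter, sum_const, nsmul_eq_mul, mul_comm]
    have h5 : ∀ T ∈ P.powerset, |((U.filter fun u => T ⊆ D u).card : ℝ) -
        x * ∏ l ∈ T, g l| ≤ (p : ℝ) ^ T.card := by
      intro T hT
      rw [mem_powerset] at hT
      have e1 : (U.filter fun u => T ⊆ D u) =
          (Ioc 0 (x : ℤ)).filter fun u => u ≡ 0 [ZMOD ((1 : ℕ) : ℤ)] ∧ ∀ l ∈ T, u % (l : ℤ) ∈ R l := by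
        ext u
        rw [hU, mem_filter, mem_filter]
        refine and_congr_right fun _ => ?_
        rw [hD]
        constructor
        · intro h
          exact ⟨by rw [Int.modEq_iff_dvd]; simp, fun l hl => (mem_filter.1 (h hl)).2⟩
        · intro h l hl
          exact mem_filter.2 ⟨hT hl, h.2 l hl⟩
      have h6 := Pool.Agent.H92.AP.cnt 0 (x : ℤ) (by positivity) R T (fun l hl => ((hPm l).1 (hT hl)).1)
        (fun l hl => (hR l ((hPm l).1 (hT hl)).1).2.1) 1 0 one_pos (fun l hl => Nat.coprime_one_left l)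
      have h7 : ∏ l ∈ T, ((R l).card : ℝ) / l = ∏ l ∈ T, g l := by
        refine prod_congr rfl fun l hl => ?_
        rw [(hR l ((hPm l).1 (hT hl)).1).1, hg]
      rw [h7] at h6
      rw [e1]
      have h8 : (((x : ℤ) : ℝ) - ((0 : ℤ) : ℝ)) / ((1 : ℕ) : ℝ) = x := by
        push_cast
        ring
      rw [h8] at h6
      refine h6.trans ?_
      rw [← prod_const]
      refine prod_le_prod (fun l _ => Nat.cast_nonneg _) fun l hl => ?_
      rw [(hR l ((hPm l).1 (hT hl)).1).1]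
      exact_mod_cast hkap l
    have h6 : ∑ T ∈ P.powerset, phip T * ((U.filter fun u => T ⊆ D u).card : ℝ) ≤
        x * (∑ T ∈ P.powerset, phip T * ∏ l ∈ T, g l) + (x : ℝ) ^ (1 / 2 : ℝ) := by
      have h7 : |∑ T ∈ P.powerset, (phip T * ((U.filter fun u => T ⊆ D u).card : ℝ) -
          phip T * (x * ∏ l ∈ T, g l))| ≤ (x : ℝ) ^ (1 / 2 : ℝ) := by
        refine (abs_sum_le_sum_abs _ _).trans (le_trans (sum_le_sum fun T hT => ?_) hmass)
        rw [← mul_sub, abs_mul]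
        exact mul_le_mul_of_nonneg_left (h5 T hT) (abs_nonneg _)
      rw [sum_sub_distrib] at h7
      have h8 : ∑ T ∈ P.powerset, phip T * (x * ∏ l ∈ T, g l) =
          x * (∑ T ∈ P.powerset, phip T * ∏ l ∈ T, g l) := by
        rw [mul_sum]
        refine sum_congr rfl fun T _ => ?_
        ring
      rw [h8] at h7
      linarith [(abs_le.1 h7).2]
    have h7 := hmean g (fun l hl => ⟨(hgP l hl).1, (hgP l hl).2.trans (by
      have h4 : (0 : ℝ) < l := by exact_mod_cast ((hPm l).1 hl).1.pos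
      refine div_le_div_of_nonneg_right ?_ h4.le
      linarith)⟩)
    have h8 : 0 ≤ ∏ l ∈ P, (1 - g l) := prod_nonneg fun l hl => by linarith [hg1 l hl]
    have h9 : (1 + (1 / 2 : ℝ) ^ b) * ∏ l ∈ P, (1 - g l) ≤ 2 * ∏ l ∈ P, (1 - g l) := by
      refine mul_le_mul_of_nonneg_right ?_ h8
      have : (1 / 2 : ℝ) ^ b ≤ 1 := pow_le_one₀ (by norm_num) (by norm_num)
      linarith
    have h10 := mul_le_mul_of_nonneg_left (h7.trans h9) hxp.le
    rw [h1]
    rw [h4] at h2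
    linarith
  -- the product
  have hsum : 2 * Real.log (Real.log x) - C₃ ≤ ∑ l ∈ P, g l := by
    have e1 : ∑ l ∈ P, g l = ∑ l ∈ P, 1 / (l : ℝ) + ∑ l ∈ P.filter (fun l => l % p = 1), ((p : ℝ) - 1) / l := by
      rw [sum_filter, ← sum_add_distrib]
      refine sum_congr rfl fun l _ => ?_
      rw [hg]
      simp only [kap]
      split_ifs
      · ring
      · push_cast
        ring
    have e2 : Real.log (Real.log y) = Real.log a + Real.log (Real.log x) := by
      rw [hlogy, Real.log_mul ha0.ne' hlx.ne']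
    have e3 : ∑ l ∈ Pool.Agent.H75.AP.PI 0 y, 1 / (l : ℝ) ≤ ∑ l ∈ P, 1 / (l : ℝ) + (w0 + 1) := by
      have t1 : Pool.Agent.H75.AP.PI 0 y ⊆ P ∪ range (w0 + 1) := by
        intro l hl
        rw [Pool.Agent.H75.AP.MertB.mem_PI le_rfl] at hl
        rw [mem_union, mem_range]
        rcases Nat.lt_or_ge w0 l with h | h
        · exact Or.inl ((hPm l).2 ⟨hl.1, h, hl.2.2⟩)
        · exact Or.inr (by omega)
      have t2 : ∑ l ∈ range (w0 + 1), 1 / (l : ℝ) ≤ w0 + 1 := by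
        have t3 : ∀ l ∈ range (w0 + 1), 1 / (l : ℝ) ≤ 1 := by
          intro l _
          rcases Nat.eq_zero_or_pos l with h | h
          · rw [h]; simp
          · rw [div_le_one (by exact_mod_cast h)]
            exact_mod_cast h
        refine (sum_le_card_nsmul _ _ _ t3).trans (le_of_eq ?_)
        rw [card_range, nsmul_eq_mul, mul_one]
        push_cast
        ring
      have t4 : ∑ l ∈ P ∪ range (w0 + 1), 1 / (l : ℝ) ≤ ∑ l ∈ P, 1 / (l : ℝ) + ∑ l ∈ range (w0 + 1), 1 / (l : ℝ) := by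
        rw [← sum_union_inter]
        have : 0 ≤ ∑ l ∈ P ∩ range (w0 + 1), 1 / (l : ℝ) := sum_nonneg fun l _ => by positivity
        linarith
      have t5 := sum_le_sum_of_subset_of_nonneg t1 (fun l _ _ => (by positivity : (0 : ℝ) ≤ 1 / (l : ℝ)))
      linarith
    have e4 : ∑ l ∈ (Icc 1 ⌊y⌋₊).filter (fun l => l.Prime ∧ l % p = 1), ((p : ℝ) - 1) / l ≤
        ∑ l ∈ P.filter (fun l => l % p = 1), ((p : ℝ) - 1) / l + (w0 + 1) * (p - 1) := by
      have hpn : ∀ l : ℕ, 0 ≤ ((p : ℝ) - 1) / l := fun l => div_nonneg (by linarith) (Nat.cast_nonneg _)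
      have t1 : (Icc 1 ⌊y⌋₊).filter (fun l => l.Prime ∧ l % p = 1) ⊆
          P.filter (fun l => l % p = 1) ∪ range (w0 + 1) := by
        intro l hl
        rw [mem_filter, mem_Icc] at hl
        rw [mem_union, mem_range, mem_filter]
        rcases Nat.lt_or_ge w0 l with h | h
        · exact Or.inl ⟨(hPm l).2 ⟨hl.2.1, h, (Nat.le_floor_iff hy0.le).1 hl.1.2⟩, hl.2.2⟩
        · exact Or.inr (by omega)
      have t2 : ∑ l ∈ range (w0 + 1), ((p : ℝ) - 1) / l ≤ (w0 + 1) * (p - 1) := by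
        have t3 : ∀ l ∈ range (w0 + 1), ((p : ℝ) - 1) / l ≤ p - 1 := by
          intro l _
          rcases Nat.eq_zero_or_pos l with h | h
          · rw [h]
            simp only [Nat.cast_zero, div_zero]
            linarith
          · exact div_le_self (by linarith) (by exact_mod_cast h)
        refine (sum_le_card_nsmul _ _ _ t3).trans (le_of_eq ?_)
        rw [card_range, nsmul_eq_mul]
        push_cast
        ring
      have t4 : ∑ l ∈ P.filter (fun l => l % p = 1) ∪ range (w0 + 1), ((p : ℝ) - 1) / l ≤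
          ∑ l ∈ P.filter (fun l => l % p = 1), ((p : ℝ) - 1) / l + ∑ l ∈ range (w0 + 1), ((p : ℝ) - 1) / l := by
        rw [← sum_union_inter]
        have : 0 ≤ ∑ l ∈ P.filter (fun l => l % p = 1) ∩ range (w0 + 1), ((p : ℝ) - 1) / l :=
          sum_nonneg fun l _ => hpn l
        linarith
      have t5 := sum_le_sum_of_subset_of_nonneg t1 (fun l _ _ => hpn l)
      linarith
    have e5 := hmer y hy3
    have e6 := hmp y hy3
    rw [e2] at e5 e6
    rw [e1, hC₃]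
    linarith
  have hprod : ∏ l ∈ P, (1 - g l) ≤ Real.exp C₃ / Real.log x ^ 2 := by
    calc ∏ l ∈ P, (1 - g l) ≤ ∏ l ∈ P, Real.exp (-(g l)) :=
          prod_le_prod (fun l hl => by linarith [hg1 l hl]) fun l _ => Real.one_sub_le_exp_neg _
      _ = Real.exp (-∑ l ∈ P, g l) := by rw [← Real.exp_sum, sum_neg_distrib]
      _ ≤ Real.exp (C₃ - 2 * Real.log (Real.log x)) := Real.exp_le_exp.2 (by linarith)
      _ = Real.exp C₃ / Real.log x ^ 2 := by
          rw [Real.exp_sub]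
          congr 1
          rw [show (2 : ℝ) * Real.log (Real.log x) = ((2 : ℕ) : ℝ) * Real.log (Real.log x) by norm_num,
            Real.exp_nat_mul, Real.exp_log hlx]
  -- the exceptional primes
  have hexc : ((FTDens.exc p x).card : ℝ) ≤ y + S.card := by
    have h1 : FTDens.exc p x ⊆ Icc 1 ⌊y⌋₊ ∪ (FTDens.exc p x).filter (fun q : ℕ => y < (q : ℝ)) := by
      intro q hq
      rw [mem_union, mem_filter, mem_Icc, Nat.le_floor_iff hy0.le]
      rcases le_or_gt (q : ℝ) y with h | h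
      · refine Or.inl ⟨?_, h⟩
        rw [FTDens.exc, mem_filter, mem_Icc] at hq
        exact hq.1.1
      · exact Or.inr ⟨hq, h⟩
    have h2 : ((FTDens.exc p x).filter (fun q : ℕ => y < (q : ℝ))).card ≤ S.card := by
      refine card_le_card_of_injOn (fun q : ℕ => (q : ℤ)) ?_ ?_
      · intro q hq
        rw [mem_coe, mem_filter] at hq
        have hq1 := hq.1
        rw [FTDens.exc, mem_filter, mem_Icc] at hq1
        rw [mem_coe, hS, mem_filter, hU, mem_Ioc]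
        refine ⟨⟨Int.natCast_pos.2 hq1.1.1, Int.ofNat_le.2 hq1.1.2⟩, ?_⟩
        rw [hD, filter_eq_empty_iff]
        intro l hl
        have hl1 := (hPm l).1 hl
        refine (hR l hl1.1).2.2 x q hq.1 ?_
        have : (l : ℝ) < q := lt_of_le_of_lt hl1.2.2 hq.2
        exact_mod_cast this
      · intro q _ q' _ h
        exact Int.natCast_inj.1 h
    have h3 := (card_le_card h1).trans (card_union_le _ _)
    rw [Nat.card_Icc, Nat.add_sub_cancel] at h3
    have h4 : ((⌊y⌋₊ : ℕ) : ℝ) ≤ y := Nat.floor_le hy0.le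
    have h5 : ((FTDens.exc p x).card : ℝ) ≤ (⌊y⌋₊ : ℝ) + S.card := by exact_mod_cast h3.trans (Nat.add_le_add_left h2 _)
    linarith
  have hl1 := hls x hY1x
  have hl2 : 0 ≤ Real.log X₁ ^ 2 * ((x : ℝ) / Real.log x ^ 2) := by positivity
  have hl3 : (x : ℝ) * (2 * ∏ l ∈ P, (1 - g l)) ≤ 2 * Real.exp C₃ * (x / Real.log x ^ 2) := by
    calc (x : ℝ) * (2 * ∏ l ∈ P, (1 - g l)) ≤ x * (2 * (Real.exp C₃ / Real.log x ^ 2)) := by gcongr
      _ = _ := by ring
  calc ((FTDens.exc p x).card : ℝ) ≤ y + S.card := hexc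
    _ ≤ (x : ℝ) ^ (1 / 2 : ℝ) + (x * (2 * ∏ l ∈ P, (1 - g l)) + (x : ℝ) ^ (1 / 2 : ℝ)) := add_le_add hyx hScard
    _ ≤ 2 * (x / Real.log x ^ 2) + 2 * Real.exp C₃ * (x / Real.log x ^ 2) := by linarith
    _ ≤ _ := by linarith

end Pool.Agent.H24.FU
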