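import Pool.Agent.H24.FU.Fin

/-!
# [H24 FU IND] every single `p ≤ x^c`
-/

namespace Pool.Agent.H24.FU

open Finset Filter

/-- every prime `2 < p ≤ x^c`, `c < 1/2`, has at most `C x/(p log x)` exceptional primes `q ≤ x` -/
theorem indiv (c : ℝ) (hc2 : c < 1 / 2) : ∃ C : ℝ, ∀ x p : ℕ, 2 ≤ x → p.Prime → 2 < p →
    (p : ℝ) ≤ (x : ℝ) ^ c → ((FTDens.exc p x).card : ℝ) ≤ C * (x / (p * Real.log x)) := by
  classical
  have hd : 0 < 1 - 2 * c := by linarith
  have hlog : ∀ᶠ x : ℕ in atTop, Real.log x ≤ (x : ℝ) ^ (1 / 2 - c) := by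
    have h := isLittleO_log_rpow_atTop (r := 1 / 2 - c) (by linarith)
    have h2 := tendsto_natCast_atTop_atTop.eventually (h.bound one_pos)
    filter_upwards [h2, eventually_ge_atTop 3] with x hx hx3
    have hx0 : (3 : ℝ) ≤ x := by exact_mod_cast hx3
    have hl : 0 < Real.log x := Real.log_pos (by linarith)
    rw [Real.norm_of_nonneg hl.le, Real.norm_of_nonneg (by positivity), one_mul] at hx
    exact hx
  obtain ⟨x0, hx0⟩ := ((level ((1 - 2 * c) / 8) (by positivity)).and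
    (hlog.and (eventually_ge_atTop 3))).exists_forall_of_atTop
  refine ⟨(2 + 64 / (1 - 2 * c)) + (x0 : ℝ) ^ 2, fun x p hx hp hp2 hpx => ?_⟩
  have hx1 : (2 : ℝ) ≤ x := by exact_mod_cast hx
  have hlx : 0 < Real.log x := Real.log_pos (by linarith)
  have hp0 : (2 : ℝ) < p := by exact_mod_cast hp2
  have hpx2 : (p : ℝ) ≤ (x : ℝ) ^ (1 / 2 : ℝ) :=
    hpx.trans (Real.rpow_le_rpow_of_exponent_le (by linarith) hc2.le)
  have hXpos : 0 < (x : ℝ) / (p * Real.log x) := by positivity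
  rcases le_or_gt x0 x with hxx | hxx
  · obtain ⟨⟨hw1, hw2, hw3, hw4⟩, hl, hx3⟩ := hx0 x hxx
    obtain ⟨w, hww⟩ : ∃ w, w = ⌊(x : ℝ) ^ ((1 - 2 * c) / 8)⌋₊ := ⟨_, rfl⟩
    rw [← hww] at hw1 hw2 hw3 hw4
    have hw' : (2 : ℝ) ≤ w := by exact_mod_cast hw1
    have hlw : 0 < Real.log w := Real.log_pos (by linarith)
    have h4 := ex p x w hp hp2 (by omega)
    have h5 := JJ_good p w 0 hp (by omega) 0 le_rfl (fun i hi => by omega)
    rw [pow_zero, mul_one] at h5
    have h6 : 0 < Real.log w / 4 := by positivity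
    have h7 : ((x : ℝ) / p) / JJ p w ≤ 64 / (1 - 2 * c) * (x / (p * Real.log x)) := by
      calc ((x : ℝ) / p) / JJ p w ≤ ((x : ℝ) / p) / (Real.log w / 4) := by gcongr
        _ ≤ ((x : ℝ) / p) / (((1 - 2 * c) / 8 / 2 * Real.log x) / 4) := by gcongr
        _ = _ := by
          field_simp
          ring
    have h8 : (w : ℝ) ^ 4 ≤ (x : ℝ) ^ ((1 - 2 * c) / 2) := by
      calc (w : ℝ) ^ 4 ≤ ((x : ℝ) ^ ((1 - 2 * c) / 8)) ^ 4 := by gcongr
        _ = _ := by
          rw [← Real.rpow_natCast, ← Real.rpow_mul (by linarith)]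
          congr 1
          push_cast
          ring
    have h9 : (p : ℝ) * (w : ℝ) ^ 4 ≤ x / (p * Real.log x) := by
      rw [le_div_iff₀ (by positivity)]
      calc (p : ℝ) * (w : ℝ) ^ 4 * (p * Real.log x) = p * p * (w : ℝ) ^ 4 * Real.log x := by ring
        _ ≤ (x : ℝ) ^ c * (x : ℝ) ^ c * (x : ℝ) ^ ((1 - 2 * c) / 2) * (x : ℝ) ^ (1 / 2 - c) := by gcongr
        _ = (x : ℝ) ^ (1 : ℝ) := by
          rw [← Real.rpow_add (by linarith), ← Real.rpow_add (by linarith), ← Real.rpow_add (by linarith)]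
          congr 1
          ring
        _ = x := Real.rpow_one _
    have h10 : (w : ℝ) ≤ (p : ℝ) * (w : ℝ) ^ 4 := by
      have h11 : (w : ℝ) ≤ (w : ℝ) ^ 4 := le_self_pow₀ (by linarith) (by norm_num)
      nlinarith
    have h12 : 0 ≤ (x0 : ℝ) ^ 2 * (x / (p * Real.log x)) := by positivity
    have h13 : ((2 + 64 / (1 - 2 * c)) + (x0 : ℝ) ^ 2) * ((x : ℝ) / (p * Real.log x)) =
        2 * (x / (p * Real.log x)) + 64 / (1 - 2 * c) * (x / (p * Real.log x)) +
        (x0 : ℝ) ^ 2 * (x / (p * Real.log x)) := by ring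
    linarith
  · have h1 : ((FTDens.exc p x).card : ℝ) ≤ x := by
      have h2 : (FTDens.exc p x).card ≤ x := by
        unfold FTDens.exc
        refine (Finset.card_filter_le _ _).trans ?_
        rw [Nat.card_Icc, Nat.add_sub_cancel]
      exact_mod_cast h2
    have h2 : (x : ℝ) ≤ x0 := by exact_mod_cast hxx.le
    have h3 : (p : ℝ) * Real.log x ≤ x * x := by
      have h4 : (p : ℝ) ≤ x := by
        refine hpx2.trans ?_
        calc (x : ℝ) ^ (1 / 2 : ℝ) ≤ (x : ℝ) ^ (1 : ℝ) :=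
              Real.rpow_le_rpow_of_exponent_le (by linarith) (by norm_num)
          _ = x := Real.rpow_one _
      have h5 : Real.log x ≤ x := Real.log_le_self (by linarith)
      gcongr
    have h6 : (x : ℝ) ≤ (x0 : ℝ) ^ 2 * (x / (p * Real.log x)) := by
      rw [mul_div_assoc', le_div_iff₀ (by positivity)]
      calc (x : ℝ) * (p * Real.log x) ≤ x * (x * x) := by gcongr
        _ ≤ x * ((x0 : ℝ) * x0) := by gcongr
        _ = (x0 : ℝ) ^ 2 * x := by ring
    have h7 : 0 ≤ (2 + 64 / (1 - 2 * c)) * ((x : ℝ) / (p * Real.log x)) := by positivity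
    have h13 : ((2 + 64 / (1 - 2 * c)) + (x0 : ℝ) ^ 2) * ((x : ℝ) / (p * Real.log x)) =
        (2 + 64 / (1 - 2 * c)) * (x / (p * Real.log x)) +
        (x0 : ℝ) ^ 2 * (x / (p * Real.log x)) := by ring
    linarith

end Pool.Agent.H24.FU
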