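import Pool.Agent.H24.FU.Defs
import Pool.Agent.H67.VS.Sel

/-!
# [H24 FU JL] lower bound for the sieve sum

Proof.  For `l` prime, `l ≠ p`: `kap p l/(l - kap p l) ≥ u l + v l`, `u l = 1/(l-1)`,
`v l = (p-1)/l` if `l` lies in a window `W i` (then `l % p = 1`), `v l = 0` otherwise.  Induction on the
number `I` of windows, for the sums `SU w E x` over the squarefree `n ≤ x` without prime factors in the
finite set `E` of primes, `w = u + v`: the `n` divisible by `l ∈ W I` contribute at least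
`v l * SU w (insert l E) (x / l)`, so `SU (w + v) E x ≥ SU w E x + ∑ l ∈ W I, v l * SU w (insert l E) (x / l)`.
Without windows `SU u E x ≥ ∏ l ∈ E, (1 - 1/l) * log x` (induction on `E`, and `sel_log` for `E = ∅`).
-/

namespace Pool.Agent.H24.FU

open Finset

private noncomputable def NS (E : Finset ℕ) (x : ℝ) : Finset ℕ :=
  (Icc 1 ⌊x⌋₊).filter (fun n => Squarefree n ∧ ∀ l ∈ n.primeFactors, l ∉ E)

private noncomputable def SU (w : ℕ → ℝ) (E : Finset ℕ) (x : ℝ) : ℝ :=
  ∑ n ∈ NS E x, ∏ l ∈ n.primeFactors, w l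

private theorem mem_NS {E : Finset ℕ} {x : ℝ} (hx : 0 ≤ x) {n : ℕ} :
    n ∈ NS E x ↔ (1 ≤ n ∧ (n : ℝ) ≤ x) ∧ Squarefree n ∧ ∀ l ∈ n.primeFactors, l ∉ E := by
  unfold NS
  rw [mem_filter, mem_Icc, Nat.le_floor_iff hx]

private theorem pf_mul {l a : ℕ} (hl : l.Prime) (ha : a ≠ 0) :
    (l * a).primeFactors = insert l a.primeFactors := by
  rw [Nat.primeFactors_mul hl.ne_zero ha, hl.primeFactors, Finset.insert_eq]

private theorem prod_exp (s : Finset ℕ) (f g : ℕ → ℝ) (hf : ∀ l ∈ s, 0 ≤ f l)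
    (hg : ∀ l ∈ s, 0 ≤ g l) :
    ∏ l ∈ s, f l + ∑ l ∈ s, g l * ∏ l' ∈ s.erase l, f l' ≤ ∏ l ∈ s, (f l + g l) := by
  classical
  induction s using Finset.induction_on with
  | empty => simp
  | insert a s ha ih =>
    have hf' : ∀ l ∈ s, 0 ≤ f l := fun l hl => hf l (mem_insert_of_mem hl)
    have hg' : ∀ l ∈ s, 0 ≤ g l := fun l hl => hg l (mem_insert_of_mem hl)
    have hfa := hf a (mem_insert_self _ _)
    have hga := hg a (mem_insert_self _ _)
    have ih' := ih hf' hg'
    rw [prod_insert ha, sum_insert ha, prod_insert ha, erase_insert ha]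
    have e : ∑ l ∈ s, g l * ∏ l' ∈ (insert a s).erase l, f l' =
        f a * ∑ l ∈ s, g l * ∏ l' ∈ s.erase l, f l' := by
      rw [mul_sum]
      refine sum_congr rfl fun l hl => ?_
      have hla : l ≠ a := fun h => ha (h ▸ hl)
      rw [erase_insert_of_ne hla.symm, prod_insert (fun h => ha (mem_of_mem_erase h))]
      ring
    rw [e]
    have hG : 0 ≤ ∑ l ∈ s, g l * ∏ l' ∈ s.erase l, f l' :=
      sum_nonneg fun l hl => mul_nonneg (hg' l hl)
        (prod_nonneg fun l' hl' => hf' l' (mem_of_mem_erase hl'))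
    have h1 := mul_le_mul_of_nonneg_left ih' (add_nonneg hfa hga)
    nlinarith [mul_nonneg hga hG]

private theorem ns_bij (E : Finset ℕ) {x : ℝ} (hx : 0 ≤ x) {l : ℕ} (hl : l.Prime) (hlE : l ∉ E)
    (h : Finset ℕ → ℝ) :
    ∑ n ∈ (NS E x).filter (fun n => l ∈ n.primeFactors), h (n.primeFactors.erase l) =
      ∑ a ∈ NS (insert l E) (x / l), h a.primeFactors := by
  have hl0 : (0 : ℝ) < l := by exact_mod_cast hl.pos
  have hxl : 0 ≤ x / l := div_nonneg hx hl0.le
  have key : ∀ n, n ∈ (NS E x).filter (fun n => l ∈ n.primeFactors) →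
      ∃ a, n = l * a ∧ a ∈ NS (insert l E) (x / l) ∧ a.primeFactors = n.primeFactors.erase l := by
    intro n hn
    rw [mem_filter, mem_NS hx] at hn
    obtain ⟨⟨⟨h1, h2⟩, h3, h4⟩, h5⟩ := hn
    obtain ⟨a, rfl⟩ := Nat.dvd_of_mem_primeFactors h5
    have ha0 : a ≠ 0 := by
      rintro rfl
      simp at h1
    have hco : Nat.Coprime l a := Nat.coprime_of_squarefree_mul h3
    have hla : l ∉ a.primeFactors := by
      intro h6
      have h7 := Nat.dvd_of_mem_primeFactors h6
      have h8 := Nat.dvd_gcd (dvd_refl l) h7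
      rw [hco] at h8
      exact hl.one_lt.ne' (Nat.dvd_one.1 h8)
    refine ⟨a, rfl, ?_, ?_⟩
    · rw [mem_NS hxl]
      refine ⟨⟨Nat.pos_of_ne_zero ha0, ?_⟩, h3.squarefree_of_dvd (Dvd.intro_left l rfl), ?_⟩
      · rw [le_div_iff₀ hl0]
        push_cast at h2
        linarith
      · intro l' hl'
        rw [mem_insert]
        rintro (rfl | h6)
        · exact hla hl'
        · refine h4 l' ?_ h6
          rw [pf_mul hl ha0]
          exact mem_insert_of_mem hl'
    · rw [pf_mul hl ha0, erase_insert hla]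
  have key2 : ∀ a, a ∈ NS (insert l E) (x / l) →
      l * a ∈ (NS E x).filter (fun n => l ∈ n.primeFactors) := by
    intro a ha
    rw [mem_NS hxl] at ha
    obtain ⟨⟨h1, h2⟩, h3, h4⟩ := ha
    have ha0 : a ≠ 0 := by omega
    have hla : l ∉ a.primeFactors := fun h6 => h4 l h6 (mem_insert_self _ _)
    have hco : Nat.Coprime l a := by
      rw [hl.coprime_iff_not_dvd]
      intro h6
      exact hla (Nat.mem_primeFactors.2 ⟨hl, h6, ha0⟩)
    rw [mem_filter, mem_NS hx, pf_mul hl ha0]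
    refine ⟨⟨⟨Nat.pos_of_ne_zero (mul_ne_zero hl.ne_zero ha0), ?_⟩, ?_, ?_⟩, mem_insert_self _ _⟩
    · rw [le_div_iff₀ hl0] at h2
      push_cast
      linarith
    · rw [Nat.squarefree_mul hco]
      exact ⟨hl.squarefree, h3⟩
    · intro l' hl'
      rw [mem_insert] at hl'
      rcases hl' with rfl | hl'
      · exact hlE
      · exact fun h6 => h4 l' hl' (mem_insert_of_mem h6)
  refine Finset.sum_nbij' (fun n => n / l) (fun a => l * a) ?_ key2 ?_ ?_ ?_
  · intro n hn
    obtain ⟨a, rfl, ha, _⟩ := key n hn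
    show l * a / l ∈ _
    rw [Nat.mul_div_cancel_left _ hl.pos]
    exact ha
  · intro n hn
    obtain ⟨a, rfl, _, _⟩ := key n hn
    show l * (l * a / l) = l * a
    rw [Nat.mul_div_cancel_left _ hl.pos]
  · intro a _
    show l * a / l = a
    rw [Nat.mul_div_cancel_left _ hl.pos]
  · intro n hn
    obtain ⟨a, rfl, _, h6⟩ := key n hn
    show _ = h (l * a / l).primeFactors
    rw [Nat.mul_div_cancel_left _ hl.pos, h6]

private theorem su_mono {w : ℕ → ℝ} (hw : ∀ l, l.Prime → 0 ≤ w l) (E : Finset ℕ) {x y : ℝ}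
    (hx : 0 ≤ x) (hxy : x ≤ y) : SU w E x ≤ SU w E y := by
  unfold SU
  refine sum_le_sum_of_subset_of_nonneg ?_ ?_
  · intro n hn
    rw [mem_NS hx] at hn
    rw [mem_NS (hx.trans hxy)]
    exact ⟨⟨hn.1.1, hn.1.2.trans hxy⟩, hn.2⟩
  · intro n _ _
    exact prod_nonneg fun l hl => hw l (Nat.prime_of_mem_primeFactors hl)

private theorem su_nonneg {w : ℕ → ℝ} (hw : ∀ l, l.Prime → 0 ≤ w l) (E : Finset ℕ) (x : ℝ) :
    0 ≤ SU w E x :=
  sum_nonneg fun _ _ => prod_nonneg fun l hl => hw l (Nat.prime_of_mem_primeFactors hl)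

private theorem su_excl {w : ℕ → ℝ} (hw : ∀ l, l.Prime → 0 ≤ w l) (E : Finset ℕ) {x : ℝ}
    (hx : 0 ≤ x) {l : ℕ} (hl : l.Prime) (hlE : l ∉ E) :
    SU w E x ≤ (1 + w l) * SU w (insert l E) x := by
  have hl1 : (1 : ℝ) ≤ l := by exact_mod_cast hl.one_le
  have h1 : SU w E x = ∑ n ∈ (NS E x).filter (fun n => l ∈ n.primeFactors),
        ∏ l' ∈ n.primeFactors, w l' +
      ∑ n ∈ (NS E x).filter (fun n => ¬ l ∈ n.primeFactors), ∏ l' ∈ n.primeFactors, w l' :=
    (sum_filter_add_sum_filter_not _ _ _).symm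
  have h2 : (NS E x).filter (fun n => ¬ l ∈ n.primeFactors) = NS (insert l E) x := by
    ext n
    rw [mem_filter, mem_NS hx, mem_NS hx]
    constructor
    · rintro ⟨⟨h3, h4, h5⟩, h6⟩
      refine ⟨h3, h4, fun l' hl' h7 => ?_⟩
      rcases mem_insert.1 h7 with rfl | h7
      · exact h6 hl'
      · exact h5 l' hl' h7
    · rintro ⟨h3, h4, h5⟩
      exact ⟨⟨h3, h4, fun l' hl' h7 => h5 l' hl' (mem_insert_of_mem h7)⟩,
        fun h6 => h5 l h6 (mem_insert_self _ _)⟩
  have h3 : ∑ n ∈ (NS E x).filter (fun n => l ∈ n.primeFactors), ∏ l' ∈ n.primeFactors, w l' =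
      w l * SU w (insert l E) (x / l) := by
    have h4 := ns_bij E hx hl hlE (fun s => w l * ∏ l' ∈ s, w l')
    unfold SU
    rw [mul_sum, ← h4]
    refine sum_congr rfl fun n hn => ?_
    rw [mul_prod_erase _ _ (mem_filter.1 hn).2]
  have h5 : SU w (insert l E) (x / l) ≤ SU w (insert l E) x :=
    su_mono hw _ (div_nonneg hx (by linarith)) (div_le_self hx hl1)
  rw [h1, h2, h3]
  have h6 := mul_le_mul_of_nonneg_left h5 (hw l hl)
  unfold SU at h6 ⊢
  linarith

private theorem su_add {w v : ℕ → ℝ} (hw : ∀ l, l.Prime → 0 ≤ w l) (E V : Finset ℕ)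
    (hV : ∀ l ∈ V, l.Prime ∧ l ∉ E ∧ 0 ≤ v l) {x : ℝ} (hx : 0 ≤ x) :
    SU w E x + ∑ l ∈ V, v l * SU w (insert l E) (x / l) ≤
      SU (fun l => w l + if l ∈ V then v l else 0) E x := by
  have h1 : ∑ l ∈ V, v l * SU w (insert l E) (x / l) =
      ∑ n ∈ NS E x, ∑ l ∈ n.primeFactors, (if l ∈ V then v l else 0) *
        ∏ l' ∈ n.primeFactors.erase l, w l' := by
    have e1 : ∀ l ∈ V, v l * SU w (insert l E) (x / l) =
        ∑ n ∈ NS E x, if l ∈ n.primeFactors then
          v l * ∏ l' ∈ n.primeFactors.erase l, w l' else 0 := by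
      intro l hl
      obtain ⟨hlp, hlE, _⟩ := hV l hl
      have h4 := ns_bij E hx hlp hlE (fun s => v l * ∏ l' ∈ s, w l')
      unfold SU
      rw [mul_sum, ← h4, sum_filter]
    rw [sum_congr rfl e1, sum_comm]
    refine sum_congr rfl fun n _ => ?_
    rw [← sum_filter]
    have e2 : ∑ l ∈ n.primeFactors, (if l ∈ V then v l else 0) *
        ∏ l' ∈ n.primeFactors.erase l, w l' =
        ∑ l ∈ n.primeFactors.filter (fun l => l ∈ V), v l *
          ∏ l' ∈ n.primeFactors.erase l, w l' := by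
      rw [sum_filter]
      refine sum_congr rfl fun l _ => ?_
      split_ifs
      · rfl
      · rw [zero_mul]
    rw [e2]
    refine sum_congr ?_ fun _ _ => rfl
    ext l
    rw [mem_filter, mem_filter]
    exact and_comm
  rw [h1]
  unfold SU
  rw [← sum_add_distrib]
  refine sum_le_sum fun n _ => ?_
  refine prod_exp _ w (fun l => if l ∈ V then v l else 0)
    (fun l hl => hw l (Nat.prime_of_mem_primeFactors hl)) ?_
  intro l _
  show 0 ≤ if l ∈ V then v l else 0
  split_ifs with h2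
  · exact (hV l h2).2.2
  · exact le_rfl

private theorem su_log {x : ℝ} (hx : 1 ≤ x) :
    Real.log x ≤ SU (fun l => 1 / ((l : ℝ) - 1)) ∅ x := by
  classical
  set L := ⌊x⌋₊ with hL
  have hxL : x ≤ (L : ℝ) + 1 := (Nat.lt_floor_add_one x).le
  have h1 := log_add_one_le_harmonic L
  have h2 : ((harmonic L : ℚ) : ℝ) = ∑ n ∈ Icc 1 L, 1 / (n : ℝ) := by
    rw [harmonic_eq_sum_Icc]
    push_cast
    simp
  have h3 : Real.log x ≤ ∑ n ∈ Icc 1 L, 1 / (n : ℝ) := by
    rw [← h2]
    refine le_trans ?_ h1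
    apply Real.log_le_log
    · linarith
    · push_cast
      exact hxL
  refine h3.trans ?_
  have h0 : SU (fun l => 1 / ((l : ℝ) - 1)) ∅ x = ∑ m ∈ Icc 1 L, Pool.Agent.H67.VS.sel_g m := by
    unfold SU NS Pool.Agent.H67.VS.sel_g
    rw [← sum_filter, ← hL]
    have e : (Icc 1 L).filter (fun n => Squarefree n ∧ ∀ l ∈ n.primeFactors, l ∉ (∅ : Finset ℕ)) =
        (Icc 1 L).filter Squarefree := by
      refine filter_congr fun n _ => ?_
      simp
    rw [e]
    refine sum_congr rfl fun m hm => ?_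
    rw [Pool.Agent.H67.VS.sel_totient (mem_filter.1 hm).2]
  rw [h0]
  -- group by the squarefree kernel
  set rad : ℕ → ℕ := fun n => ∏ p ∈ n.primeFactors, p with hrad
  have hrad1 : ∀ n ∈ Icc 1 L, rad n ∈ Icc 1 L := by
    intro n hn
    rw [mem_Icc] at hn ⊢
    have h4 : rad n ∣ n := Nat.prod_primeFactors_dvd n
    exact ⟨Nat.pos_of_dvd_of_pos h4 hn.1, (Nat.le_of_dvd hn.1 h4).trans hn.2⟩
  rw [← Finset.sum_fiberwise_of_maps_to hrad1]
  refine Finset.sum_le_sum fun m hm => ?_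
  by_cases hsq : Squarefree m
  · rw [Pool.Agent.H67.VS.sel_g, if_pos hsq, Pool.Agent.H67.VS.sel_totient hsq]
    apply Pool.Agent.H67.VS.sel_rad _ (fun p hp => Nat.prime_of_mem_primeFactors hp)
    intro n hn
    rw [mem_filter, mem_Icc] at hn
    refine ⟨by omega, ?_⟩
    rw [← hn.2, hrad]
    exact (Nat.primeFactors_prod fun p hp => Nat.prime_of_mem_primeFactors hp).symm
  · rw [Pool.Agent.H67.VS.sel_g, if_neg hsq]
    have h5 : (Icc 1 L).filter (fun n => rad n = m) = ∅ := by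
      rw [Finset.filter_eq_empty_iff]
      intro n hn h6
      apply hsq
      rw [← h6]
      exact Pool.Agent.H67.VS.sel_sqf _ fun p hp => Nat.prime_of_mem_primeFactors hp
    rw [h5, Finset.sum_empty]

private theorem u_nonneg (l : ℕ) (hl : l.Prime) : (0 : ℝ) ≤ 1 / ((l : ℝ) - 1) := by
  have : (2 : ℝ) ≤ l := by exact_mod_cast hl.two_le
  exact div_nonneg zero_le_one (by linarith)

private theorem su_base (E : Finset ℕ) (hE : ∀ l ∈ E, l.Prime) {x : ℝ} (hx : 1 ≤ x) :
    (∏ l ∈ E, (1 - 1 / (l : ℝ))) * Real.log x ≤ SU (fun l => 1 / ((l : ℝ) - 1)) E x := by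
  classical
  induction E using Finset.induction_on with
  | empty =>
    rw [prod_empty, one_mul]
    exact su_log hx
  | insert l E hl ih =>
    have hlp := hE l (mem_insert_self _ _)
    have ih' := ih fun l' hl' => hE l' (mem_insert_of_mem hl')
    have h1 := su_excl (w := fun l => 1 / ((l : ℝ) - 1)) u_nonneg E (by linarith : (0 : ℝ) ≤ x)
      hlp hl
    have hl2 : (2 : ℝ) ≤ l := by exact_mod_cast hlp.two_le
    have hc : (0 : ℝ) ≤ 1 - 1 / (l : ℝ) := by
      rw [sub_nonneg, div_le_one (by linarith)]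
      linarith
    rw [prod_insert hl, mul_assoc]
    have h2 := mul_le_mul_of_nonneg_left (ih'.trans h1) hc
    refine h2.trans (le_of_eq ?_)
    rw [← mul_assoc]
    have h3 : (1 - 1 / (l : ℝ)) * (1 + 1 / ((l : ℝ) - 1)) = 1 := by
      have h4 : (l : ℝ) ≠ 0 := by linarith
      have h5 : (l : ℝ) - 1 ≠ 0 := by
        intro h6
        linarith
      field_simp
      ring
    rw [h3, one_mul]

private noncomputable def wI (p : ℕ) (W : ℕ → Finset ℕ) : ℕ → ℕ → ℝ
  | 0, l => 1 / ((l : ℝ) - 1)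
  | I + 1, l => wI p W I l + if l ∈ W I then ((p : ℝ) - 1) / l else 0

private theorem wI_nonneg (p : ℕ) (hp : p.Prime) (W : ℕ → Finset ℕ) (I : ℕ) (l : ℕ)
    (hl : l.Prime) : 0 ≤ wI p W I l := by
  have hp1 : (1 : ℝ) ≤ p := by exact_mod_cast hp.one_le
  induction I with
  | zero => exact u_nonneg l hl
  | succ I ih =>
    show 0 ≤ wI p W I l + if l ∈ W I then ((p : ℝ) - 1) / l else 0
    refine add_nonneg ih ?_
    split_ifs
    · exact div_nonneg (by linarith) (Nat.cast_nonneg _)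
    · exact le_rfl

private theorem wI_out (p : ℕ) (W : ℕ → Finset ℕ) (I l : ℕ) (h : ∀ i < I, l ∉ W i) :
    wI p W I l = 1 / ((l : ℝ) - 1) := by
  induction I with
  | zero => rfl
  | succ I ih =>
    show wI p W I l + (if l ∈ W I then ((p : ℝ) - 1) / l else 0) = _
    rw [if_neg (h I (Nat.lt_succ_self _)), add_zero]
    exact ih fun i hi => h i (Nat.lt_succ_of_lt hi)

private theorem wI_le (p : ℕ) (hp : p.Prime) (W : ℕ → Finset ℕ) (I : ℕ)
    (hW : ∀ i < I, ∀ l ∈ W i, l % p = 1)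
    (hdis : ∀ i < I, ∀ j < I, i ≠ j → Disjoint (W i) (W j)) (l : ℕ) :
    wI p W I l ≤ 1 / ((l : ℝ) - 1) + if l % p = 1 then ((p : ℝ) - 1) / l else 0 := by
  have hp1 : (1 : ℝ) ≤ p := by exact_mod_cast hp.one_le
  induction I with
  | zero =>
    show 1 / ((l : ℝ) - 1) ≤ _
    have : (0 : ℝ) ≤ if l % p = 1 then ((p : ℝ) - 1) / l else 0 := by
      split_ifs
      · exact div_nonneg (by linarith) (Nat.cast_nonneg _)
      · exact le_rfl
    linarith
  | succ I ih =>
    show wI p W I l + (if l ∈ W I then ((p : ℝ) - 1) / l else 0) ≤ _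
    by_cases hl : l ∈ W I
    · have h1 : ∀ i < I, l ∉ W i := by
        intro i hi h2
        exact (disjoint_left.1 (hdis i (Nat.lt_succ_of_lt hi) I (Nat.lt_succ_self _) hi.ne)) h2 hl
      rw [wI_out p W I l h1, if_pos hl, if_pos (hW I (Nat.lt_succ_self _) l hl)]
    · rw [if_neg hl, add_zero]
      exact ih (fun i hi => hW i (Nat.lt_succ_of_lt hi))
        (fun i hi j hj => hdis i (Nat.lt_succ_of_lt hi) j (Nat.lt_succ_of_lt hj))

private theorem su_main (p : ℕ) (hp : p.Prime) (W : ℕ → Finset ℕ) (T : ℕ → ℕ) (I : ℕ)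
    (hT1 : ∀ i < I, 1 ≤ T i)
    (hW : ∀ i < I, ∀ l ∈ W i, l.Prime ∧ l % p = 1 ∧ l ≤ T i)
    (hdis : ∀ i < I, ∀ j < I, i ≠ j → Disjoint (W i) (W j)) :
    ∀ E : Finset ℕ, (∀ l ∈ E, l.Prime) → (∀ i < I, Disjoint (W i) E) → ∀ x y : ℝ, 1 ≤ y →
      (∏ i ∈ range I, (T i : ℝ)) * y ≤ x →
      (∏ l ∈ E, (1 - 1 / (l : ℝ))) * Real.log y *
        ∏ i ∈ range I, (1 + (∑ l ∈ W i, ((p : ℝ) - 1) / l) / 2) ≤ SU (wI p W I) E x := by
  have hp1 : (1 : ℝ) ≤ p := by exact_mod_cast hp.one_le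
  induction I with
  | zero =>
    intro E hE _ x y hy hxy
    rw [range_zero, prod_empty, one_mul] at hxy
    rw [range_zero, prod_empty, mul_one]
    have h1 := su_base E hE hy
    have h2 : SU (fun l => 1 / ((l : ℝ) - 1)) E y ≤ SU (fun l => 1 / ((l : ℝ) - 1)) E x :=
      su_mono u_nonneg E (by linarith) hxy
    exact h1.trans h2
  | succ I ih =>
    intro E hE hWE x y hy hxy
    have ih' := ih (fun i hi => hT1 i (Nat.lt_succ_of_lt hi))
      (fun i hi => hW i (Nat.lt_succ_of_lt hi))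
      (fun i hi j hj => hdis i (Nat.lt_succ_of_lt hi) j (Nat.lt_succ_of_lt hj))
    rw [prod_range_succ] at hxy
    rw [prod_range_succ]
    set Q : ℝ := ∏ i ∈ range I, (T i : ℝ) with hQ
    set R : ℝ := ∏ i ∈ range I, (1 + (∑ l ∈ W i, ((p : ℝ) - 1) / l) / 2) with hR
    set c : ℝ := ∏ l ∈ E, (1 - 1 / (l : ℝ)) with hc
    have hQ0 : 0 ≤ Q := prod_nonneg fun i _ => Nat.cast_nonneg _
    have hTI : (1 : ℝ) ≤ T I := by exact_mod_cast hT1 I (Nat.lt_succ_self _)
    have hQy : 0 ≤ Q * y := mul_nonneg hQ0 (by linarith)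
    have hx0 : 0 ≤ x := by
      refine le_trans ?_ hxy
      exact mul_nonneg (mul_nonneg hQ0 (by linarith)) (by linarith)
    have hQT : Q * y * T I ≤ x := by
      calc Q * y * T I = Q * T I * y := by ring
        _ ≤ x := hxy
    have hlog : 0 ≤ Real.log y := Real.log_nonneg hy
    have hv : ∀ l ∈ W I, l.Prime ∧ l ∉ E ∧ (0 : ℝ) ≤ ((p : ℝ) - 1) / l := by
      intro l hl
      refine ⟨(hW I (Nat.lt_succ_self _) l hl).1, ?_, ?_⟩
      · exact disjoint_left.1 (hWE I (Nat.lt_succ_self _)) hl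
      · exact div_nonneg (by linarith) (Nat.cast_nonneg _)
    have hadd := su_add (w := wI p W I) (v := fun l => ((p : ℝ) - 1) / l)
      (fun l hl => wI_nonneg p hp W I l hl) E (W I) hv hx0
    have hfun : (fun l => wI p W I l + if l ∈ W I then ((p : ℝ) - 1) / l else 0) =
        wI p W (I + 1) := rfl
    rw [hfun] at hadd
    refine le_trans ?_ hadd
    have h1 : c * Real.log y * R ≤ SU (wI p W I) E x := by
      refine ih' E hE (fun i hi => hWE i (Nat.lt_succ_of_lt hi)) x y hy ?_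
      refine le_trans ?_ hQT
      exact le_mul_of_one_le_right hQy hTI
    have hR0 : 0 ≤ R := by
      refine prod_nonneg fun i _ => ?_
      have : (0 : ℝ) ≤ ∑ l ∈ W i, ((p : ℝ) - 1) / l :=
        sum_nonneg fun l _ => div_nonneg (by linarith) (Nat.cast_nonneg _)
      linarith
    have hc0 : 0 ≤ c := by
      refine prod_nonneg fun l hl => ?_
      have h2 : (2 : ℝ) ≤ l := by exact_mod_cast (hE l hl).two_le
      rw [sub_nonneg, div_le_one (by linarith)]
      linarith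
    have h2 : ∀ l ∈ W I, c * Real.log y * R * ((((p : ℝ) - 1) / l) / 2) ≤
        ((p : ℝ) - 1) / l * SU (wI p W I) (insert l E) (x / l) := by
      intro l hl
      obtain ⟨hlp, hlE, hv0⟩ := hv l hl
      have hl2 : (2 : ℝ) ≤ l := by exact_mod_cast hlp.two_le
      have h3 : (∏ l' ∈ insert l E, (1 - 1 / (l' : ℝ))) * Real.log y * R ≤
          SU (wI p W I) (insert l E) (x / l) := by
        refine ih' (insert l E) ?_ ?_ (x / l) y hy ?_
        · intro l' hl'
          rcases mem_insert.1 hl' with rfl | hl'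
          · exact hlp
          · exact hE l' hl'
        · intro i hi
          rw [disjoint_insert_right]
          refine ⟨?_, hWE i (Nat.lt_succ_of_lt hi)⟩
          intro h4
          exact (disjoint_left.1 (hdis i (Nat.lt_succ_of_lt hi) I (Nat.lt_succ_self _) hi.ne)) h4 hl
        · rw [le_div_iff₀ (by linarith)]
          refine le_trans ?_ hQT
          refine mul_le_mul_of_nonneg_left ?_ hQy
          exact_mod_cast (hW I (Nat.lt_succ_self _) l hl).2.2
      rw [prod_insert hlE] at h3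
      have h4 := mul_le_mul_of_nonneg_left h3 hv0
      refine le_trans ?_ h4
      have h5 : (1 : ℝ) / 2 ≤ 1 - 1 / (l : ℝ) := by
        have h6 : 1 / (l : ℝ) ≤ 1 / 2 := one_div_le_one_div_of_le (by norm_num) hl2
        linarith
      have h6 : 0 ≤ ((p : ℝ) - 1) / l * (c * Real.log y * R) :=
        mul_nonneg hv0 (mul_nonneg (mul_nonneg hc0 hlog) hR0)
      calc c * Real.log y * R * ((((p : ℝ) - 1) / l) / 2)
          = (1 / 2) * (((p : ℝ) - 1) / l * (c * Real.log y * R)) := by ring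
        _ ≤ (1 - 1 / (l : ℝ)) * (((p : ℝ) - 1) / l * (c * Real.log y * R)) :=
            mul_le_mul_of_nonneg_right h5 h6
        _ = ((p : ℝ) - 1) / l * ((1 - 1 / (l : ℝ)) * c * Real.log y * R) := by ring
    have h3 := sum_le_sum h2
    rw [← mul_sum, ← sum_div] at h3
    calc c * Real.log y * (R * (1 + (∑ l ∈ W I, ((p : ℝ) - 1) / l) / 2))
        = c * Real.log y * R + c * Real.log y * R * ((∑ l ∈ W I, ((p : ℝ) - 1) / l) / 2) := by ring
      _ ≤ _ := add_le_add h1 h3

theorem jl (p z I : ℕ) (hp : p.Prime) (hz : 1 ≤ z) (W : ℕ → Finset ℕ) (T : ℕ → ℕ)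
    (hT1 : ∀ i < I, 1 ≤ T i) (hT : (∏ i ∈ range I, T i) ^ 2 ≤ z)
    (hW : ∀ i < I, ∀ l ∈ W i, l.Prime ∧ l % p = 1 ∧ l ≤ T i)
    (hdis : ∀ i < I, ∀ j < I, i ≠ j → Disjoint (W i) (W j)) :
    Real.log z / 4 * ∏ i ∈ range I, (1 + (∑ l ∈ W i, ((p : ℝ) - 1) / l) / 2) ≤ JJ p z := by
  have hz1 : (1 : ℝ) ≤ z := by exact_mod_cast hz
  have hp2 : (2 : ℝ) ≤ p := by exact_mod_cast hp.two_le
  have hs1 : 1 ≤ Real.sqrt z := by
    rw [Real.one_le_sqrt]
    exact hz1
  have hmain := su_main p hp W T I hT1 hW hdis {p} (fun l hl => by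
      rw [mem_singleton] at hl
      rw [hl]
      exact hp) (fun i hi => by
      rw [disjoint_singleton_right]
      intro h1
      have h2 := (hW i hi p h1).2.1
      rw [Nat.mod_self] at h2
      omega) (z : ℝ) (Real.sqrt z) hs1 (by
      have h1 : (∏ i ∈ range I, (T i : ℝ)) ^ 2 ≤ (z : ℝ) := by exact_mod_cast hT
      have h2 : (∏ i ∈ range I, (T i : ℝ)) ≤ Real.sqrt z := by
        apply Real.le_sqrt_of_sq_le
        exact h1
      calc (∏ i ∈ range I, (T i : ℝ)) * Real.sqrt z ≤ Real.sqrt z * Real.sqrt z :=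
            mul_le_mul_of_nonneg_right h2 (Real.sqrt_nonneg _)
        _ = z := Real.mul_self_sqrt (by linarith))
  rw [prod_singleton] at hmain
  have hR0 : 0 ≤ ∏ i ∈ range I, (1 + (∑ l ∈ W i, ((p : ℝ) - 1) / l) / 2) := by
    refine prod_nonneg fun i _ => ?_
    have : (0 : ℝ) ≤ ∑ l ∈ W i, ((p : ℝ) - 1) / l :=
      sum_nonneg fun l _ => div_nonneg (by linarith) (Nat.cast_nonneg _)
    linarith
  have hlog : 0 ≤ Real.log z := Real.log_nonneg hz1
  have h1 : Real.log z / 4 ≤ (1 - 1 / (p : ℝ)) * Real.log (Real.sqrt z) := by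
    rw [Real.log_sqrt (by linarith)]
    have h2 : 1 / (p : ℝ) ≤ 1 / 2 := one_div_le_one_div_of_le (by norm_num) hp2
    have h3 : (1 : ℝ) / 2 ≤ 1 - 1 / (p : ℝ) := by linarith
    have h4 := mul_le_mul_of_nonneg_right h3 (by linarith : (0 : ℝ) ≤ Real.log z / 2)
    linarith
  refine (mul_le_mul_of_nonneg_right h1 hR0).trans (hmain.trans ?_)
  unfold SU JJ NS
  rw [Nat.floor_natCast]
  have hset : (Icc 1 z).filter (fun n => Squarefree n ∧ ∀ l ∈ n.primeFactors, l ∉ ({p} : Finset ℕ)) =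
      (Icc 1 z).filter (fun n => Squarefree n ∧ n.Coprime p) := by
    refine filter_congr fun n hn => ?_
    rw [mem_Icc] at hn
    refine and_congr_right fun _ => ?_
    rw [Nat.coprime_comm, hp.coprime_iff_not_dvd]
    constructor
    · intro h2 h3
      exact h2 p (Nat.mem_primeFactors.2 ⟨hp, h3, by omega⟩) (mem_singleton_self _)
    · intro h2 l hl h3
      rw [mem_singleton] at h3
      rw [h3] at hl
      exact h2 (Nat.dvd_of_mem_primeFactors hl)
  rw [hset]
  refine sum_le_sum fun n hn => ?_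
  rw [mem_filter] at hn
  refine prod_le_prod (fun l hl => wI_nonneg p hp W I l (Nat.prime_of_mem_primeFactors hl))
    fun l hl => ?_
  have hlp := Nat.prime_of_mem_primeFactors hl
  have hl2 : (2 : ℝ) ≤ l := by exact_mod_cast hlp.two_le
  refine (wI_le p hp W I (fun i hi l hl => (hW i hi l hl).2.1) hdis l).trans ?_
  unfold kap
  by_cases h2 : l % p = 1
  · rw [if_pos h2, if_pos h2]
    have h3 : p < l := by
      by_contra h4
      push Not at h4
      rcases h4.lt_or_eq with h5 | h5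
      · rw [Nat.mod_eq_of_lt h5] at h2
        exact hlp.one_lt.ne' h2
      · rw [h5, Nat.mod_self] at h2
        omega
    have h4 : (0 : ℝ) < (l : ℝ) - p := by
      rw [sub_pos]
      exact_mod_cast h3
    have h5 : (0 : ℝ) < (l : ℝ) - 1 := by linarith
    have h6 : (0 : ℝ) ≤ (p : ℝ) - 1 := by linarith
    have h7 : ((p : ℝ) - 1) / l ≤ ((p : ℝ) - 1) / ((l : ℝ) - 1) :=
      div_le_div_of_nonneg_left h6 h5 (by linarith)
    have h8 : (p : ℝ) / ((l : ℝ) - 1) ≤ (p : ℝ) / ((l : ℝ) - p) :=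
      div_le_div_of_nonneg_left (by linarith) h4 (by linarith)
    calc 1 / ((l : ℝ) - 1) + ((p : ℝ) - 1) / l
        ≤ 1 / ((l : ℝ) - 1) + ((p : ℝ) - 1) / ((l : ℝ) - 1) := by linarith
      _ = (p : ℝ) / ((l : ℝ) - 1) := by
          rw [← add_div]
          congr 1
          ring
      _ ≤ _ := h8
  · rw [if_neg h2, if_neg h2, add_zero]
    push_cast
    exact le_rfl

end Pool.Agent.H24.FU
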