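import Pool.Agent.H24.FU.Defs
import Pool.Agent.H43.UF.Psi

/-!
# [H24 FU MP] Mertens for the primes `= 1 mod p` (lower bound, error `O_p(1)`)

Proof.  `H43.UF.psiu 1 1` (Siegel-Walfisz for all characters) and orthogonality: for large `x`
`(p-1) ∑_(n ≤ x, n = 1 mod p) Λ(n) ≥ x - (p-1) x/log x`; prime powers are `O(√x log x)`, so the number of
primes `l ≤ n`, `l = 1 mod p`, is at least `n/((p-1) log n) - 33 n/(log n)^2`. Partial summation by induction.
-/

namespace Pool.Agent.H24.FU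

open Finset

private noncomputable def ind (p l : ℕ) : ℝ := if l.Prime ∧ l % p = 1 then 1 else 0

private theorem ind_nonneg (p l : ℕ) : 0 ≤ ind p l := by
  unfold ind
  split_ifs <;> norm_num

private theorem loglog_step (t : ℝ) (ht : 2 ≤ t) :
    Real.log (Real.log (t + 1)) - Real.log (Real.log t) ≤ 1 / (t * Real.log t) := by
  have h1 : 0 < Real.log t := Real.log_pos (by linarith)
  have h2 : 0 < Real.log (t + 1) := Real.log_pos (by linarith)
  rw [← Real.log_div h2.ne' h1.ne']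
  have h3 : Real.log (Real.log (t + 1) / Real.log t) ≤ Real.log (t + 1) / Real.log t - 1 :=
    Real.log_le_sub_one_of_pos (div_pos h2 h1)
  have h4 : Real.log (t + 1) - Real.log t ≤ 1 / t := by
    rw [← Real.log_div (by linarith) (by linarith)]
    have h5 : Real.log ((t + 1) / t) ≤ (t + 1) / t - 1 :=
      Real.log_le_sub_one_of_pos (by positivity)
    have h6 : (t + 1) / t - 1 = 1 / t := by
      field_simp
      ring
    linarith
  have h7 : Real.log (t + 1) / Real.log t - 1 = (Real.log (t + 1) - Real.log t) / Real.log t := by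
    field_simp
  rw [h7] at h3
  refine h3.trans ?_
  rw [← div_div]
  exact div_le_div_of_nonneg_right h4 h1.le

/-- `1/(t (log t)^2) ≤ 1/log (t-1) - 1/log t` -/
private theorem inv_step (t : ℝ) (ht : 3 ≤ t) :
    1 / (t * Real.log t ^ 2) ≤ 1 / Real.log (t - 1) - 1 / Real.log t := by
  have h1 : 0 < Real.log (t - 1) := Real.log_pos (by linarith)
  have h2 : 0 < Real.log t := Real.log_pos (by linarith)
  have h12 : Real.log (t - 1) ≤ Real.log t := Real.log_le_log (by linarith) (by linarith)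
  have h3 : 1 / t ≤ Real.log t - Real.log (t - 1) := by
    have h4 : Real.log ((t - 1) / t) ≤ (t - 1) / t - 1 :=
      Real.log_le_sub_one_of_pos (div_pos (by linarith) (by linarith))
    rw [Real.log_div (by linarith) (by linarith)] at h4
    have h5 : (t - 1) / t - 1 = -(1 / t) := by
      field_simp
      ring
    linarith
  have h6 : 1 / Real.log (t - 1) - 1 / Real.log t =
      (Real.log t - Real.log (t - 1)) / (Real.log (t - 1) * Real.log t) := by
    field_simp
  rw [h6, ← div_div]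
  have h7 : Real.log (t - 1) * Real.log t ≤ Real.log t ^ 2 := by
    rw [sq]
    exact mul_le_mul_of_nonneg_right h12 h2.le
  calc 1 / t / Real.log t ^ 2 ≤ (Real.log t - Real.log (t - 1)) / Real.log t ^ 2 :=
        div_le_div_of_nonneg_right h3 (by positivity)
    _ ≤ _ := div_le_div_of_nonneg_left (by linarith) (by positivity) h7

private theorem psi1 (p : ℕ) (hp : p.Prime) : ∃ X0 : ℝ, 10 ≤ X0 ∧ ∀ x : ℝ, X0 ≤ x →
    x - ((p : ℝ) - 1) * (x / Real.log x) ≤
      ((p : ℝ) - 1) * ∑ n ∈ (Icc 1 ⌊x⌋₊).filter (fun n => n % p = 1), ArithmeticFunction.vonMangoldt n := by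
  classical
  haveI : NeZero p := ⟨hp.ne_zero⟩
  obtain ⟨X1, hX1, h⟩ := Pool.Agent.H43.UF.psiu 1 1 one_pos one_pos
  refine ⟨max X1 (Real.exp p), hX1.trans (le_max_left _ _), fun x hx => ?_⟩
  have hx1 : X1 ≤ x := (le_max_left _ _).trans hx
  have hx2 : Real.exp p ≤ x := (le_max_right _ _).trans hx
  have hx0 : 0 < x := by linarith
  have hpl : (p : ℝ) ≤ (Real.log x) ^ (1 : ℝ) := by
    rw [Real.rpow_one]
    exact (Real.le_log_iff_exp_le hx0).2 hx2
  have hb := fun χ : DirichletCharacter ℂ p => h x hx1 p hpl χ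
  have h1 : ‖∑ χ : DirichletCharacter ℂ p, (∑ n ∈ Icc 1 ⌊x⌋₊, ((ArithmeticFunction.vonMangoldt n : ℝ) : ℂ) * χ n -
      (if χ = 1 then (x : ℂ) else 0))‖ ≤ ((p : ℝ) - 1) * (x * (Real.log x) ^ (-1 : ℝ)) := by
    refine (norm_sum_le _ _).trans ?_
    refine (Finset.sum_le_sum fun χ _ => hb χ).trans ?_
    rw [Finset.sum_const, Finset.card_univ, nsmul_eq_mul]
    have h2 : Fintype.card (DirichletCharacter ℂ p) = p - 1 := by
      rw [← Nat.card_eq_fintype_card, DirichletCharacter.card_eq_totient_of_hasEnoughRootsOfUnity,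
        Nat.totient_prime hp]
    rw [h2, Nat.cast_sub hp.one_le, Nat.cast_one]
  have h2 : ∑ χ : DirichletCharacter ℂ p, (∑ n ∈ Icc 1 ⌊x⌋₊, ((ArithmeticFunction.vonMangoldt n : ℝ) : ℂ) * χ n -
      (if χ = 1 then (x : ℂ) else 0)) = ((((p : ℝ) - 1) *
        ∑ n ∈ (Icc 1 ⌊x⌋₊).filter (fun n => n % p = 1), ArithmeticFunction.vonMangoldt n - x : ℝ) : ℂ) := by
    rw [Finset.sum_sub_distrib, Finset.sum_ite_eq' Finset.univ (1 : DirichletCharacter ℂ p) (fun _ => (x : ℂ)),
      if_pos (Finset.mem_univ _), Finset.sum_comm]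
    push_cast
    congr 1
    rw [Finset.mul_sum, Finset.sum_filter]
    refine Finset.sum_congr rfl fun n _ => ?_
    rw [← Finset.mul_sum, DirichletCharacter.sum_characters_eq, Nat.totient_prime hp]
    have h3 : ((n : ZMod p) = 1) ↔ n % p = 1 := by
      have h4 : (1 : ZMod p) = ((1 : ℕ) : ZMod p) := by simp
      rw [h4, ZMod.natCast_eq_natCast_iff, Nat.ModEq, Nat.mod_eq_of_lt hp.one_lt]
    by_cases h5 : n % p = 1
    · rw [if_pos (h3.2 h5), if_pos h5, Nat.cast_sub hp.one_le]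
      push_cast
      ring
    · rw [if_neg (fun h => h5 (h3.1 h)), if_neg h5, mul_zero]
  rw [h2, Complex.norm_real, Real.norm_eq_abs, Real.rpow_neg_one, ← div_eq_mul_inv] at h1
  have h3 := (abs_le.1 h1).1
  linarith

private theorem cnt_low (p : ℕ) (hp : p.Prime) : ∃ N0 : ℕ, 10 ≤ N0 ∧ ∀ n : ℕ, N0 ≤ n →
    1 / ((p : ℝ) - 1) * (n / Real.log n) - 33 * (n / Real.log n ^ 2) ≤ ∑ l ∈ range (n + 1), ind p l := by
  obtain ⟨X0, hX0, h⟩ := psi1 p hp
  have hp2 : (2 : ℝ) ≤ p := by exact_mod_cast hp.two_le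
  have hp1 : (0 : ℝ) < (p : ℝ) - 1 := by linarith
  refine ⟨max ⌈X0⌉₊ 10, le_max_right _ _, fun n hn => ?_⟩
  have hn1 : X0 ≤ n := (Nat.le_ceil X0).trans (by exact_mod_cast (le_max_left _ _).trans hn)
  have hn10 : (10 : ℝ) ≤ n := by exact_mod_cast (le_max_right _ _).trans hn
  have h1 := h n hn1
  rw [Nat.floor_natCast] at h1
  have hL : 0 < Real.log n := Real.log_pos (by linarith)
  have hn0 : (0 : ℝ) < n := by linarith
  -- split into primes and the rest
  have h2 : ∑ m ∈ (Icc 1 n).filter (fun m => m % p = 1), ArithmeticFunction.vonMangoldt m ≤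
      Real.log n * (∑ l ∈ range (n + 1), ind p l) + 2 * √n * Real.log n := by
    have e1 := Finset.sum_filter_add_sum_filter_not ((Icc 1 n).filter (fun m => m % p = 1)) (fun m => m.Prime)
      (fun m => ArithmeticFunction.vonMangoldt m)
    rw [← e1]
    refine add_le_add ?_ ?_
    · have e2 : ∑ l ∈ range (n + 1), ind p l =
          ((((Icc 1 n).filter (fun m => m % p = 1)).filter (fun m => m.Prime)).card : ℝ) := by
        unfold ind
        rw [Finset.sum_boole]
        congr 2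
        ext l
        simp only [mem_filter, mem_range, mem_Icc]
        constructor
        · rintro ⟨a, b, c⟩
          exact ⟨⟨⟨b.one_le, by omega⟩, c⟩, b⟩
        · rintro ⟨⟨⟨a, b⟩, c⟩, d⟩
          exact ⟨by omega, d, c⟩
      rw [e2, mul_comm, ← nsmul_eq_mul]
      refine Finset.sum_le_card_nsmul _ _ _ fun m hm => ?_
      simp only [mem_filter, mem_Icc] at hm
      rw [ArithmeticFunction.vonMangoldt_apply_prime hm.2]
      exact Real.log_le_log (by exact_mod_cast hm.2.pos) (by exact_mod_cast hm.1.1.2)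
    · have e3 := Chebyshev.abs_psi_sub_theta_le_sqrt_mul_log (x := (n : ℝ)) (by linarith)
      have e4 : Chebyshev.psi (n : ℝ) - Chebyshev.theta (n : ℝ) =
          ∑ m ∈ (Ioc 0 n).filter (fun m => ¬ m.Prime), ArithmeticFunction.vonMangoldt m := by
        have e5 := Finset.sum_filter_add_sum_filter_not (Ioc 0 n) (fun m => m.Prime)
          (fun m => ArithmeticFunction.vonMangoldt m)
        unfold Chebyshev.psi Chebyshev.theta
        rw [Nat.floor_natCast, ← e5]
        have e6 : ∑ m ∈ (Ioc 0 n).filter (fun m => m.Prime), ArithmeticFunction.vonMangoldt m =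
            ∑ m ∈ (Ioc 0 n).filter (fun m => m.Prime), Real.log m :=
          Finset.sum_congr rfl fun m hm => ArithmeticFunction.vonMangoldt_apply_prime (mem_filter.1 hm).2
        rw [e6]
        ring
      have e7 : ∑ m ∈ ((Icc 1 n).filter (fun m => m % p = 1)).filter (fun m => ¬ m.Prime),
          ArithmeticFunction.vonMangoldt m ≤
          ∑ m ∈ (Ioc 0 n).filter (fun m => ¬ m.Prime), ArithmeticFunction.vonMangoldt m := by
        refine Finset.sum_le_sum_of_subset_of_nonneg ?_ fun m _ _ => ArithmeticFunction.vonMangoldt_nonneg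
        intro m hm
        simp only [mem_filter, mem_Icc, mem_Ioc] at hm ⊢
        exact ⟨⟨by omega, hm.1.1.2⟩, hm.2⟩
      rw [← e4] at e7
      exact e7.trans ((le_abs_self _).trans e3)
  have h3 : Real.log n ^ 2 ≤ 16 * √(n : ℝ) := by
    have e1 : Real.log n ≤ 4 * (n : ℝ) ^ (1 / 4 : ℝ) := by
      have := Real.log_le_rpow_div hn0.le (by norm_num : (0 : ℝ) < 1 / 4)
      linarith
    have e2 : ((n : ℝ) ^ (1 / 4 : ℝ)) ^ 2 = √(n : ℝ) := by
      rw [← Real.rpow_natCast, ← Real.rpow_mul hn0.le, Real.sqrt_eq_rpow]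
      norm_num
    calc Real.log n ^ 2 ≤ (4 * (n : ℝ) ^ (1 / 4 : ℝ)) ^ 2 := pow_le_pow_left₀ hL.le e1 2
      _ = 16 * ((n : ℝ) ^ (1 / 4 : ℝ)) ^ 2 := by ring
      _ = _ := by rw [e2]
  have hs : 0 < √(n : ℝ) := Real.sqrt_pos.2 hn0
  have hss : √(n : ℝ) * √(n : ℝ) = n := Real.mul_self_sqrt hn0.le
  have h4 : 2 * √(n : ℝ) ≤ 32 * (n / Real.log n ^ 2) := by
    rw [← mul_div_assoc, le_div_iff₀ (by positivity)]
    calc 2 * √(n : ℝ) * Real.log n ^ 2 ≤ 2 * √(n : ℝ) * (16 * √(n : ℝ)) := by gcongr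
      _ = 32 * (√(n : ℝ) * √(n : ℝ)) := by ring
      _ = 32 * n := by rw [hss]
  -- divide
  obtain ⟨S, hS⟩ : ∃ S : ℝ, S = ∑ l ∈ range (n + 1), ind p l := ⟨_, rfl⟩
  rw [← hS] at h2 ⊢
  have h5 : (n : ℝ) - ((p : ℝ) - 1) * (n / Real.log n) ≤
      ((p : ℝ) - 1) * (Real.log n * S + 2 * √n * Real.log n) :=
    h1.trans (mul_le_mul_of_nonneg_left h2 hp1.le)
  have h6 : 1 / ((p : ℝ) - 1) * (n / Real.log n) - n / Real.log n ^ 2 ≤ S + 2 * √n := by
    have e1 : 1 / ((p : ℝ) - 1) * (n / Real.log n) - n / Real.log n ^ 2 =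
        ((n : ℝ) - ((p : ℝ) - 1) * (n / Real.log n)) / (((p : ℝ) - 1) * Real.log n) := by
      field_simp
    rw [e1, div_le_iff₀ (by positivity)]
    calc _ ≤ _ := h5
      _ = _ := by ring
  linarith

private theorem key (p : ℕ) (c K : ℝ) (hc : 0 ≤ c) (hK : 0 ≤ K) (N0 : ℕ) (h2 : 10 ≤ N0)
    (h : ∀ n : ℕ, N0 ≤ n → c * (n / Real.log n) - K * (n / Real.log n ^ 2) ≤ ∑ l ∈ range (n + 1), ind p l) (n : ℕ)
    (hn : N0 ≤ n) :
    (∑ l ∈ range n, ind p l) / n + c * (Real.log (Real.log (n + 1)) - Real.log (Real.log (N0 + 1))) -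
      K * (1 / Real.log (N0 - 1) - 1 / Real.log (n - 1)) ≤ ∑ l ∈ range n, ind p l / l := by
  induction n, hn using Nat.le_induction with
  | base =>
    rw [sub_self, mul_zero, add_zero, sub_self, mul_zero, sub_zero, Finset.sum_div]
    apply Finset.sum_le_sum
    intro l hl
    have hl' := Finset.mem_range.1 hl
    rcases Nat.eq_zero_or_pos l with rfl | hl0
    · simp [ind, Nat.not_prime_zero]
    · apply div_le_div_of_nonneg_left (ind_nonneg p l) (by exact_mod_cast hl0)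
      exact_mod_cast hl'.le
  | succ n hn ih =>
    have hn2 : (10 : ℝ) ≤ n := by exact_mod_cast h2.trans hn
    have hlog : 0 < Real.log n := Real.log_pos (by linarith)
    have hlog1 : 0 < Real.log ((n : ℝ) + 1) := Real.log_pos (by linarith)
    have h3 := h n hn
    rw [Finset.sum_range_succ (fun l => ind p l / l)]
    have e1 : (∑ l ∈ range (n + 1), ind p l) / ((n + 1 : ℕ) : ℝ) =
        (∑ l ∈ range n, ind p l) / n + ind p n / n - (∑ l ∈ range (n + 1), ind p l) / (n * (n + 1)) := by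
      rw [Finset.sum_range_succ]
      push_cast
      field_simp
      ring
    have h4 : c * (1 / (((n : ℝ) + 1) * Real.log n)) - K * (1 / ((n : ℝ) * Real.log n ^ 2)) ≤
        (∑ l ∈ range (n + 1), ind p l) / (n * (n + 1)) := by
      have h5 : c * (1 / (((n : ℝ) + 1) * Real.log n)) - K * (1 / (((n : ℝ) + 1) * Real.log n ^ 2)) =
          (c * (n / Real.log n) - K * (n / Real.log n ^ 2)) / (n * (n + 1)) := by
        field_simp
      have h6 : 1 / (((n : ℝ) + 1) * Real.log n ^ 2) ≤ 1 / ((n : ℝ) * Real.log n ^ 2) :=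
        one_div_le_one_div_of_le (by positivity) (mul_le_mul_of_nonneg_right (by linarith) (by positivity))
      have h7 := mul_le_mul_of_nonneg_left h6 hK
      have h8 := div_le_div_of_nonneg_right h3 (by positivity : (0 : ℝ) ≤ n * (n + 1))
      linarith
    have h6 := loglog_step ((n : ℝ) + 1) (by linarith)
    have h7 : 1 / (((n : ℝ) + 1) * Real.log ((n : ℝ) + 1)) ≤ 1 / (((n : ℝ) + 1) * Real.log n) := by
      apply one_div_le_one_div_of_le (by positivity)
      apply mul_le_mul_of_nonneg_left _ (by linarith)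
      exact Real.log_le_log (by linarith) (by linarith)
    have h8 := mul_le_mul_of_nonneg_left (h6.trans h7) hc
    have h9 := mul_le_mul_of_nonneg_left (inv_step (n : ℝ) (by linarith)) hK
    rw [e1]
    push_cast
    have e3 : (n : ℝ) + 1 - 1 = n := by ring
    rw [e3]
    linarith

theorem mp (p : ℕ) (hp : p.Prime) : ∃ C : ℝ, ∀ y : ℝ, 3 ≤ y →
    Real.log (Real.log y) - C ≤
      ∑ l ∈ (Icc 1 ⌊y⌋₊).filter (fun l => l.Prime ∧ l % p = 1), ((p : ℝ) - 1) / l := by
  obtain ⟨N0, hN0, h⟩ := cnt_low p hp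
  have hp2 : (2 : ℝ) ≤ p := by exact_mod_cast hp.two_le
  have hp1 : (0 : ℝ) < (p : ℝ) - 1 := by linarith
  have hk := key p (1 / ((p : ℝ) - 1)) 33 (by positivity) (by norm_num) N0 hN0 h
  have hN3 : (10 : ℝ) ≤ (N0 : ℝ) := by exact_mod_cast hN0
  have hLN : 0 < Real.log ((N0 : ℝ) - 1) := Real.log_pos (by linarith)
  have hlog3 : 1 ≤ Real.log 3 := by
    rw [Real.le_log_iff_exp_le (by norm_num)]
    exact Real.exp_one_lt_three.le
  have hL : 1 ≤ Real.log ((N0 : ℝ) + 1) := hlog3.trans (Real.log_le_log (by norm_num) (by linarith))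
  have hLL : 0 ≤ Real.log (Real.log ((N0 : ℝ) + 1)) := Real.log_nonneg hL
  refine ⟨Real.log (Real.log ((N0 : ℝ) + 1)) + ((p : ℝ) - 1) * (33 * (1 / Real.log ((N0 : ℝ) - 1))), fun y hy => ?_⟩
  have hC2 : 0 ≤ ((p : ℝ) - 1) * (33 * (1 / Real.log ((N0 : ℝ) - 1))) := by positivity
  have hyL : 1 ≤ Real.log y := hlog3.trans (Real.log_le_log (by norm_num) hy)
  have hsum0 : 0 ≤ ∑ l ∈ (Icc 1 ⌊y⌋₊).filter (fun l => l.Prime ∧ l % p = 1), ((p : ℝ) - 1) / l :=
    Finset.sum_nonneg fun l _ => by positivity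
  by_cases hy0 : N0 ≤ ⌊y⌋₊ + 1
  · have h1 := hk (⌊y⌋₊ + 1) hy0
    have e1 : ∑ l ∈ (Icc 1 ⌊y⌋₊).filter (fun l => l.Prime ∧ l % p = 1), ((p : ℝ) - 1) / l =
        ((p : ℝ) - 1) * ∑ l ∈ range (⌊y⌋₊ + 1), ind p l / l := by
      rw [Finset.mul_sum, Finset.sum_filter]
      have e2 : range (⌊y⌋₊ + 1) = insert 0 (Icc 1 ⌊y⌋₊) := by
        ext l
        simp only [mem_range, mem_insert, mem_Icc]
        omega
      rw [e2, Finset.sum_insert (by simp)]
      have e3 : ((p : ℝ) - 1) * (ind p 0 / ((0 : ℕ) : ℝ)) = 0 := by simp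
      rw [e3, zero_add]
      refine Finset.sum_congr rfl fun l _ => ?_
      unfold ind
      split_ifs
      · rw [mul_one_div]
      · simp
    rw [e1]
    have h2 : 0 ≤ (∑ l ∈ range (⌊y⌋₊ + 1), ind p l) / ((⌊y⌋₊ + 1 : ℕ) : ℝ) :=
      div_nonneg (Finset.sum_nonneg fun l _ => ind_nonneg p l) (Nat.cast_nonneg _)
    have hyf : y ≤ ((⌊y⌋₊ + 1 : ℕ) : ℝ) := by
      push_cast
      exact (Nat.lt_floor_add_one y).le
    have h3 : Real.log (Real.log y) ≤ Real.log (Real.log (((⌊y⌋₊ + 1 : ℕ) : ℝ) + 1)) := by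
      apply Real.log_le_log (by linarith)
      exact Real.log_le_log (by linarith) (by linarith)
    have h4 : 0 ≤ 1 / Real.log (((⌊y⌋₊ + 1 : ℕ) : ℝ) - 1) := by
      have : 0 ≤ Real.log (((⌊y⌋₊ + 1 : ℕ) : ℝ) - 1) := by
        apply Real.log_nonneg
        have h5 : 10 ≤ ⌊y⌋₊ + 1 := hN0.trans hy0
        have h6 : (10 : ℝ) ≤ ((⌊y⌋₊ + 1 : ℕ) : ℝ) := by exact_mod_cast h5
        linarith
      positivity
    obtain ⟨S, hS⟩ : ∃ S : ℝ, S = ∑ l ∈ range (⌊y⌋₊ + 1), ind p l / l := ⟨_, rfl⟩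
    obtain ⟨b, hb⟩ : ∃ b : ℝ, b = 1 / Real.log (((⌊y⌋₊ + 1 : ℕ) : ℝ) - 1) := ⟨_, rfl⟩
    obtain ⟨u, hu⟩ : ∃ u : ℝ, u = Real.log (Real.log (((⌊y⌋₊ + 1 : ℕ) : ℝ) + 1)) := ⟨_, rfl⟩
    rw [← hS, ← hb, ← hu] at h1
    rw [← hS]
    rw [← hb] at h4
    rw [← hu] at h3
    have h5 : 1 / ((p : ℝ) - 1) * (u - Real.log (Real.log ((N0 : ℝ) + 1))) -
        33 * (1 / Real.log ((N0 : ℝ) - 1)) ≤ S := by linarith
    have h6 := mul_le_mul_of_nonneg_left h5 hp1.le
    have e7 : ((p : ℝ) - 1) * (1 / ((p : ℝ) - 1) * (u - Real.log (Real.log ((N0 : ℝ) + 1))) -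
        33 * (1 / Real.log ((N0 : ℝ) - 1))) = (u - Real.log (Real.log ((N0 : ℝ) + 1))) -
        ((p : ℝ) - 1) * (33 * (1 / Real.log ((N0 : ℝ) - 1))) := by
      field_simp
    rw [e7] at h6
    linarith
  · push Not at hy0
    have h3 : Real.log (Real.log y) ≤ Real.log (Real.log ((N0 : ℝ) + 1)) := by
      apply Real.log_le_log (by linarith)
      apply Real.log_le_log (by linarith)
      have h4 : y ≤ ((⌊y⌋₊ + 1 : ℕ) : ℝ) := by
        push_cast
        exact (Nat.lt_floor_add_one y).le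
      have h5 : ((⌊y⌋₊ + 1 : ℕ) : ℝ) ≤ N0 := by exact_mod_cast hy0.le
      linarith
    linarith

end Pool.Agent.H24.FU
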