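import Pool.Agent.H24.FU.Jl
import Pool.Agent.H75.AP.MertensB

/-!
# [H24 FU SUA] the tops of the windows, the sieve sum of a good prime, Mertens
-/

namespace Pool.Agent.H24.FU

open Finset Filter Pool.Agent.H75.AP

/-- the tops of the windows -/
noncomputable def yy (z i : ℕ) : ℝ := (z : ℝ) ^ ((1 / 4 : ℝ) * (1 / 2) ^ i)

theorem yy_one_le (z i : ℕ) (hz : 1 ≤ z) : 1 ≤ yy z i := by
  unfold yy
  exact Real.one_le_rpow (by exact_mod_cast hz) (by positivity)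

theorem yy_succ (z i : ℕ) (hz : 1 ≤ z) : yy z (i + 1) = (yy z i) ^ (1 / 2 : ℝ) := by
  unfold yy
  rw [← Real.rpow_mul (by positivity)]
  congr 1
  rw [pow_succ]
  ring

theorem log_yy (z i : ℕ) (hz : 1 ≤ z) : Real.log (yy z i) = (1 / 4) * (1 / 2) ^ i * Real.log z := by
  unfold yy
  rw [Real.log_rpow (by exact_mod_cast hz)]

theorem yy_anti (z : ℕ) (hz : 1 ≤ z) {i j : ℕ} (h : i ≤ j) : yy z j ≤ yy z i := by
  unfold yy
  refine Real.rpow_le_rpow_of_exponent_le (by exact_mod_cast hz) ?_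
  have : ((1 : ℝ) / 2) ^ j ≤ (1 / 2) ^ i := pow_le_pow_of_le_one (by norm_num) (by norm_num) h
  linarith

theorem yy_prod (z I : ℕ) (hz : 1 ≤ z) : (∏ i ∈ range I, yy z i) ^ 2 ≤ z := by
  have hz' : (1 : ℝ) ≤ z := by exact_mod_cast hz
  have h1 : ∏ i ∈ range I, yy z i = (z : ℝ) ^ (∑ i ∈ range I, (1 / 4 : ℝ) * (1 / 2) ^ i) := by
    rw [Real.rpow_sum_of_pos (by linarith)]
    rfl
  have h2 : ∑ i ∈ range I, (1 / 4 : ℝ) * (1 / 2) ^ i ≤ 1 / 2 := by
    rw [← Finset.mul_sum]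
    have h3 : ∑ i ∈ range I, ((1 : ℝ) / 2) ^ i ≤ 2 := by
      rw [geom_sum_eq (by norm_num)]
      have : (0 : ℝ) < (1 / 2) ^ I := by positivity
      rw [show ((1 : ℝ) / 2 - 1) = -(1 / 2) by norm_num, div_neg, ← neg_div, div_le_iff₀ (by norm_num)]
      linarith
    linarith
  rw [h1, ← Real.rpow_natCast, ← Real.rpow_mul (by linarith)]
  calc (z : ℝ) ^ ((∑ i ∈ range I, (1 / 4 : ℝ) * (1 / 2) ^ i) * ((2 : ℕ) : ℝ)) ≤ (z : ℝ) ^ (1 : ℝ) := by
        refine Real.rpow_le_rpow_of_exponent_le hz' ?_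
        push_cast
        linarith
    _ = z := Real.rpow_one _

/-- the sieve sum of a prime with `I` good windows -/
theorem JJ_good (p z I : ℕ) (hp : p.Prime) (hz : 1 ≤ z) (c : ℝ) (hc : 0 ≤ c)
    (h : ∀ i < I, c ≤ VV p (yy z i)) : Real.log z / 4 * (1 + c / 2) ^ I ≤ JJ p z := by
  have hz' : (1 : ℝ) ≤ z := by exact_mod_cast hz
  have hy1 := fun i => yy_one_le z i hz
  have hfl : ∀ i, ((⌊yy z i⌋₊ : ℕ) : ℝ) ≤ yy z i := fun i => Nat.floor_le (by linarith [hy1 i])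
  refine le_trans ?_ (jl p z I hp hz (fun i => (Ioc ⌊(yy z i) ^ (1 / 2 : ℝ)⌋₊ ⌊yy z i⌋₊).filter
    (fun l => l.Prime ∧ l % p = 1)) (fun i => ⌊yy z i⌋₊) ?_ ?_ ?_ ?_)
  · apply mul_le_mul_of_nonneg_left _ (by have := Real.log_nonneg hz'; positivity)
    have e1 : (1 + c / 2) ^ I = ∏ _i ∈ range I, (1 + c / 2) := by
      rw [Finset.prod_const, Finset.card_range]
    rw [e1]
    refine Finset.prod_le_prod (fun i _ => by positivity) fun i hi => ?_
    have := h i (Finset.mem_range.1 hi)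
    unfold VV at this
    linarith
  · intro i _
    exact Nat.le_floor (by exact_mod_cast hy1 i)
  · have h1 : ((∏ i ∈ range I, ⌊yy z i⌋₊ : ℕ) : ℝ) ≤ ∏ i ∈ range I, yy z i := by
      push_cast
      exact Finset.prod_le_prod (fun i _ => by positivity) fun i _ => hfl i
    have h2 : (((∏ i ∈ range I, ⌊yy z i⌋₊ : ℕ) : ℝ)) ^ 2 ≤ z :=
      (pow_le_pow_left₀ (by positivity) h1 2).trans (yy_prod z I hz)
    exact_mod_cast h2
  · intro i _ l hl
    rw [Finset.mem_filter, Finset.mem_Ioc] at hl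
    exact ⟨hl.2.1, hl.2.2, hl.1.2⟩
  · have key : ∀ i j, i < j → Disjoint ((Ioc ⌊(yy z i) ^ (1 / 2 : ℝ)⌋₊ ⌊yy z i⌋₊).filter
        (fun l => l.Prime ∧ l % p = 1)) ((Ioc ⌊(yy z j) ^ (1 / 2 : ℝ)⌋₊ ⌊yy z j⌋₊).filter
        (fun l => l.Prime ∧ l % p = 1)) := by
      intro i j hij
      rw [Finset.disjoint_left]
      intro l hl hl'
      rw [Finset.mem_filter, Finset.mem_Ioc] at hl hl'
      have h1 : ⌊yy z j⌋₊ ≤ ⌊(yy z i) ^ (1 / 2 : ℝ)⌋₊ := by
        rw [← yy_succ z i hz]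
        exact Nat.floor_le_floor (yy_anti z hz hij)
      omega
    intro i _ j _ hij
    rcases lt_or_gt_of_ne hij with h1 | h1
    · exact key i j h1
    · exact (key j i h1).symm

theorem me (R : ℝ) (hR : 1 < R) : ∃ C : ℝ, 0 < C ∧ ∀ u v : ℝ, 1 ≤ u → v ≤ u ^ R →
    ∑ p ∈ PI u v, 1 / (p : ℝ) ≤ C := by
  obtain ⟨u0, hu0, h⟩ := mertens_ratio R 1 hR one_pos
  have hlR : 0 < Real.log R := Real.log_pos hR
  refine ⟨Real.log R + 1 + (⌊u0 ^ R⌋₊ + 1), by positivity, fun u v hu hv => ?_⟩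
  rcases le_or_gt u0 u with h1 | h1
  · have := h u v h1 hv
    have h2 : (0 : ℝ) ≤ (⌊u0 ^ R⌋₊ : ℝ) := by positivity
    linarith
  · have hv' : v ≤ u0 ^ R := hv.trans (Real.rpow_le_rpow (by linarith) h1.le (by linarith))
    have h2 : ∑ p ∈ PI u v, 1 / (p : ℝ) ≤ ∑ p ∈ PI u v, 1 := by
      refine Finset.sum_le_sum fun p hp => ?_
      unfold PI at hp
      rw [Finset.mem_filter] at hp
      have h3 : (1 : ℝ) ≤ p := by exact_mod_cast hp.2.1.one_le
      rw [div_le_one (by linarith)]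
      exact h3
    have h4 : (PI u v).card ≤ ⌊u0 ^ R⌋₊ + 1 := by
      unfold PI
      refine (Finset.card_filter_le _ _).trans ?_
      rw [Finset.card_range]
      exact Nat.succ_le_succ (Nat.floor_le_floor hv')
    rw [Finset.sum_const, nsmul_eq_mul, mul_one] at h2
    have h5 : ((PI u v).card : ℝ) ≤ (⌊u0 ^ R⌋₊ : ℝ) + 1 := by exact_mod_cast h4
    linarith

end Pool.Agent.H24.FU
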