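import Pool.Agent.H24.FU.WiB

/-!
# [H24 FU WI] windows: for almost all `p` the primes `= 1 mod p` of `(√y, y]` are numerous

Proof.  `Pool.Agent.H21.MT.bv 3` gives `J` and, for large `X`, `E ≥ 0` with `∑_(q ≤ X^(1/20)) E q ≤
X L^J/L^3`, `L = log X`, and `|∑_(l ∈ Wp X, p ∣ l - 1) vp J X l - MM J X/(p-1)| ≤ E p` for the primes
`p ≤ X^(1/20)` (`a = 1`); `mm_lower` (same folder): `MM J X ≥ X L^J/20`.  Use it at the scales `X = e^j`,
`j ∈ scales y` (so `y^(1/40) ≤ X^(1/20)`, and `X` is large if `y` is).  `p ≤ y^(1/40)` is bad at the scale `X` if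
`E p > MM/(2(p-1))`; then `1/p ≤ 2 E p/MM`, so `∑_(p bad at X) 1/p ≤ 2 (X L^J/L^3)/(X L^J/20) = 40/L^3 ≤
40/((3/5) log y)^3`; there are at most `log y + 1` scales, so `∑ 1/p` over the `p` bad at some scale is
`≤ C/(log y)^2`.  The `p` bad at no scale satisfy `VV p y ≥ c` (`good_VV J`).
-/

namespace Pool.Agent.H24.FU

open Finset Filter Pool.Agent.H21.MT

/-- the primes bad at one scale -/
private theorem wi_step (J : ℕ) (X : ℝ) (E : ℕ → ℝ) (hX : 1 < X) (hE : ∀ q, 0 ≤ E q)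
    (hbv : ∀ q : ℕ, 1 ≤ q → (q : ℝ) ≤ X ^ (1 / 20 : ℝ) → ∀ a : ℤ, IsCoprime a (q : ℤ) →
      |∑ p ∈ (Wp X).filter (fun p : ℕ => (q : ℤ) ∣ (p : ℤ) - a), vp J X p -
        MM J X / q.totient| ≤ E q)
    (hsum : ∑ q ∈ Icc 1 ⌊X ^ (1 / 20 : ℝ)⌋₊, E q ≤ X * (Real.log X) ^ J / (Real.log X) ^ 3)
    (hmm : X * (Real.log X) ^ J / 20 ≤ MM J X) (n : ℕ) (hn : (n : ℝ) ≤ X ^ (1 / 20 : ℝ)) :
    ∑ p ∈ (Icc 1 n).filter (fun p : ℕ => p.Prime ∧
      ∑ l ∈ (Wp X).filter (fun l => l % p = 1), vp J X l < MM J X / (2 * ((p : ℝ) - 1))),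
        (1 : ℝ) / p ≤ 40 / (Real.log X) ^ 3 := by
  have hL : 0 < Real.log X := Real.log_pos hX
  have hX0 : 0 < X := by linarith
  have hM : 0 < MM J X := lt_of_lt_of_le (by positivity) hmm
  have h1 : ∀ p ∈ (Icc 1 n).filter (fun p : ℕ => p.Prime ∧
      ∑ l ∈ (Wp X).filter (fun l => l % p = 1), vp J X l < MM J X / (2 * ((p : ℝ) - 1))),
      (1 : ℝ) / p ≤ 2 / MM J X * E p := by
    intro p hp
    rw [mem_filter, mem_Icc] at hp
    obtain ⟨⟨hp1, hpn⟩, hpr, hlt⟩ := hp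
    have hpX : (p : ℝ) ≤ X ^ (1 / 20 : ℝ) := le_trans (by exact_mod_cast hpn) hn
    have h2 := hbv p hp1 hpX 1 isCoprime_one_left
    have h3 : (Wp X).filter (fun l : ℕ => (p : ℤ) ∣ (l : ℤ) - 1) =
        (Wp X).filter (fun l => l % p = 1) := by
      refine filter_congr fun l _ => ?_
      have h31 := (Nat.modEq_iff_dvd (a := 1) (b := l) (n := p))
      rw [Nat.cast_one] at h31
      rw [← h31, Nat.ModEq, Nat.mod_eq_of_lt hpr.one_lt, eq_comm]
    rw [h3, Nat.totient_prime hpr] at h2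
    have hp2 : (2 : ℝ) ≤ p := by exact_mod_cast hpr.two_le
    have h4 : ((p - 1 : ℕ) : ℝ) = (p : ℝ) - 1 := by
      rw [Nat.cast_sub hp1, Nat.cast_one]
    rw [h4] at h2
    have h5 := (abs_le.1 h2).1
    have hp3 : 0 < (p : ℝ) - 1 := by linarith
    have h6 : MM J X / (2 * ((p : ℝ) - 1)) = MM J X / ((p : ℝ) - 1) / 2 := by
      rw [div_div, mul_comm]
    rw [h6] at hlt
    have h8 : MM J X / (p : ℝ) ≤ MM J X / ((p : ℝ) - 1) :=
      div_le_div_of_nonneg_left hM.le hp3 (by linarith)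
    have h9 : MM J X / (p : ℝ) ≤ 2 * E p := by linarith
    have hp0 : (0 : ℝ) < p := by linarith
    calc (1 : ℝ) / p = (MM J X / p) / MM J X := by field_simp
      _ ≤ 2 * E p / MM J X := div_le_div_of_nonneg_right h9 hM.le
      _ = 2 / MM J X * E p := by ring
  refine (sum_le_sum h1).trans ?_
  have h10 : ∑ p ∈ (Icc 1 n).filter (fun p : ℕ => p.Prime ∧
      ∑ l ∈ (Wp X).filter (fun l => l % p = 1), vp J X l < MM J X / (2 * ((p : ℝ) - 1))),
      2 / MM J X * E p ≤ ∑ q ∈ Icc 1 ⌊X ^ (1 / 20 : ℝ)⌋₊, 2 / MM J X * E q := by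
    refine sum_le_sum_of_subset_of_nonneg (fun p hp => ?_) fun q _ _ =>
      mul_nonneg (by positivity) (hE q)
    rw [mem_filter, mem_Icc] at hp
    rw [mem_Icc]
    exact ⟨hp.1.1, Nat.le_floor (le_trans (by exact_mod_cast hp.1.2) hn)⟩
  refine h10.trans ?_
  rw [← mul_sum]
  calc 2 / MM J X * ∑ q ∈ Icc 1 ⌊X ^ (1 / 20 : ℝ)⌋₊, E q
      ≤ 2 / (X * (Real.log X) ^ J / 20) * (X * (Real.log X) ^ J / (Real.log X) ^ 3) := by
        refine mul_le_mul (div_le_div_of_nonneg_left (by norm_num) (by positivity) hmm) hsum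
          (sum_nonneg fun q _ => hE q) (by positivity)
    _ = 40 / (Real.log X) ^ 3 := by
        have : Real.log X ^ J ≠ 0 := by positivity
        field_simp
        norm_num

theorem wi : ∃ c : ℝ, 0 < c ∧ c ≤ 1 ∧ ∃ C : ℝ, 0 < C ∧ ∃ y0 : ℝ, 2 ≤ y0 ∧ ∀ y : ℝ, y0 ≤ y →
    ∑ p ∈ (Icc 1 ⌊y ^ (1 / 40 : ℝ)⌋₊).filter (fun p => p.Prime ∧ VV p y < c), (1 : ℝ) / p ≤
      C / (Real.log y) ^ 2 := by
  classical
  obtain ⟨J, hbv⟩ := bv 3
  obtain ⟨c, hc0, hc1, hgood⟩ := good_VV J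
  obtain ⟨X0, hX0⟩ := eventually_atTop.1 (hbv.and (mm_lower J))
  have hy : ∀ᶠ y : ℝ in atTop, max X0 2 ≤ y ^ (3 / 5 : ℝ) :=
    (tendsto_rpow_atTop (by norm_num : (0 : ℝ) < 3 / 5)).eventually_ge_atTop _
  obtain ⟨y0, hy0⟩ := eventually_atTop.1 (hgood.and (hy.and (eventually_ge_atTop (Real.exp 1))))
  refine ⟨c, hc0, hc1, 400, by norm_num, max y0 3, le_trans (by norm_num) (le_max_right _ _),
    fun y hyy => ?_⟩
  obtain ⟨hg, hpow, hexp⟩ := hy0 y (le_trans (le_max_left _ _) hyy)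
  have hy3 : 3 ≤ y := le_trans (le_max_right _ _) hyy
  have hypos : 0 < y := by linarith
  have hl1 : 1 ≤ Real.log y := by
    rw [Real.le_log_iff_exp_le hypos]; exact hexp
  have hsc : ∀ j ∈ scales y, y ^ (3 / 5 : ℝ) ≤ Real.exp j := by
    intro j hj
    rw [scales, mem_filter] at hj
    exact hj.2.1
  have hcard : ((scales y).card : ℝ) ≤ 2 * Real.log y := by
    have h1 : (scales y).card ≤ ⌊Real.log y⌋₊ + 1 := by
      rw [scales]
      refine (card_filter_le _ _).trans ?_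
      rw [card_range]
    have h2 : (⌊Real.log y⌋₊ : ℝ) ≤ Real.log y := Nat.floor_le (by linarith)
    have h3 : ((scales y).card : ℝ) ≤ (⌊Real.log y⌋₊ : ℝ) + 1 := by exact_mod_cast h1
    linarith
  set n := ⌊y ^ (1 / 40 : ℝ)⌋₊ with hn
  have hny : (n : ℝ) ≤ y ^ (1 / 40 : ℝ) := Nat.floor_le (by positivity)
  -- the primes bad at the scale `j`
  set P : ℕ → ℕ → Prop := fun j p => p.Prime ∧
    ∑ l ∈ (Wp (Real.exp j)).filter (fun l => l % p = 1), vp J (Real.exp j) l <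
      MM J (Real.exp j) / (2 * ((p : ℝ) - 1)) with hP
  have hstep : ∀ j ∈ scales y, ∑ p ∈ (Icc 1 n).filter (P j), (1 : ℝ) / p ≤
      40 / (3 / 5 * Real.log y) ^ 3 := by
    intro j hj
    have h1 := hsc j hj
    have h2 : X0 ≤ Real.exp j := le_trans (le_trans (le_max_left _ _) hpow) h1
    have h3 : 2 ≤ Real.exp j := le_trans (le_trans (le_max_right _ _) hpow) h1
    obtain ⟨⟨E, hE0, hE1, -, hE3⟩, hmm⟩ := hX0 (Real.exp j) h2
    have h4 : (n : ℝ) ≤ (Real.exp j) ^ (1 / 20 : ℝ) := by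
      refine hny.trans ?_
      calc y ^ (1 / 40 : ℝ) ≤ y ^ (3 / 5 * (1 / 20) : ℝ) :=
            Real.rpow_le_rpow_of_exponent_le (by linarith) (by norm_num)
        _ = (y ^ (3 / 5 : ℝ)) ^ (1 / 20 : ℝ) := by rw [← Real.rpow_mul hypos.le]
        _ ≤ (Real.exp j) ^ (1 / 20 : ℝ) := by gcongr
    have h5 := wi_step J (Real.exp j) E (by linarith) hE0 hE1 hE3 hmm n h4
    refine h5.trans ?_
    have h6 : 3 / 5 * Real.log y ≤ Real.log (Real.exp j) := by
      rw [← Real.log_rpow hypos]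
      exact Real.log_le_log (by positivity) h1
    have h7 : 0 < 3 / 5 * Real.log y := by linarith
    exact div_le_div_of_nonneg_left (by norm_num) (by positivity) (pow_le_pow_left₀ h7.le h6 3)
  have hmain : ∑ p ∈ (Icc 1 n).filter (fun p => p.Prime ∧ VV p y < c), (1 : ℝ) / p ≤
      ∑ j ∈ scales y, ∑ p ∈ (Icc 1 n).filter (P j), (1 : ℝ) / p := by
    have h1 : ∀ p ∈ (Icc 1 n).filter (fun p => p.Prime ∧ VV p y < c),
        (1 : ℝ) / p ≤ ∑ j ∈ scales y, if P j p then (1 : ℝ) / p else 0 := by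
      intro p hp
      rw [mem_filter, mem_Icc] at hp
      obtain ⟨⟨hp1, hpn⟩, hpr, hV⟩ := hp
      have h2 : ∃ j ∈ scales y, P j p := by
        by_contra hcon
        push Not at hcon
        refine absurd (hg p hpr (le_trans (by exact_mod_cast hpn) hny) fun j hj => ?_) (not_le.2 hV)
        by_contra h3
        exact hcon j hj ⟨hpr, not_le.1 h3⟩
      obtain ⟨j, hj, hPj⟩ := h2
      have h4 := single_le_sum (f := fun j => if P j p then (1 : ℝ) / p else 0)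
        (fun i _ => by split_ifs <;> positivity) hj
      simp only [if_pos hPj] at h4
      exact h4
    refine (sum_le_sum h1).trans ?_
    rw [sum_comm]
    refine sum_le_sum fun j _ => ?_
    rw [sum_filter (s := Icc 1 n) (p := P j)]
    refine sum_le_sum_of_subset_of_nonneg (filter_subset _ _) fun p _ _ => ?_
    split_ifs <;> positivity
  refine hmain.trans ((sum_le_sum hstep).trans ?_)
  rw [sum_const, nsmul_eq_mul]
  have hl0 : 0 < Real.log y := by linarith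
  calc ((scales y).card : ℝ) * (40 / (3 / 5 * Real.log y) ^ 3)
      ≤ 2 * Real.log y * (40 / (3 / 5 * Real.log y) ^ 3) :=
        mul_le_mul_of_nonneg_right hcard (by positivity)
    _ = (10000 / 27) / Real.log y ^ 2 := by
        field_simp
        norm_num
    _ ≤ 400 / Real.log y ^ 2 := by
        gcongr
        norm_num

end Pool.Agent.H24.FU
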