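import Pool.Agent.H24.FU.SuA
import Pool.Agent.H24.FU.Ex
import Pool.Agent.H24.FU.Wi

/-!
# [H24 FU SUB] the sum over the `p` below `z^(1/160)`
-/

namespace Pool.Agent.H24.FU

open Finset Filter Pool.Agent.H75.AP

private theorem sbu (s : Finset ℕ) (t : ℕ → Finset ℕ) (f : ℕ → ℝ)
    (hf : ∀ i ∈ s, ∀ n ∈ t i, 0 ≤ f n) : ∑ n ∈ s.biUnion t, f n ≤ ∑ i ∈ s, ∑ n ∈ t i, f n := by
  classical
  induction s using Finset.induction_on with
  | empty => simp
  | insert a s ha ih =>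
    rw [Finset.biUnion_insert, Finset.sum_insert ha]
    have h1 := Finset.sum_union_inter (s₁ := t a) (s₂ := s.biUnion t) (f := f)
    have h2 : 0 ≤ ∑ n ∈ t a ∩ s.biUnion t, f n :=
      Finset.sum_nonneg fun n hn => hf a (Finset.mem_insert_self _ _) n (Finset.mem_inter.1 hn).1
    have h3 := ih fun i hi => hf i (Finset.mem_insert_of_mem hi)
    linarith

private theorem geo (N : ℕ) (M : ℝ) :
    ∑ i ∈ (range N).filter (fun i => (2 : ℝ) ^ i ≤ M), (4 : ℝ) ^ i ≤ 2 * M ^ 2 := by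
  classical
  rcases ((range N).filter (fun i => (2 : ℝ) ^ i ≤ M)).eq_empty_or_nonempty with h | h
  · rw [h, Finset.sum_empty]
    positivity
  · obtain ⟨k, hk⟩ : ∃ k, k = ((range N).filter (fun i => (2 : ℝ) ^ i ≤ M)).max' h := ⟨_, rfl⟩
    have hkm := Finset.max'_mem _ h
    rw [← hk, Finset.mem_filter] at hkm
    have hsub : (range N).filter (fun i => (2 : ℝ) ^ i ≤ M) ⊆ range (k + 1) := by
      intro i hi
      have := Finset.le_max' _ i hi
      rw [← hk] at this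
      exact Finset.mem_range.2 (by omega)
    have h1 : ∑ i ∈ (range N).filter (fun i => (2 : ℝ) ^ i ≤ M), (4 : ℝ) ^ i ≤
        ∑ i ∈ range (k + 1), (4 : ℝ) ^ i :=
      Finset.sum_le_sum_of_subset_of_nonneg hsub fun i _ _ => by positivity
    rw [geom_sum_eq (by norm_num)] at h1
    have h2 : (4 : ℝ) ^ k = ((2 : ℝ) ^ k) ^ 2 := by
      rw [← pow_mul, mul_comm k 2, pow_mul]
      norm_num
    have h3 : ((2 : ℝ) ^ k) ^ 2 ≤ M ^ 2 := pow_le_pow_left₀ (by positivity) hkm.2 2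
    have h4 : ((4 : ℝ) ^ (k + 1) - 1) / (4 - 1) ≤ 2 * 4 ^ k := by
      rw [div_le_iff₀ (by norm_num), pow_succ]
      have : (0 : ℝ) < 4 ^ k := by positivity
      linarith
    nlinarith [sq_nonneg M]

private theorem yy_small (z i : ℕ) (hz : 1 ≤ z) (hi : z ≤ i) : (yy z i) ^ (1 / 40 : ℝ) < 2 := by
  have hz' : (1 : ℝ) ≤ z := by exact_mod_cast hz
  have h1 : Real.log (yy z i) ≤ 1 / 4 := by
    rw [log_yy z i hz]
    have h2 : Real.log z ≤ 2 ^ i := by
      have h3 : (z : ℝ) ≤ 2 ^ z := by exact_mod_cast (Nat.lt_two_pow_self (n := z)).le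
      have h4 : (2 : ℝ) ^ z ≤ 2 ^ i := pow_le_pow_right₀ (by norm_num) hi
      have h5 := Real.log_le_self (by linarith : (0 : ℝ) ≤ z)
      linarith
    have h6 : (0 : ℝ) < (1 / 2) ^ i := by positivity
    have h7 : ((1 : ℝ) / 2) ^ i * 2 ^ i = 1 := by
      rw [← mul_pow]
      norm_num
    have h8 : ((1 : ℝ) / 2) ^ i * Real.log z ≤ 1 := by
      calc ((1 : ℝ) / 2) ^ i * Real.log z ≤ ((1 : ℝ) / 2) ^ i * 2 ^ i :=
            mul_le_mul_of_nonneg_left h2 h6.le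
        _ = 1 := h7
    linarith
  have hy := yy_one_le z i hz
  have h2 : Real.log ((yy z i) ^ (1 / 40 : ℝ)) < Real.log 2 := by
    rw [Real.log_rpow (by linarith)]
    have := Real.log_two_gt_d9
    linarith
  exact (Real.log_lt_log_iff (Real.rpow_pos_of_pos (by linarith) _) (by norm_num)).1 h2

/-- the bad primes of all windows -/
private theorem badsum (c C1 y0 : ℝ) (hC1 : 0 < C1) (hy0 : 2 ≤ y0)
    (hw : ∀ y : ℝ, y0 ≤ y →
      ∑ p ∈ (Icc 1 ⌊y ^ (1 / 40 : ℝ)⌋₊).filter (fun p => p.Prime ∧ VV p y < c), (1 : ℝ) / p ≤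
        C1 / (Real.log y) ^ 2) (P0 z N : ℕ) (hP3 : 3 ≤ P0) (hP0 : y0 ≤ P0) (hz : 2 ≤ z) (B : Finset ℕ)
    (hB : ∀ p ∈ B, p.Prime ∧ P0 ≤ p ∧ ∃ i < N, (p : ℝ) ≤ (yy z i) ^ (1 / 40 : ℝ) ∧
      VV p (yy z i) < c) :
    ∑ p ∈ B, (1 : ℝ) / p ≤ C1 / (Real.log P0) ^ 2 := by
  classical
  have hz1 : 1 ≤ z := by omega
  have hz' : (2 : ℝ) ≤ z := by exact_mod_cast hz
  have hP' : (3 : ℝ) ≤ P0 := by exact_mod_cast hP3
  have hlz : 0 < Real.log z := Real.log_pos (by linarith)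
  have hlP : 0 < Real.log P0 := Real.log_pos (by linarith)
  obtain ⟨M, hM⟩ : ∃ M, M = Real.log z / (160 * Real.log P0) := ⟨_, rfl⟩
  have hiff : ∀ i, (P0 : ℝ) ≤ (yy z i) ^ (1 / 40 : ℝ) → (2 : ℝ) ^ i ≤ M := by
    intro i hi
    have hy := yy_one_le z i hz1
    have h1 := Real.log_le_log (by linarith) hi
    rw [Real.log_rpow (by linarith), log_yy z i hz1] at h1
    rw [hM, le_div_iff₀ (by positivity)]
    have h2 : (2 : ℝ) ^ i * (1 / 2) ^ i = 1 := by
      rw [← mul_pow]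
      norm_num
    have h3 : (0 : ℝ) < 2 ^ i := by positivity
    calc (2 : ℝ) ^ i * (160 * Real.log P0) ≤
        (2 : ℝ) ^ i * (160 * (1 / 40 * (1 / 4 * (1 / 2) ^ i * Real.log z))) := by gcongr
      _ = ((2 : ℝ) ^ i * (1 / 2) ^ i) * Real.log z := by ring
      _ = Real.log z := by rw [h2, one_mul]
  have hsub : B ⊆ ((range N).filter (fun i => (2 : ℝ) ^ i ≤ M ∧ y0 ≤ yy z i)).biUnion
      (fun i => (Icc 1 ⌊(yy z i) ^ (1 / 40 : ℝ)⌋₊).filter (fun p => p.Prime ∧ VV p (yy z i) < c)) := by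
    intro p hp
    obtain ⟨h1, h2, i, hi, h3, h4⟩ := hB p hp
    have hy := yy_one_le z i hz1
    rw [Finset.mem_biUnion]
    have h5 : (P0 : ℝ) ≤ (yy z i) ^ (1 / 40 : ℝ) := le_trans (by exact_mod_cast h2) h3
    refine ⟨i, ?_, ?_⟩
    · rw [Finset.mem_filter, Finset.mem_range]
      refine ⟨hi, hiff i h5, ?_⟩
      have h6 : (yy z i) ^ (1 / 40 : ℝ) ≤ (yy z i) ^ (1 : ℝ) :=
        Real.rpow_le_rpow_of_exponent_le hy (by norm_num)
      rw [Real.rpow_one] at h6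
      linarith
    · rw [Finset.mem_filter, Finset.mem_Icc]
      exact ⟨⟨h1.one_le, Nat.le_floor h3⟩, h1, h4⟩
  calc ∑ p ∈ B, (1 : ℝ) / p ≤ ∑ p ∈ (((range N).filter (fun i => (2 : ℝ) ^ i ≤ M ∧ y0 ≤ yy z i)).biUnion
      (fun i => (Icc 1 ⌊(yy z i) ^ (1 / 40 : ℝ)⌋₊).filter (fun p => p.Prime ∧ VV p (yy z i) < c))),
        (1 : ℝ) / p := Finset.sum_le_sum_of_subset_of_nonneg hsub fun p _ _ => by positivity
    _ ≤ ∑ i ∈ (range N).filter (fun i => (2 : ℝ) ^ i ≤ M ∧ y0 ≤ yy z i),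
        ∑ p ∈ (Icc 1 ⌊(yy z i) ^ (1 / 40 : ℝ)⌋₊).filter (fun p => p.Prime ∧ VV p (yy z i) < c),
          (1 : ℝ) / p := by
        exact sbu _ _ _ fun i _ n _ => by positivity
    _ ≤ ∑ i ∈ (range N).filter (fun i => (2 : ℝ) ^ i ≤ M ∧ y0 ≤ yy z i),
        16 * C1 / (Real.log z) ^ 2 * 4 ^ i := by
        refine Finset.sum_le_sum fun i hi => ?_
        rw [Finset.mem_filter] at hi
        refine (hw _ hi.2.2).trans (le_of_eq ?_)
        rw [log_yy z i hz1]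
        have h3 : (0 : ℝ) < 2 ^ i := by positivity
        have e4 : (4 : ℝ) ^ i = 2 ^ i * 2 ^ i := by
          rw [← mul_pow]
          norm_num
        rw [e4, one_div_pow]
        field_simp
        ring
    _ ≤ ∑ i ∈ (range N).filter (fun i => (2 : ℝ) ^ i ≤ M), 16 * C1 / (Real.log z) ^ 2 * 4 ^ i := by
        refine Finset.sum_le_sum_of_subset_of_nonneg ?_ fun i _ _ => by positivity
        intro i hi
        rw [Finset.mem_filter] at hi ⊢
        exact ⟨hi.1, hi.2.1⟩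
    _ ≤ 16 * C1 / (Real.log z) ^ 2 * (2 * M ^ 2) := by
        rw [← Finset.mul_sum]
        exact mul_le_mul_of_nonneg_left (geo N M) (by positivity)
    _ = C1 * (32 / 160 ^ 2) / (Real.log P0) ^ 2 := by
        rw [hM]
        field_simp
        ring
    _ ≤ C1 / (Real.log P0) ^ 2 := by
        apply div_le_div_of_nonneg_right _ (by positivity)
        nlinarith

theorem r1 : ∃ K : ℝ, 0 < K ∧ ∃ θ : ℝ, 0 < θ ∧ θ < 1 ∧ ∃ P1 : ℕ, 3 ≤ P1 ∧ ∀ P0 : ℕ, P1 ≤ P0 →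
    ∀ I0 x z : ℕ, 2 ≤ z →
    ∑ p ∈ (Icc P0 ⌊(yy z I0) ^ (1 / 40 : ℝ)⌋₊).filter Nat.Prime, ((FTDens.exc p x).card : ℝ) ≤
      2 * (z : ℝ) ^ 6 + K * (θ ^ I0 + 1 / (Real.log P0) ^ 2) * (x / Real.log z) := by
  classical
  obtain ⟨c, hc, hc1, C1, hC1, y0, hy0, hw⟩ := wi
  obtain ⟨CM, hCM, hme⟩ := me 2 (by norm_num)
  obtain ⟨θ, hθ⟩ : ∃ θ, θ = 1 / (1 + c / 2) := ⟨_, rfl⟩
  have hθ0 : 0 < θ := by rw [hθ]; positivity
  have hθ1 : θ < 1 := by
    rw [hθ, div_lt_one (by linarith)]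
    linarith
  have hθm : θ * (1 + c / 2) = 1 := by
    rw [hθ]
    field_simp
  refine ⟨4 * (CM / (1 - θ) + C1), by have : 0 < 1 - θ := by linarith
                                      positivity, θ, hθ0, hθ1, ⌈y0⌉₊ + 3, by omega, ?_⟩
  intro P0 hP0 I0 x z hz
  have hz1 : 1 ≤ z := by omega
  have hz' : (2 : ℝ) ≤ z := by exact_mod_cast hz
  have hlz : 0 < Real.log z := Real.log_pos (by linarith)
  have hP3 : 3 ≤ P0 := by omega
  have hPy : y0 ≤ P0 := by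
    have h1 := Nat.le_ceil y0
    have h2 : ((⌈y0⌉₊ : ℕ) : ℝ) ≤ P0 := by exact_mod_cast (by omega : ⌈y0⌉₊ ≤ P0)
    linarith
  have hy1 := fun i => yy_one_le z i hz1
  have hy40 : ∀ i, 1 ≤ (yy z i) ^ (1 / 40 : ℝ) := fun i => Real.one_le_rpow (hy1 i) (by norm_num)
  have hanti : ∀ {i j : ℕ}, i ≤ j → (yy z j) ^ (1 / 40 : ℝ) ≤ (yy z i) ^ (1 / 40 : ℝ) := by
    intro i j h
    exact Real.rpow_le_rpow (by linarith [hy1 j]) (yy_anti z hz1 h) (by norm_num)
  obtain ⟨S, hS⟩ : ∃ S, S = (Icc P0 ⌊(yy z I0) ^ (1 / 40 : ℝ)⌋₊).filter Nat.Prime := ⟨_, rfl⟩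
  rw [← hS]
  have hSm : ∀ p ∈ S, p.Prime ∧ P0 ≤ p ∧ (p : ℝ) ≤ (yy z I0) ^ (1 / 40 : ℝ) := by
    intro p hp
    rw [hS, Finset.mem_filter, Finset.mem_Icc] at hp
    exact ⟨hp.2, hp.1.1, (Nat.le_floor_iff (by linarith [hy40 I0])).1 hp.1.2⟩
  have hSz : ∀ p ∈ S, p ≤ z := by
    intro p hp
    have h1 := (hSm p hp).2.2
    have h2 : (yy z I0) ^ (1 / 40 : ℝ) ≤ z := by
      unfold yy
      rw [← Real.rpow_mul (by linarith)]
      calc (z : ℝ) ^ ((1 / 4 : ℝ) * (1 / 2) ^ I0 * (1 / 40)) ≤ (z : ℝ) ^ (1 : ℝ) := by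
            refine Real.rpow_le_rpow_of_exponent_le (by linarith) ?_
            have : ((1 : ℝ) / 2) ^ I0 ≤ 1 := pow_le_one₀ (by norm_num) (by norm_num)
            linarith
        _ = z := Real.rpow_one _
    exact_mod_cast h1.trans h2
  have hexc : ∀ p ∈ S, ((FTDens.exc p x).card : ℝ) ≤ 2 * (z : ℝ) ^ 5 + (x : ℝ) * ((1 / p) / JJ p z) := by
    intro p hp
    have h1 := ex p x z (hSm p hp).1 (by have := (hSm p hp).2.1; omega) hz1
    have h2 : (p : ℝ) ≤ z := by exact_mod_cast hSz p hp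
    have h3 : (z : ℝ) ≤ (z : ℝ) ^ 5 := le_self_pow₀ (by linarith) (by norm_num)
    have h4 : (p : ℝ) * (z : ℝ) ^ 4 ≤ (z : ℝ) ^ 5 := by
      calc (p : ℝ) * (z : ℝ) ^ 4 ≤ z * (z : ℝ) ^ 4 := by gcongr
        _ = (z : ℝ) ^ 5 := by ring
    have e1 : (x : ℝ) * ((1 / p) / JJ p z) = ((x : ℝ) / p) / JJ p z := by ring
    rw [e1]
    linarith
  have hScard : (S.card : ℝ) ≤ z := by
    have h1 : S ⊆ Icc 1 z := by
      intro p hp
      exact Finset.mem_Icc.2 ⟨(hSm p hp).1.one_le, hSz p hp⟩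
    have h2 := Finset.card_le_card h1
    rw [Nat.card_Icc, Nat.add_sub_cancel] at h2
    exact_mod_cast h2
  -- the sieve sums
  have hJ0 : ∀ p ∈ S, (1 / (p : ℝ)) / JJ p z ≤ (4 / Real.log z) * (1 / p) := by
    intro p hp
    have h1 := JJ_good p z 0 (hSm p hp).1 hz1 c hc.le (fun i hi => by omega)
    rw [pow_zero, mul_one] at h1
    have h2 : 0 < Real.log z / 4 := by positivity
    have hp0 : (0 : ℝ) < p := by exact_mod_cast (hSm p hp).1.pos
    calc (1 / (p : ℝ)) / JJ p z ≤ (1 / (p : ℝ)) / (Real.log z / 4) := by gcongr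
      _ = _ := by
        field_simp
  obtain ⟨N, hN⟩ : ∃ N, N = I0 + z := ⟨_, rfl⟩
  obtain ⟨Bd, hBd⟩ : ∃ Bd, Bd = S.filter (fun p : ℕ => ∃ i < N, (p : ℝ) ≤ (yy z i) ^ (1 / 40 : ℝ) ∧
      VV p (yy z i) < c) := ⟨_, rfl⟩
  obtain ⟨G, hG⟩ : ∃ G : ℕ → Finset ℕ, G = fun k => S.filter (fun p : ℕ =>
      p ∈ PI ((yy z (k + 1)) ^ (1 / 40 : ℝ)) ((yy z k) ^ (1 / 40 : ℝ)) ∧
      ∀ i < k + 1, c ≤ VV p (yy z i)) := ⟨_, rfl⟩
  have hcov : S ⊆ Bd ∪ (Ico I0 N).biUnion G := by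
    intro p hp
    obtain ⟨hpp, hpP, hpy⟩ := hSm p hp
    rw [Finset.mem_union]
    by_cases hb : p ∈ Bd
    · exact Or.inl hb
    · right
      have hb' : ∀ i < N, (p : ℝ) ≤ (yy z i) ^ (1 / 40 : ℝ) → c ≤ VV p (yy z i) := by
        intro i hi h1
        by_contra h2
        push Not at h2
        apply hb
        rw [hBd, Finset.mem_filter]
        exact ⟨hp, i, hi, h1, h2⟩
      have hex : ∃ k, (yy z (k + 1)) ^ (1 / 40 : ℝ) < p := by
        refine ⟨N, (yy_small z (N + 1) hz1 (by omega)).trans_le ?_⟩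
        exact_mod_cast hpp.two_le
      have hk1 := Nat.find_spec hex
      have hk2 := fun m (hm : m < Nat.find hex) => Nat.find_min hex hm
      set k := Nat.find hex with hk
      have hkI : I0 ≤ k := by
        by_contra hcon
        push Not at hcon
        have := hanti (show k + 1 ≤ I0 by omega)
        linarith
      have hpk : (p : ℝ) ≤ (yy z k) ^ (1 / 40 : ℝ) := by
        rcases Nat.eq_zero_or_pos k with h0 | h0
        · have : I0 = 0 := by omega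
          rw [h0]
          rw [this] at hpy
          exact hpy
        · have := hk2 (k - 1) (by omega)
          push Not at this
          rwa [Nat.sub_add_cancel h0] at this
      have hkN : k < N := by
        by_contra hcon
        push Not at hcon
        have h1 := yy_small z k hz1 (by omega)
        have h2 : (2 : ℝ) ≤ p := by exact_mod_cast hpp.two_le
        linarith
      rw [Finset.mem_biUnion]
      refine ⟨k, Finset.mem_Ico.2 ⟨hkI, hkN⟩, ?_⟩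
      rw [hG]
      simp only [Finset.mem_filter]
      refine ⟨hp, ?_, fun i hi => hb' i (by omega) (hpk.trans (hanti (by omega)))⟩
      unfold PI
      rw [Finset.mem_filter, Finset.mem_range]
      exact ⟨Nat.lt_succ_of_le (Nat.le_floor hpk), hpp, hk1⟩
  have hbad : ∑ p ∈ Bd, (1 / (p : ℝ)) / JJ p z ≤ (4 / Real.log z) * (C1 / (Real.log P0) ^ 2) := by
    calc ∑ p ∈ Bd, (1 / (p : ℝ)) / JJ p z ≤ ∑ p ∈ Bd, (4 / Real.log z) * (1 / p) := by
          refine Finset.sum_le_sum fun p hp => hJ0 p ?_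
          rw [hBd, Finset.mem_filter] at hp
          exact hp.1
      _ = (4 / Real.log z) * ∑ p ∈ Bd, (1 : ℝ) / p := by rw [Finset.mul_sum]
      _ ≤ _ := by
          refine mul_le_mul_of_nonneg_left ?_ (by positivity)
          refine badsum c C1 y0 hC1 hy0 hw P0 z N hP3 hPy hz Bd ?_
          intro p hp
          rw [hBd, Finset.mem_filter] at hp
          exact ⟨(hSm p hp.1).1, (hSm p hp.1).2.1, hp.2⟩
  have hGk : ∀ k, ∑ p ∈ G k, (1 / (p : ℝ)) / JJ p z ≤ (4 / Real.log z) * CM * θ ^ k := by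
    intro k
    have h1 : ∀ p ∈ G k, (1 / (p : ℝ)) / JJ p z ≤ (4 / Real.log z) * θ ^ (k + 1) * (1 / p) := by
      intro p hp
      rw [hG] at hp
      simp only [Finset.mem_filter] at hp
      have h2 := JJ_good p z (k + 1) (hSm p hp.1).1 hz1 c hc.le hp.2.2
      have hp0 : (0 : ℝ) < p := by exact_mod_cast (hSm p hp.1).1.pos
      have h3 : 0 < Real.log z / 4 * (1 + c / 2) ^ (k + 1) := by positivity
      have h4 : θ ^ (k + 1) * (1 + c / 2) ^ (k + 1) = 1 := by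
        rw [← mul_pow, hθm, one_pow]
      calc (1 / (p : ℝ)) / JJ p z ≤ (1 / (p : ℝ)) / (Real.log z / 4 * (1 + c / 2) ^ (k + 1)) := by gcongr
        _ = (4 / Real.log z) * θ ^ (k + 1) * (1 / p) := by
          rw [div_eq_iff h3.ne']
          calc 1 / (p : ℝ) = (θ ^ (k + 1) * (1 + c / 2) ^ (k + 1)) * (1 / p) := by rw [h4, one_mul]
            _ = _ := by field_simp
    have h5 : ∑ p ∈ G k, 1 / (p : ℝ) ≤ CM := by
      refine le_trans ?_ (hme ((yy z (k + 1)) ^ (1 / 40 : ℝ)) ((yy z k) ^ (1 / 40 : ℝ)) (hy40 _) ?_)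
      · refine Finset.sum_le_sum_of_subset_of_nonneg ?_ fun p _ _ => by positivity
        intro p hp
        rw [hG] at hp
        simp only [Finset.mem_filter] at hp
        exact hp.2.1
      · have hk0 : 0 ≤ yy z k := by linarith [hy1 k]
        rw [yy_succ z k hz1, ← Real.rpow_mul hk0, ← Real.rpow_mul hk0]
        refine le_of_eq ?_
        congr 1
        norm_num
    calc ∑ p ∈ G k, (1 / (p : ℝ)) / JJ p z ≤ ∑ p ∈ G k, (4 / Real.log z) * θ ^ (k + 1) * (1 / p) :=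
          Finset.sum_le_sum h1
      _ = (4 / Real.log z) * θ ^ (k + 1) * ∑ p ∈ G k, 1 / (p : ℝ) := by rw [Finset.mul_sum]
      _ ≤ (4 / Real.log z) * θ ^ (k + 1) * CM := by gcongr
      _ ≤ (4 / Real.log z) * θ ^ k * CM := by
          have : θ ^ (k + 1) ≤ θ ^ k := pow_le_pow_of_le_one hθ0.le hθ1.le (by omega)
          gcongr
      _ = _ := by ring
  have hgeo : ∑ k ∈ Ico I0 N, θ ^ k ≤ θ ^ I0 / (1 - θ) := by
    have h1 : 0 < 1 - θ := by linarith
    rw [le_div_iff₀ h1]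
    have h2 : I0 ≤ N := by omega
    have h3 := geom_sum_Ico_mul_neg θ h2
    rw [h3]
    have : 0 < θ ^ N := by positivity
    linarith
  have hJpos : ∀ p ∈ S, 0 ≤ (1 / (p : ℝ)) / JJ p z := by
    intro p hp
    have h1 := JJ_good p z 0 (hSm p hp).1 hz1 c hc.le (fun i hi => by omega)
    rw [pow_zero, mul_one] at h1
    have h2 : 0 < Real.log z / 4 := by positivity
    have : 0 < JJ p z := by linarith
    positivity
  have hmain : ∑ p ∈ S, (1 / (p : ℝ)) / JJ p z ≤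
      (4 / Real.log z) * (C1 / (Real.log P0) ^ 2) + (4 / Real.log z) * CM * (θ ^ I0 / (1 - θ)) := by
    have hGS : ∀ k, G k ⊆ S := by
      intro k
      rw [hG]
      exact Finset.filter_subset _ _
    have hBS : Bd ⊆ S := by
      rw [hBd]
      exact Finset.filter_subset _ _
    calc ∑ p ∈ S, (1 / (p : ℝ)) / JJ p z ≤ ∑ p ∈ Bd ∪ (Ico I0 N).biUnion G, (1 / (p : ℝ)) / JJ p z := by
          refine Finset.sum_le_sum_of_subset_of_nonneg hcov fun p hp _ => hJpos p ?_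
          rcases Finset.mem_union.1 hp with h | h
          · exact hBS h
          · obtain ⟨k, _, hk⟩ := Finset.mem_biUnion.1 h
            exact hGS k hk
      _ ≤ ∑ p ∈ Bd, (1 / (p : ℝ)) / JJ p z + ∑ p ∈ (Ico I0 N).biUnion G, (1 / (p : ℝ)) / JJ p z := by
          have := Finset.sum_union_inter (s₁ := Bd) (s₂ := (Ico I0 N).biUnion G)
            (f := fun p : ℕ => (1 / (p : ℝ)) / JJ p z)
          have h2 : 0 ≤ ∑ p ∈ Bd ∩ (Ico I0 N).biUnion G, (1 / (p : ℝ)) / JJ p z :=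
            Finset.sum_nonneg fun p hp => hJpos p (hBS (Finset.mem_inter.1 hp).1)
          linarith
      _ ≤ ∑ p ∈ Bd, (1 / (p : ℝ)) / JJ p z + ∑ k ∈ Ico I0 N, ∑ p ∈ G k, (1 / (p : ℝ)) / JJ p z := by
          gcongr
          exact sbu _ _ _ fun k _ p hp => hJpos p (hGS k hp)
      _ ≤ (4 / Real.log z) * (C1 / (Real.log P0) ^ 2) + ∑ k ∈ Ico I0 N, (4 / Real.log z) * CM * θ ^ k :=
          add_le_add hbad (Finset.sum_le_sum fun k _ => hGk k)
      _ ≤ _ := by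
          rw [← Finset.mul_sum]
          gcongr
  calc ∑ p ∈ S, ((FTDens.exc p x).card : ℝ) ≤ ∑ p ∈ S, (2 * (z : ℝ) ^ 5 + (x : ℝ) * ((1 / p) / JJ p z)) :=
        Finset.sum_le_sum hexc
    _ = S.card * (2 * (z : ℝ) ^ 5) + x * ∑ p ∈ S, (1 / (p : ℝ)) / JJ p z := by
        rw [Finset.sum_add_distrib, Finset.sum_const, nsmul_eq_mul, Finset.mul_sum]
    _ ≤ z * (2 * (z : ℝ) ^ 5) + x * ((4 / Real.log z) * (C1 / (Real.log P0) ^ 2) +
        (4 / Real.log z) * CM * (θ ^ I0 / (1 - θ))) := by gcongr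
    _ ≤ 2 * (z : ℝ) ^ 6 + 4 * (CM / (1 - θ) + C1) * (θ ^ I0 + 1 / (Real.log P0) ^ 2) *
        (x / Real.log z) := by
        have h1 : 0 < 1 - θ := by linarith
        have hP' : (3 : ℝ) ≤ P0 := by exact_mod_cast hP3
        have hlP : 0 < Real.log P0 := Real.log_pos (by linarith)
        have e1 : z * (2 * (z : ℝ) ^ 5) = 2 * (z : ℝ) ^ 6 := by ring
        have e2 : x * ((4 / Real.log z) * (C1 / (Real.log P0) ^ 2) +
            (4 / Real.log z) * CM * (θ ^ I0 / (1 - θ))) =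
            4 * (C1 * (1 / (Real.log P0) ^ 2) + CM / (1 - θ) * θ ^ I0) * (x / Real.log z) := by
          field_simp
        rw [e1, e2]
        have h2 : 0 ≤ CM / (1 - θ) * (1 / (Real.log P0) ^ 2) := by positivity
        have h3 : 0 ≤ C1 * θ ^ I0 := by positivity
        have h4 : C1 * (1 / (Real.log P0) ^ 2) + CM / (1 - θ) * θ ^ I0 ≤
            (CM / (1 - θ) + C1) * (θ ^ I0 + 1 / (Real.log P0) ^ 2) := by linarith
        have h5 : (0 : ℝ) ≤ x / Real.log z := by positivity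
        have h6 := mul_le_mul_of_nonneg_right h4 h5
        linarith

end Pool.Agent.H24.FU
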