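import Pool.Agent.H24.FU.Defs
import Pool.Agent.H3.WSieve

/-!
# [H24 FU SV] Selberg's sieve with a variable number of forbidden classes

Proof.  Copy `Pool/Agent/H3/WSieve.lean` (final theorem `Pool.Agent.H5.W.selberg_count`, 800 lines, uniform
`κ`), replacing `κ ^ (number of primes)` by `∏ l ∈ primes, κ l` (functions `κ : ℕ → ℕ`).  Everything about a
general `BoundingSieve` (`SS`, `ww`, `ww_abs`, `mainSum_ww`, ...) is already general there and can be cited.
Changes: `cnt_bound` (remainder `≤ ∏ κ l`), `sv` (`nu = prodPrimeFactors (fun l => κ l / l)`), `nu_apply`,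
`rem_bound`, `errSum_ww`: with `|ww d| ≤ 1/nu d = ∏ l/κ l` and `|rem| ≤ ∏_{l | [d1,d2]} κ l ≤ κ(d1) κ(d2)` the
error is `≤ ∑_{d1,d2 ≤ z} d1 d2 ≤ z^4`; the main term is `X/q / SS`, and `SS` (sum of `selbergTerms`,
`selbergTerms n = ∏_{l | n} nu l/(1 - nu l) = ∏ κ l/(l - κ l)`) is EXACTLY the sum below.
-/

namespace Pool.Agent.H24.FU

open Finset Pool.Agent.H5.W Pool.Agent.H3.WSieve

private theorem cnt_bound_v (A X : ℕ) (κ : ℕ → ℕ) (Ω : ℕ → Finset ℕ) (S : Finset ℕ) :
    ∀ q r : ℕ, 0 < q →
    (∀ l ∈ S, l.Prime ∧ ¬ l ∣ q) → (∀ l ∈ S, (Ω l).card = κ l ∧ ∀ a ∈ Ω l, a < l) →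
    |(cnt A X Ω S q r : ℝ) - (∏ l ∈ S, (κ l : ℝ)) / (∏ l ∈ S, (l : ℝ)) * ((X : ℝ) / q)|
      ≤ ∏ l ∈ S, (κ l : ℝ) := by
  induction S using Finset.induction_on with
  | empty =>
    intro q r hq _ _
    simpa using cnt_empty A X Ω q r hq
  | insert l S hl ih =>
    intro q r hq hp hΩ
    have hlp := (hp l (mem_insert_self _ _)).1
    have hlq := (hp l (mem_insert_self _ _)).2
    have hΩl := hΩ l (mem_insert_self _ _)
    have hcop : Nat.Coprime q l := ((Nat.Prime.coprime_iff_not_dvd hlp).mpr hlq).symm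
    rw [cnt_insert A X Ω S l q r hcop hΩl.2, Finset.prod_insert hl, Finset.prod_insert hl]
    have hl0 : (0 : ℝ) < l := by exact_mod_cast hlp.pos
    have hq0 : (0 : ℝ) < q := by exact_mod_cast hq
    have hP0 : (0 : ℝ) < ∏ l ∈ S, (l : ℝ) := by
      apply Finset.prod_pos
      intro i hi
      exact_mod_cast (hp i (mem_insert_of_mem hi)).1.pos
    have h1 : ((κ l : ℝ) * (∏ l ∈ S, (κ l : ℝ)) / (l * ∏ l ∈ S, (l : ℝ)) * ((X : ℝ) / q)) =
        ∑ a ∈ Ω l, ((∏ l ∈ S, (κ l : ℝ)) / (∏ l ∈ S, (l : ℝ)) *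
          ((X : ℝ) / ((q * l : ℕ) : ℝ))) := by
      rw [Finset.sum_const, hΩl.1, nsmul_eq_mul]
      push_cast
      field_simp
    rw [h1]
    push_cast
    rw [← Finset.sum_sub_distrib]
    refine (Finset.abs_sum_le_sum_abs _ _).trans ?_
    have h2 : ∀ a ∈ Ω l, |((cnt A X Ω S (q * l) (Nat.chineseRemainder hcop r a : ℕ) : ℕ) : ℝ) -
        (∏ l ∈ S, (κ l : ℝ)) / (∏ l ∈ S, (l : ℝ)) * ((X : ℝ) / ((q : ℝ) * l))| ≤
          ∏ l ∈ S, (κ l : ℝ) := by
      intro a _
      have := ih (q * l) (Nat.chineseRemainder hcop r a : ℕ) (Nat.mul_pos hq hlp.pos) ?_ ?_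
      · push_cast at this
        exact this
      · intro l' hl'
        have h3 := hp l' (mem_insert_of_mem hl')
        refine ⟨h3.1, ?_⟩
        intro h4
        rcases (Nat.Prime.dvd_mul h3.1).mp h4 with h5 | h5
        · exact h3.2 h5
        · have h6 : l' = l := (Nat.prime_dvd_prime_iff_eq h3.1 hlp).mp h5
          rw [h6] at hl'
          exact hl hl'
      · intro l' hl'
        exact hΩ l' (mem_insert_of_mem hl')
    refine (Finset.sum_le_sum h2).trans ?_
    rw [Finset.sum_const, hΩl.1, nsmul_eq_mul]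

section Sieve

variable (κ : ℕ → ℕ) (z E q r A X : ℕ) (Ω : ℕ → Finset ℕ)

/-- the sieve problem in the format of Mathlib -/
private noncomputable def svv (hκ : ∀ l ∈ goodPrimes z E, 1 ≤ κ l ∧ κ l < l) : BoundingSieve where
  support := (PP z E).divisors
  prodPrimes := PP z E
  prodPrimes_squarefree := PP_squarefree z E
  weights := fun n => (wts z E q r A X Ω n : ℝ)
  weights_nonneg := fun n => Nat.cast_nonneg _
  totalMass := (X : ℝ) / q
  nu := ArithmeticFunction.prodPrimeFactors (fun p => (κ p : ℝ) / p)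
  nu_mult := ArithmeticFunction.IsMultiplicative.prodPrimeFactors _
  nu_pos_of_prime := by
    intro p hp hpP
    rw [ArithmeticFunction.prodPrimeFactors_apply hp.ne_zero, Nat.Prime.primeFactors hp,
      Finset.prod_singleton]
    have h3 : p ∈ (PP z E).primeFactors :=
      Nat.mem_primeFactors.mpr ⟨hp, hpP, (PP_squarefree z E).ne_zero⟩
    rw [PP_primeFactors] at h3
    have h1 : (0 : ℝ) < κ p := by exact_mod_cast (hκ p h3).1
    have h2 : (0 : ℝ) < p := by exact_mod_cast hp.pos
    positivity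
  nu_lt_one_of_prime := by
    intro p hp hpP
    rw [ArithmeticFunction.prodPrimeFactors_apply hp.ne_zero, Nat.Prime.primeFactors hp,
      Finset.prod_singleton]
    have h2 : (0 : ℝ) < p := by exact_mod_cast hp.pos
    rw [div_lt_one h2]
    have h3 : p ∈ (PP z E).primeFactors :=
      Nat.mem_primeFactors.mpr ⟨hp, hpP, (PP_squarefree z E).ne_zero⟩
    rw [PP_primeFactors] at h3
    exact_mod_cast (hκ p h3).2

private theorem nu_apply_v (hκ : ∀ l ∈ goodPrimes z E, 1 ≤ κ l ∧ κ l < l) {d : ℕ}
    (hd : d ∣ PP z E) :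
    (svv κ z E q r A X Ω hκ).nu d = (∏ l ∈ d.primeFactors, (κ l : ℝ)) / d := by
  have hsq : Squarefree d := Squarefree.squarefree_of_dvd hd (PP_squarefree z E)
  show ArithmeticFunction.prodPrimeFactors (fun p => (κ p : ℝ) / p) d = _
  rw [ArithmeticFunction.prodPrimeFactors_apply hsq.ne_zero, Finset.prod_div_distrib]
  congr 1
  rw [← Nat.cast_prod, Nat.prod_primeFactors_of_squarefree hsq]

private theorem sub_good {d : ℕ} (hd : d ∣ PP z E) : d.primeFactors ⊆ goodPrimes z E := by
  rw [← PP_primeFactors]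
  exact Nat.primeFactors_mono hd (PP_squarefree z E).ne_zero

private theorem rem_bound_v (hκ : ∀ l ∈ goodPrimes z E, 1 ≤ κ l ∧ κ l < l) (hq : 0 < q)
    (hqE : ∀ l ∈ goodPrimes z E, ¬ l ∣ q)
    (hΩ : ∀ l ∈ goodPrimes z E, (Ω l).card = κ l)
    (hΩlt : ∀ l ∈ goodPrimes z E, ∀ a ∈ Ω l, a < l) {d : ℕ} (hd : d ∣ PP z E) :
    |(svv κ z E q r A X Ω hκ).rem d| ≤ ∏ l ∈ d.primeFactors, (κ l : ℝ) := by
  have hsq : Squarefree d := Squarefree.squarefree_of_dvd hd (PP_squarefree z E)
  have hsub : d.primeFactors ⊆ goodPrimes z E := sub_good z E hd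
  rw [BoundingSieve.rem, nu_apply_v κ z E q r A X Ω hκ hd]
  have h1 : (svv κ z E q r A X Ω hκ).multSum d = (cnt A X Ω d.primeFactors q r : ℝ) := by
    rw [← sum_wts z E q r A X Ω d hd, BoundingSieve.multSum]
    push_cast
    rfl
  rw [h1]
  have h2 := cnt_bound_v A X κ Ω d.primeFactors q r hq ?_ ?_
  · rw [← Nat.cast_prod (fun i => i), Nat.prod_primeFactors_of_squarefree hsq] at h2
    exact h2
  · intro l hl
    exact ⟨(Nat.mem_primeFactors.mp hl).1, hqE l (hsub hl)⟩
  · intro l hl
    exact ⟨hΩ l (hsub hl), hΩlt l (hsub hl)⟩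

end Sieve

section Selberg

private theorem errSum_ww_v (s : BoundingSieve) (z : ℕ) {κ : ℕ → ℕ}
    (hκ : ∀ l ∈ s.prodPrimes.primeFactors, 1 ≤ κ l) (hz : 1 ≤ z)
    (hν : ∀ d, d ∣ s.prodPrimes → s.nu d = (∏ l ∈ d.primeFactors, (κ l : ℝ)) / d)
    (hrem : ∀ d, d ∣ s.prodPrimes → |s.rem d| ≤ ∏ l ∈ d.primeFactors, (κ l : ℝ)) :
    s.errSum (BoundingSieve.lambdaSquared (ww s z)) ≤ (z : ℝ) ^ 4 := by
  have hP := @BoundingSieve.prodPrimes_ne_zero s
  have hκ1 : ∀ {d : ℕ}, d ∣ s.prodPrimes → ∀ l ∈ d.primeFactors, (1 : ℝ) ≤ κ l := by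
    intro d hd l hl
    exact_mod_cast hκ l (Nat.primeFactors_mono hd hP hl)
  have hpos : ∀ {d : ℕ}, d ∣ s.prodPrimes → (0 : ℝ) < ∏ l ∈ d.primeFactors, (κ l : ℝ) := by
    intro d hd
    exact Finset.prod_pos fun l hl => lt_of_lt_of_le one_pos (hκ1 hd l hl)
  unfold BoundingSieve.errSum BoundingSieve.lambdaSquared
  have hw : ∀ d, d ∣ s.prodPrimes →
      |ww s z d| * (∏ l ∈ d.primeFactors, (κ l : ℝ)) ≤ if d ≤ z then (d : ℝ) else 0 := by
    intro d hd
    split_ifs with h
    · have h1 := ww_abs s z hz hd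
      rw [hν d hd] at h1
      have hk : (0 : ℝ) < ∏ l ∈ d.primeFactors, (κ l : ℝ) := hpos hd
      have h2 : 1 / ((∏ l ∈ d.primeFactors, (κ l : ℝ)) / d) *
          (∏ l ∈ d.primeFactors, (κ l : ℝ)) = d := by
        have hd0 : (d : ℝ) ≠ 0 := by
          have := ne_zero_of_dvd_ne_zero hP hd
          exact_mod_cast this
        field_simp
      calc |ww s z d| * (∏ l ∈ d.primeFactors, (κ l : ℝ))
          ≤ 1 / ((∏ l ∈ d.primeFactors, (κ l : ℝ)) / d) * (∏ l ∈ d.primeFactors, (κ l : ℝ)) :=
            mul_le_mul_of_nonneg_right h1 hk.le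
        _ = d := h2
    · rw [ww_zero s z (by omega)]
      simp
  calc (∑ d ∈ s.prodPrimes.divisors, |∑ d1 ∈ d.divisors, ∑ d2 ∈ d.divisors,
        if d = Nat.lcm d1 d2 then ww s z d1 * ww s z d2 else 0| * |s.rem d|)
      ≤ ∑ d ∈ s.prodPrimes.divisors, ∑ d1 ∈ s.prodPrimes.divisors, ∑ d2 ∈ s.prodPrimes.divisors,
        if d = Nat.lcm d1 d2 then (if d1 ≤ z then (d1 : ℝ) else 0) *
          (if d2 ≤ z then (d2 : ℝ) else 0) else 0 := by
        apply Finset.sum_le_sum
        intro d hd
        have hd' := Nat.dvd_of_mem_divisors hd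
        have hsub : d.divisors ⊆ s.prodPrimes.divisors := Nat.divisors_subset_of_dvd hP hd'
        calc |∑ d1 ∈ d.divisors, ∑ d2 ∈ d.divisors,
              if d = Nat.lcm d1 d2 then ww s z d1 * ww s z d2 else 0| * |s.rem d|
            ≤ (∑ d1 ∈ d.divisors, ∑ d2 ∈ d.divisors,
              |if d = Nat.lcm d1 d2 then ww s z d1 * ww s z d2 else 0|) *
                (∏ l ∈ d.primeFactors, (κ l : ℝ)) := by
              apply mul_le_mul _ (hrem d hd') (abs_nonneg _)
                (Finset.sum_nonneg fun _ _ => Finset.sum_nonneg fun _ _ => abs_nonneg _)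
              refine (Finset.abs_sum_le_sum_abs _ _).trans ?_
              apply Finset.sum_le_sum
              intro d1 _
              exact Finset.abs_sum_le_sum_abs _ _
          _ = ∑ d1 ∈ d.divisors, ∑ d2 ∈ d.divisors,
              |if d = Nat.lcm d1 d2 then ww s z d1 * ww s z d2 else 0| *
                (∏ l ∈ d.primeFactors, (κ l : ℝ)) := by
              rw [Finset.sum_mul]
              apply Finset.sum_congr rfl
              intro d1 _
              rw [Finset.sum_mul]
          _ ≤ ∑ d1 ∈ d.divisors, ∑ d2 ∈ d.divisors,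
              (if d = Nat.lcm d1 d2 then (if d1 ≤ z then (d1 : ℝ) else 0) *
                (if d2 ≤ z then (d2 : ℝ) else 0) else 0) := by
              apply Finset.sum_le_sum
              intro d1 hd1
              apply Finset.sum_le_sum
              intro d2 hd2
              have hd1' := (Nat.dvd_of_mem_divisors hd1).trans hd'
              have hd2' := (Nat.dvd_of_mem_divisors hd2).trans hd'
              split_ifs with h h1 h2 h2
              · have hcard : (∏ l ∈ d.primeFactors, (κ l : ℝ)) ≤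
                    (∏ l ∈ d1.primeFactors, (κ l : ℝ)) * (∏ l ∈ d2.primeFactors, (κ l : ℝ)) := by
                  have h3 : d.primeFactors ⊆ d1.primeFactors ∪ d2.primeFactors := by
                    intro p hp
                    rw [h] at hp
                    have hpp := (Nat.mem_primeFactors.mp hp)
                    rw [mem_union, Nat.mem_primeFactors, Nat.mem_primeFactors]
                    have hd10 := ne_zero_of_dvd_ne_zero hP hd1'
                    have hd20 := ne_zero_of_dvd_ne_zero hP hd2'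
                    have h4 : p ∣ d1 * d2 := hpp.2.1.trans (Nat.lcm_dvd_mul d1 d2)
                    rcases (Nat.Prime.dvd_mul hpp.1).mp h4 with h5 | h5
                    · exact Or.inl ⟨hpp.1, h5, hd10⟩
                    · exact Or.inr ⟨hpp.1, h5, hd20⟩
                  rw [← Finset.prod_union_inter]
                  have h6 : (∏ l ∈ d.primeFactors, (κ l : ℝ)) ≤
                      ∏ l ∈ d1.primeFactors ∪ d2.primeFactors, (κ l : ℝ) := by
                    rw [← Finset.prod_sdiff h3]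
                    refine le_mul_of_one_le_left (Finset.prod_nonneg fun _ _ => Nat.cast_nonneg _)
                      (Finset.one_le_prod ?_)
                    intro l hl
                    rcases mem_union.mp (mem_sdiff.mp hl).1 with hl | hl
                    · exact hκ1 hd1' l hl
                    · exact hκ1 hd2' l hl
                  have h7 : (1 : ℝ) ≤ ∏ l ∈ d1.primeFactors ∩ d2.primeFactors, (κ l : ℝ) := by
                    apply Finset.one_le_prod
                    intro l hl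
                    exact hκ1 hd1' l (mem_inter.mp hl).1
                  have h8 : (0 : ℝ) ≤ ∏ l ∈ d1.primeFactors ∪ d2.primeFactors, (κ l : ℝ) :=
                    Finset.prod_nonneg fun _ _ => Nat.cast_nonneg _
                  nlinarith
                have e1 := hw d1 hd1'
                have e2 := hw d2 hd2'
                rw [if_pos h1] at e1
                rw [if_pos h2] at e2
                rw [abs_mul]
                calc |ww s z d1| * |ww s z d2| * (∏ l ∈ d.primeFactors, (κ l : ℝ))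
                    ≤ |ww s z d1| * |ww s z d2| *
                      ((∏ l ∈ d1.primeFactors, (κ l : ℝ)) * (∏ l ∈ d2.primeFactors, (κ l : ℝ))) :=
                      mul_le_mul_of_nonneg_left hcard ((mul_nonneg (abs_nonneg _) (abs_nonneg _)))
                  _ = (|ww s z d1| * (∏ l ∈ d1.primeFactors, (κ l : ℝ))) *
                      (|ww s z d2| * (∏ l ∈ d2.primeFactors, (κ l : ℝ))) := by ring
                  _ ≤ d1 * d2 := by
                      apply mul_le_mul e1 e2 (by positivity) (by positivity)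
              · rw [ww_zero s z (show z < d2 by omega)]
                simp
              · rw [ww_zero s z (show z < d1 by omega)]
                simp
              · rw [ww_zero s z (show z < d1 by omega)]
                simp
              · simp
          _ ≤ ∑ d1 ∈ s.prodPrimes.divisors, ∑ d2 ∈ s.prodPrimes.divisors,
              (if d = Nat.lcm d1 d2 then (if d1 ≤ z then (d1 : ℝ) else 0) *
                (if d2 ≤ z then (d2 : ℝ) else 0) else 0) := by
              refine (Finset.sum_le_sum fun d1 _ =>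
                Finset.sum_le_sum_of_subset_of_nonneg hsub ?_).trans
                (Finset.sum_le_sum_of_subset_of_nonneg hsub ?_)
              · intro d2 _ _
                positivity
              · intro d1 _ _
                apply Finset.sum_nonneg
                intro d2 _
                positivity
    _ = ∑ d1 ∈ s.prodPrimes.divisors, ∑ d2 ∈ s.prodPrimes.divisors,
          (if d1 ≤ z then (d1 : ℝ) else 0) * (if d2 ≤ z then (d2 : ℝ) else 0) := by
        rw [Finset.sum_comm]
        apply Finset.sum_congr rfl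
        intro d1 hd1
        rw [Finset.sum_comm]
        apply Finset.sum_congr rfl
        intro d2 hd2
        have hmem : Nat.lcm d1 d2 ∈ s.prodPrimes.divisors :=
          Nat.mem_divisors.mpr ⟨Nat.lcm_dvd (Nat.dvd_of_mem_divisors hd1)
            (Nat.dvd_of_mem_divisors hd2), hP⟩
        rw [Finset.sum_ite_eq' _ _ _, if_pos hmem]
    _ = (∑ d ∈ s.prodPrimes.divisors, if d ≤ z then (d : ℝ) else 0) ^ 2 := by
        rw [sq, Finset.sum_mul_sum]
    _ ≤ ((z : ℝ) ^ 2) ^ 2 := by
        apply pow_le_pow_left₀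
        · apply Finset.sum_nonneg
          intro d _
          positivity
        · rw [← Finset.sum_filter]
          calc (∑ d ∈ (s.prodPrimes.divisors).filter (fun d => d ≤ z), (d : ℝ))
              ≤ ∑ d ∈ Finset.Icc 1 z, (d : ℝ) := by
                apply Finset.sum_le_sum_of_subset_of_nonneg
                · intro d hd
                  rw [mem_filter] at hd
                  rw [mem_Icc]
                  exact ⟨Nat.pos_of_mem_divisors hd.1, hd.2⟩
                · intro d _ _
                  positivity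
            _ ≤ ∑ _d ∈ Finset.Icc 1 z, (z : ℝ) := by
                apply Finset.sum_le_sum
                intro d hd
                rw [mem_Icc] at hd
                exact_mod_cast hd.2
            _ = (z : ℝ) ^ 2 := by
                rw [Finset.sum_const, Nat.card_Icc, nsmul_eq_mul, sq]
                simp
    _ = (z : ℝ) ^ 4 := by ring


end Selberg

section Final

variable (κ : ℕ → ℕ) (z E q r A X : ℕ) (Ω : ℕ → Finset ℕ)

private theorem siftedSum_sv_v (hκ : ∀ l ∈ goodPrimes z E, 1 ≤ κ l ∧ κ l < l) :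
    (svv κ z E q r A X Ω hκ).siftedSum =
      ((((Ioc A (A + X)).filter (fun v => v ≡ r [MOD q] ∧
        ∀ l ∈ goodPrimes z E, v % l ∉ Ω l)).card : ℕ) : ℝ) := by
  unfold BoundingSieve.siftedSum
  show (∑ d ∈ (PP z E).divisors, if Nat.Coprime (PP z E) d then (wts z E q r A X Ω d : ℝ) else 0) = _
  rw [Finset.sum_eq_single_of_mem 1
    (Nat.one_mem_divisors.mpr (PP_squarefree z E).ne_zero)]
  · rw [if_pos (Nat.coprime_one_right _)]
    unfold wts
    congr 2
    apply Finset.filter_congr
    intro v _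
    constructor
    · rintro ⟨hr, hn⟩
      refine ⟨hr, ?_⟩
      intro l hl hlΩ
      have h1 : l ∈ (nval z E Ω v).primeFactors := by
        rw [nval_primeFactors, mem_filter]
        exact ⟨hl, hlΩ⟩
      rw [hn] at h1
      simp at h1
    · rintro ⟨hr, hl⟩
      refine ⟨hr, ?_⟩
      unfold nval
      rw [Finset.filter_false_of_mem hl, Finset.prod_empty]
  · intro d hd hd1
    rw [if_neg]
    intro hcop
    apply hd1
    have := Nat.dvd_gcd (Nat.dvd_of_mem_divisors hd) (dvd_refl d)
    rw [hcop] at this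
    exact Nat.dvd_one.mp this


private theorem sieveSum_eq_v (hκ : ∀ l ∈ goodPrimes z E, 1 ≤ κ l ∧ κ l < l) :
    (∑ n ∈ (Icc 1 z).filter (fun n => Squarefree n ∧ n.Coprime E),
        ∏ l ∈ n.primeFactors, ((κ l : ℝ) / ((l : ℝ) - κ l))) ≤
      SS (svv κ z E q r A X Ω hκ) z := by
  unfold SS
  have h0 : ∀ l ∈ (Icc 1 z).filter (fun l => Squarefree l ∧ l.Coprime E), l ∣ PP z E := by
    intro l hl
    rw [mem_filter, mem_Icc] at hl
    rw [← Nat.prod_primeFactors_of_squarefree hl.2.1]
    apply Finset.prod_dvd_prod_of_subset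
    intro p hp
    have hp' := Nat.mem_primeFactors.mp hp
    unfold goodPrimes
    rw [mem_filter, mem_range]
    refine ⟨?_, hp'.1, ?_⟩
    · have := Nat.le_of_dvd (by omega) hp'.2.1
      omega
    · intro hpE
      have h1 := Nat.dvd_gcd hp'.2.1 hpE
      rw [hl.2.2] at h1
      exact hp'.1.one_lt.ne' (Nat.dvd_one.mp h1)
  have hsub : (Icc 1 z).filter (fun l => Squarefree l ∧ l.Coprime E) ⊆
      ((svv κ z E q r A X Ω hκ).prodPrimes.divisors).filter (fun l => l ≤ z) := by
    intro l hl
    have h1 := h0 l hl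
    rw [mem_filter, mem_Icc] at hl
    rw [mem_filter]
    exact ⟨Nat.mem_divisors.mpr ⟨h1, (PP_squarefree z E).ne_zero⟩, hl.1.2⟩
  refine (Finset.sum_le_sum ?_).trans (Finset.sum_le_sum_of_subset_of_nonneg hsub ?_)
  · intro l hl
    have h1 := h0 l hl
    have hsq : Squarefree l := Squarefree.squarefree_of_dvd h1 (PP_squarefree z E)
    rw [BoundingSieve.selbergTerms_apply, nu_apply_v κ z E q r A X Ω hκ h1]
    have h2 : (l : ℝ) = ∏ p ∈ l.primeFactors, (p : ℝ) := by
      conv_lhs => rw [← Nat.prod_primeFactors_of_squarefree hsq]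
      push_cast
      rfl
    rw [h2, ← Finset.prod_div_distrib, ← Finset.prod_mul_distrib]
    apply le_of_eq
    apply Finset.prod_congr rfl
    intro p hp
    have hp' := Nat.mem_primeFactors.mp hp
    have hpP : p ∣ PP z E := hp'.2.1.trans h1
    have hg := sub_good z E h1 hp
    rw [nu_apply_v κ z E q r A X Ω hκ hpP, Nat.Prime.primeFactors hp'.1, Finset.prod_singleton]
    have h3 : (0 : ℝ) < p := by exact_mod_cast hp'.1.pos
    have h4 : (κ p : ℝ) < p := by exact_mod_cast (hκ p hg).2
    have h5 : (p : ℝ) - κ p ≠ 0 := by linarith [sub_pos.mpr h4]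
    have h6 : (1 : ℝ) - κ p / p = (p - κ p) / p := by
      field_simp
    rw [h6, inv_div]
    field_simp
  · intro l hl _
    exact g_nonneg _ z hl

private theorem sieveSum_pos_v (hκ : ∀ l ∈ goodPrimes z E, 1 ≤ κ l ∧ κ l < l) (hz : 1 ≤ z) :
    0 < ∑ n ∈ (Icc 1 z).filter (fun n => Squarefree n ∧ n.Coprime E),
        ∏ l ∈ n.primeFactors, ((κ l : ℝ) / ((l : ℝ) - κ l)) := by
  apply Finset.sum_pos
  · intro l hl
    rw [mem_filter, mem_Icc] at hl
    apply Finset.prod_pos
    intro p hp
    have hp' := Nat.mem_primeFactors.mp hp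
    have hg : p ∈ goodPrimes z E := by
      unfold goodPrimes
      rw [mem_filter, mem_range]
      refine ⟨?_, hp'.1, ?_⟩
      · have := Nat.le_of_dvd (by omega) hp'.2.1
        omega
      · intro hpE
        have h1 := Nat.dvd_gcd hp'.2.1 hpE
        rw [hl.2.2] at h1
        exact hp'.1.one_lt.ne' (Nat.dvd_one.mp h1)
    have h1 : (0 : ℝ) < κ p := by exact_mod_cast (hκ p hg).1
    have h4 : (κ p : ℝ) < p := by exact_mod_cast (hκ p hg).2
    exact div_pos h1 (by linarith)
  · exact ⟨1, mem_filter.mpr ⟨mem_Icc.mpr ⟨le_rfl, hz⟩, squarefree_one, Nat.coprime_one_left _⟩⟩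

end Final

theorem sv (κ : ℕ → ℕ) (E z q r A X : ℕ) (hz : 1 ≤ z) (hq : 0 < q)
    (hκ : ∀ l ∈ goodPrimes z E, 1 ≤ κ l ∧ κ l < l)
    (hqE : ∀ l ∈ goodPrimes z E, ¬ l ∣ q) (Ω : ℕ → Finset ℕ)
    (hΩ : ∀ l ∈ goodPrimes z E, (Ω l).card = κ l)
    (hΩlt : ∀ l ∈ goodPrimes z E, ∀ a ∈ Ω l, a < l) :
    ((((Ioc A (A + X)).filter (fun v => v ≡ r [MOD q] ∧
      ∀ l ∈ goodPrimes z E, v % l ∉ Ω l)).card : ℕ) : ℝ) ≤
      (X / q : ℝ) / (∑ n ∈ (Icc 1 z).filter (fun n => Squarefree n ∧ n.Coprime E),
        ∏ l ∈ n.primeFactors, ((κ l : ℝ) / ((l : ℝ) - κ l))) + (z : ℝ) ^ 4 := by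
  have h1 := BoundingSieve.siftedSum_le_mainSum_errSum_of_upperMoebius
    (s := svv κ z E q r A X Ω hκ)
    (BoundingSieve.lambdaSquared (ww (svv κ z E q r A X Ω hκ) z))
    (BoundingSieve.upperMoebius_lambdaSquared _ (ww_one (svv κ z E q r A X Ω hκ) z hz))
  rw [mainSum_ww (svv κ z E q r A X Ω hκ) z hz] at h1
  have h2 := errSum_ww_v (svv κ z E q r A X Ω hκ) z (κ := κ)
    (fun l hl => (hκ l (by
      have h : l ∈ (PP z E).primeFactors := hl
      rwa [PP_primeFactors] at h)).1) hz
    (fun d hd => nu_apply_v κ z E q r A X Ω hκ hd)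
    (fun d hd => rem_bound_v κ z E q r A X Ω hκ hq hqE hΩ hΩlt hd)
  rw [siftedSum_sv_v κ z E q r A X Ω hκ] at h1
  have h4 := sieveSum_eq_v κ z E q r A X Ω hκ
  have h5 := sieveSum_pos_v κ z E hκ hz
  have h6 : (svv κ z E q r A X Ω hκ).totalMass = (X : ℝ) / q := rfl
  have h7 : (X : ℝ) / q * (1 / SS (svv κ z E q r A X Ω hκ) z) ≤ (X / q : ℝ) /
      (∑ n ∈ (Icc 1 z).filter (fun n => Squarefree n ∧ n.Coprime E),
        ∏ l ∈ n.primeFactors, ((κ l : ℝ) / ((l : ℝ) - κ l))) := by
    rw [mul_one_div]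
    apply div_le_div_of_nonneg_left _ h5 h4
    positivity
  rw [h6] at h1
  linarith

end Pool.Agent.H24.FU
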