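import Pool.Agent.H24.FU.WiD

/-!
# [H24 FU WIA] Gaussian sums, far primes, number of scales

Proofs.  `gsum`: `-(u-j)^2/2 + (u-j) ≤ 2 - |u-j|` (as `2|s| - s^2/2 ≤ 2`), and `∑_j exp(-|u-j|) ≤ 4` (at most
2 sides, geometric series).  `far`: `l ≤ √y` or `l > y` and `y^(3/5) ≤ X ≤ y^(9/10)` give
`|log (l/X)| ≥ (log y)/10`, so `gw X l ≤ exp(-(log y)^2/200)`, and `l ≤ X^3 ≤ y^3`, so the sum is at most
`y^3 (3 log y)^(J+1) exp(-(log y)^2/200) ≤ 1` for large `y`.  `nsc`: the interval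
`[(3/5) log y, (9/10) log y]` contains at least `(3/10) log y - 1` integers.
-/

namespace Pool.Agent.H24.FU

open Finset Filter Pool.Agent.H21.MT

private theorem geo (T : Finset ℕ) (f : ℕ → ℝ) (i : ℕ → ℕ) (hi : Set.InjOn i T)
    (hf : ∀ j ∈ T, f j ≤ Real.exp (-1) ^ (i j)) : ∑ j ∈ T, f j ≤ 2 := by
  classical
  have hr0 : 0 ≤ Real.exp (-1) := (Real.exp_pos _).le
  have hr : Real.exp (-1) ≤ 1 / 2 := by
    rw [Real.exp_neg, ← one_div]
    have : (2 : ℝ) ≤ Real.exp 1 := by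
      have := Real.add_one_le_exp (1 : ℝ)
      linarith
    exact one_div_le_one_div_of_le (by norm_num) this
  have hs := summable_geometric_of_lt_one hr0 (by linarith : Real.exp (-1) < 1)
  calc ∑ j ∈ T, f j ≤ ∑ j ∈ T, Real.exp (-1) ^ (i j) := sum_le_sum hf
    _ = ∑ k ∈ T.image i, Real.exp (-1) ^ k := (sum_image hi).symm
    _ ≤ ∑' k, Real.exp (-1) ^ k := hs.sum_le_tsum _ (fun k _ => by positivity)
    _ = (1 - Real.exp (-1))⁻¹ := tsum_geometric_of_lt_one hr0 (by linarith)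
    _ ≤ (1 / 2)⁻¹ := inv_anti₀ (by norm_num) (by linarith)
    _ = 2 := by norm_num

theorem gsum (u : ℝ) (S : Finset ℕ) :
    ∑ j ∈ S, Real.exp (-(u - (j : ℝ)) ^ 2 / 2 + (u - (j : ℝ))) ≤ 60 := by
  classical
  have h1 : ∀ j ∈ S, Real.exp (-(u - (j : ℝ)) ^ 2 / 2 + (u - (j : ℝ))) ≤
      Real.exp 2 * Real.exp (-|u - (j : ℝ)|) := by
    intro j _
    rw [← Real.exp_add]
    apply Real.exp_le_exp.mpr
    have h2 := abs_nonneg (u - (j : ℝ))
    have h3 := le_abs_self (u - (j : ℝ))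
    have h4 := sq_abs (u - (j : ℝ))
    nlinarith [sq_nonneg (|u - (j : ℝ)| - 2)]
  have h2 : ∑ j ∈ S, Real.exp (-|u - (j : ℝ)|) ≤ 4 := by
    rw [← sum_filter_add_sum_filter_not S (fun j : ℕ => (j : ℝ) ≤ u)]
    have a1 : ∑ j ∈ S.filter (fun j : ℕ => (j : ℝ) ≤ u), Real.exp (-|u - (j : ℝ)|) ≤ 2 := by
      refine geo _ _ (fun j => ⌊u⌋₊ - j) ?_ ?_
      · intro a ha b hb hab
        have ha' : (a : ℝ) ≤ u := by simpa using (mem_filter.1 (Finset.mem_coe.1 ha)).2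
        have hb' : (b : ℝ) ≤ u := by simpa using (mem_filter.1 (Finset.mem_coe.1 hb)).2
        have h3 : a ≤ ⌊u⌋₊ := Nat.le_floor ha'
        have h4 : b ≤ ⌊u⌋₊ := Nat.le_floor hb'
        simp only at hab
        omega
      · intro j hj
        have hj' : (j : ℝ) ≤ u := (mem_filter.1 hj).2
        have h3 : j ≤ ⌊u⌋₊ := Nat.le_floor hj'
        have h4 : (⌊u⌋₊ : ℝ) ≤ u := Nat.floor_le ((Nat.cast_nonneg j).trans hj')
        rw [← Real.exp_nat_mul, Nat.cast_sub h3]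
        apply Real.exp_le_exp.mpr
        have h5 := le_abs_self (u - (j : ℝ))
        linarith
    have a2 : ∑ j ∈ S.filter (fun j : ℕ => ¬ (j : ℝ) ≤ u), Real.exp (-|u - (j : ℝ)|) ≤ 2 := by
      refine geo _ _ (fun j => j - ⌈u⌉₊) ?_ ?_
      · intro a ha b hb hab
        have ha' : u < (a : ℝ) := not_le.1 (mem_filter.1 (Finset.mem_coe.1 ha)).2
        have hb' : u < (b : ℝ) := not_le.1 (mem_filter.1 (Finset.mem_coe.1 hb)).2
        have h3 : ⌈u⌉₊ ≤ a := Nat.ceil_le.2 ha'.le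
        have h4 : ⌈u⌉₊ ≤ b := Nat.ceil_le.2 hb'.le
        simp only at hab
        omega
      · intro j hj
        have hj' : u < (j : ℝ) := not_le.1 (mem_filter.1 hj).2
        have h3 : ⌈u⌉₊ ≤ j := Nat.ceil_le.2 hj'.le
        have h4 : u ≤ (⌈u⌉₊ : ℝ) := Nat.le_ceil u
        rw [← Real.exp_nat_mul, Nat.cast_sub h3]
        apply Real.exp_le_exp.mpr
        have h5 := neg_abs_le (u - (j : ℝ))
        linarith
    linarith
  have h3 : Real.exp 2 ≤ 15 := by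
    have h4 : Real.exp 2 = Real.exp 1 * Real.exp 1 := by rw [← Real.exp_add]; norm_num
    have h5 := Real.exp_one_lt_d9
    have h6 := Real.exp_pos 1
    rw [h4]
    nlinarith
  calc ∑ j ∈ S, Real.exp (-(u - (j : ℝ)) ^ 2 / 2 + (u - (j : ℝ)))
      ≤ ∑ j ∈ S, Real.exp 2 * Real.exp (-|u - (j : ℝ)|) := sum_le_sum h1
    _ = Real.exp 2 * ∑ j ∈ S, Real.exp (-|u - (j : ℝ)|) := by rw [mul_sum]
    _ ≤ Real.exp 2 * 4 := mul_le_mul_of_nonneg_left h2 (Real.exp_pos _).le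
    _ ≤ 60 := by linarith

theorem far (J : ℕ) : ∀ᶠ y : ℝ in atTop, ∀ X : ℝ, y ^ (3 / 5 : ℝ) ≤ X → X ≤ y ^ (9 / 10 : ℝ) →
    ∑ l ∈ (Wp X).filter (fun l => ¬ l ∈ Ioc ⌊y ^ (1 / 2 : ℝ)⌋₊ ⌊y⌋₊), vp J X l ≤ 1 := by
  filter_upwards [eventually_ge_atTop (Real.exp (600 * ((J : ℝ) + 2)))] with y hy X hX1 hX2
  have hy0 : 0 < y := lt_of_lt_of_le (Real.exp_pos _) hy
  have ht : 600 * ((J : ℝ) + 2) ≤ Real.log y := by
    rw [Real.le_log_iff_exp_le hy0]
    exact hy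
  obtain ⟨t, htd⟩ : ∃ t, t = Real.log y := ⟨_, rfl⟩
  rw [← htd] at ht
  have hJ : (0 : ℝ) ≤ J := Nat.cast_nonneg J
  have ht0 : 0 < t := by nlinarith
  have hy1 : 1 ≤ y := by
    have : Real.exp 0 ≤ Real.exp t := Real.exp_le_exp.mpr ht0.le
    rw [Real.exp_zero, htd, Real.exp_log hy0] at this
    exact this
  have hX0 : 0 < X := lt_of_lt_of_le (Real.rpow_pos_of_pos hy0 _) hX1
  have lX1 : 3 / 5 * t ≤ Real.log X := by
    have := Real.log_le_log (Real.rpow_pos_of_pos hy0 _) hX1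
    rwa [Real.log_rpow hy0, ← htd] at this
  have lX2 : Real.log X ≤ 9 / 10 * t := by
    have := Real.log_le_log hX0 hX2
    rwa [Real.log_rpow hy0, ← htd] at this
  have hXy : X ≤ y := by
    refine hX2.trans ?_
    calc y ^ (9 / 10 : ℝ) ≤ y ^ (1 : ℝ) := Real.rpow_le_rpow_of_exponent_le hy1 (by norm_num)
      _ = y := Real.rpow_one y
  have key : ∀ l ∈ (Wp X).filter (fun l => ¬ l ∈ Ioc ⌊y ^ (1 / 2 : ℝ)⌋₊ ⌊y⌋₊),
      vp J X l ≤ (3 * t) ^ (J + 1) * Real.exp (-t ^ 2 / 200) := by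
    intro l hl
    obtain ⟨hlW, hlI⟩ := mem_filter.1 hl
    unfold Wp at hlW
    obtain ⟨hlW1, hlp⟩ := mem_filter.1 hlW
    obtain ⟨hl1, hl2⟩ := mem_Icc.1 hlW1
    have hl0 : (0 : ℝ) < l := by exact_mod_cast hl1
    have hl1' : (1 : ℝ) ≤ l := by exact_mod_cast hl1
    have hlX : (l : ℝ) ≤ X ^ 3 := (Nat.le_floor_iff (by positivity)).1 hl2
    have hll : Real.log l ≤ 3 * Real.log X := by
      have := Real.log_le_log hl0 hlX
      rwa [Real.log_pow, Nat.cast_ofNat] at this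
    have hl3 : Real.log l ≤ 3 * t := by linarith
    have hlog0 : 0 ≤ Real.log l := Real.log_nonneg hl1'
    have hdist : t / 10 ≤ |Real.log (l / X)| := by
      rw [Real.log_div hl0.ne' hX0.ne']
      rw [mem_Ioc, not_and_or, not_lt, not_le] at hlI
      rcases hlI with h | h
      · have h1 : (l : ℝ) ≤ y ^ (1 / 2 : ℝ) := (Nat.le_floor_iff (Real.rpow_nonneg hy0.le _)).1 h
        have h2 : Real.log l ≤ 1 / 2 * t := by
          have := Real.log_le_log hl0 h1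
          rwa [Real.log_rpow hy0, ← htd] at this
        have h3 := neg_abs_le (Real.log l - Real.log X)
        linarith
      · have h1 : y < l := (Nat.floor_lt hy0.le).1 h
        have h2 : t ≤ Real.log l := by
          have := Real.log_le_log hy0 h1.le
          rwa [← htd] at this
        have h3 := le_abs_self (Real.log l - Real.log X)
        linarith
    unfold vp gw
    have h1 : (Real.log l) ^ (J + 1) ≤ (3 * t) ^ (J + 1) := pow_le_pow_left₀ hlog0 hl3 _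
    have h2 : Real.exp (-(Real.log (l / X)) ^ 2 / 2) ≤ Real.exp (-t ^ 2 / 200) := by
      apply Real.exp_le_exp.mpr
      have h3 : (t / 10) ^ 2 ≤ |Real.log (l / X)| ^ 2 := pow_le_pow_left₀ (by positivity) hdist 2
      rw [sq_abs] at h3
      linarith
    exact mul_le_mul h1 h2 (Real.exp_pos _).le (by positivity)
  have hcard : (((Wp X).filter (fun l => ¬ l ∈ Ioc ⌊y ^ (1 / 2 : ℝ)⌋₊ ⌊y⌋₊)).card : ℝ) ≤ y ^ 3 := by
    have h1 : ((Wp X).filter (fun l => ¬ l ∈ Ioc ⌊y ^ (1 / 2 : ℝ)⌋₊ ⌊y⌋₊)).card ≤ ⌊X ^ 3⌋₊ := by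
      refine (card_filter_le _ _).trans ?_
      unfold Wp
      refine (card_filter_le _ _).trans ?_
      rw [Nat.card_Icc]
      omega
    calc _ ≤ (⌊X ^ 3⌋₊ : ℝ) := by exact_mod_cast h1
      _ ≤ X ^ 3 := Nat.floor_le (by positivity)
      _ ≤ y ^ 3 := pow_le_pow_left₀ hX0.le hXy 3
  have hy3 : y ^ 3 = Real.exp (3 * t) := by
    rw [htd, ← Real.log_rpow hy0, Real.exp_log (Real.rpow_pos_of_pos hy0 _)]
    norm_cast
  have hpow : (3 * t) ^ (J + 1) ≤ Real.exp (3 * ((J : ℝ) + 1) * t) := by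
    have h1 : 3 * t ≤ Real.exp (3 * t) := by
      have := Real.add_one_le_exp (3 * t)
      linarith
    calc (3 * t) ^ (J + 1) ≤ (Real.exp (3 * t)) ^ (J + 1) := pow_le_pow_left₀ (by positivity) h1 _
      _ = Real.exp (3 * ((J : ℝ) + 1) * t) := by
          rw [← Real.exp_nat_mul]
          congr 1
          push_cast
          ring
  calc ∑ l ∈ (Wp X).filter (fun l => ¬ l ∈ Ioc ⌊y ^ (1 / 2 : ℝ)⌋₊ ⌊y⌋₊), vp J X l
      ≤ ∑ _l ∈ (Wp X).filter (fun l => ¬ l ∈ Ioc ⌊y ^ (1 / 2 : ℝ)⌋₊ ⌊y⌋₊),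
          (3 * t) ^ (J + 1) * Real.exp (-t ^ 2 / 200) := sum_le_sum key
    _ = (((Wp X).filter (fun l => ¬ l ∈ Ioc ⌊y ^ (1 / 2 : ℝ)⌋₊ ⌊y⌋₊)).card : ℝ) *
          ((3 * t) ^ (J + 1) * Real.exp (-t ^ 2 / 200)) := by rw [sum_const, nsmul_eq_mul]
    _ ≤ Real.exp (3 * t) * (Real.exp (3 * ((J : ℝ) + 1) * t) * Real.exp (-t ^ 2 / 200)) := by
        rw [← hy3]
        refine mul_le_mul hcard ?_ (by positivity) (by positivity)
        exact mul_le_mul_of_nonneg_right hpow (Real.exp_pos _).le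
    _ = Real.exp (3 * t + (3 * ((J : ℝ) + 1) * t + -t ^ 2 / 200)) := by
        rw [← Real.exp_add, ← Real.exp_add]
    _ ≤ Real.exp 0 := by
        apply Real.exp_le_exp.mpr
        have h1 : 600 * ((J : ℝ) + 2) * t ≤ t * t := mul_le_mul_of_nonneg_right ht ht0.le
        nlinarith
    _ = 1 := Real.exp_zero

theorem nsc : ∀ᶠ y : ℝ in atTop, Real.log y / 5 ≤ ((scales y).card : ℝ) := by
  classical
  filter_upwards [eventually_ge_atTop (Real.exp 10)] with y hy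
  have hy0 : 0 < y := lt_of_lt_of_le (Real.exp_pos _) hy
  have ht : 10 ≤ Real.log y := by
    rw [Real.le_log_iff_exp_le hy0]
    exact hy
  obtain ⟨t, htd⟩ : ∃ t, t = Real.log y := ⟨_, rfl⟩
  rw [← htd] at ht ⊢
  have hp : ∀ a : ℝ, y ^ a = Real.exp (a * t) := by
    intro a
    rw [htd, ← Real.log_rpow hy0, Real.exp_log (Real.rpow_pos_of_pos hy0 _)]
  have hsub : Icc ⌈3 / 5 * t⌉₊ ⌊9 / 10 * t⌋₊ ⊆ scales y := by
    intro j hj
    obtain ⟨h1, h2⟩ := mem_Icc.1 hj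
    have h3 : 3 / 5 * t ≤ j := Nat.ceil_le.1 h1
    have h4 : (j : ℝ) ≤ 9 / 10 * t := (Nat.le_floor_iff (by positivity)).1 h2
    unfold scales
    simp only [mem_filter, mem_range]
    refine ⟨?_, ?_, ?_⟩
    · rw [← htd, Nat.lt_succ_iff]
      exact Nat.le_floor (by linarith)
    · rw [hp]
      exact Real.exp_le_exp.mpr h3
    · rw [hp]
      exact Real.exp_le_exp.mpr h4
  have hc := card_le_card hsub
  rw [Nat.card_Icc] at hc
  have h5 : (⌈3 / 5 * t⌉₊ : ℝ) < 3 / 5 * t + 1 := Nat.ceil_lt_add_one (by positivity)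
  have h6 : 9 / 10 * t < (⌊9 / 10 * t⌋₊ : ℝ) + 1 := Nat.lt_floor_add_one _
  have h7 : ⌊9 / 10 * t⌋₊ + 1 ≤ (scales y).card + ⌈3 / 5 * t⌉₊ := by omega
  have h8 : (⌊9 / 10 * t⌋₊ : ℝ) + 1 ≤ ((scales y).card : ℝ) + ⌈3 / 5 * t⌉₊ := by exact_mod_cast h7
  linarith

end Pool.Agent.H24.FU
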