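import Pool.Agent.H24.FU.WiA

/-!
# [H24 FU WIB] a prime `p` good at all scales has `VV p y ≥ c`

Proof.  With `X = e^j`, `L_j = log X = j ≥ (3/5) log y`, `mm_lower`: `MM J X ≥ X L_j^J/20`, so by hypothesis the
sum over `Wp X` is `≥ X L_j^J/(40 (p-1))`; by `far` the part with `l` in the window `(√y, y]` is
`≥ X L_j^J/(40 (p-1)) - 1 ≥ X L_j^J/(50 (p-1))` (`p ≤ y^(1/40)`, `X ≥ y^(3/5)`).  Divide by `X`, sum over the
scales (`nsc`): the right side is `≥ ((log y)/5) ((3/5) log y)^J/(50 (p-1))`.  The left side is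
`∑_l (log l)^(J+1) ∑_j gw (e^j) l/e^j` over the `l` of the window, and
`gw (e^j) l/e^j = (1/l) exp(-(u-j)^2/2 + (u-j))`, `u = log l`, so by `gsum` it is
`≤ 60 (log y)^(J+1) ∑_l 1/l`.  So `VV p y ≥ (3/5)^J/15000 =: c`.
-/

namespace Pool.Agent.H24.FU

open Finset Filter Pool.Agent.H21.MT

/-- the Gaussian weight divided by the scale -/
private theorem gw_scale {l : ℕ} (hl : 0 < l) (j : ℕ) :
    gw (Real.exp j) l = Real.exp j *
      (1 / (l : ℝ) * Real.exp (-(Real.log l - (j : ℝ)) ^ 2 / 2 + (Real.log l - (j : ℝ)))) := by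
  have hl0 : (0 : ℝ) < l := by exact_mod_cast hl
  unfold gw
  rw [Real.log_div hl0.ne' (Real.exp_pos _).ne', Real.log_exp, Real.exp_add, Real.exp_sub,
    Real.exp_log hl0]
  have h1 : Real.exp (j : ℝ) ≠ 0 := (Real.exp_pos _).ne'
  field_simp

/-- one scale -/
private theorem one_scale (J : ℕ) {y : ℝ} {p j : ℕ} (hp : p.Prime) (hy : Real.exp 10 ≤ y)
    (hpy : (p : ℝ) ≤ y ^ (1 / 40 : ℝ)) (h2 : 200 ≤ y ^ (23 / 40 : ℝ))
    (hj1 : y ^ (3 / 5 : ℝ) ≤ Real.exp j)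
    (hmm : Real.exp j * (Real.log (Real.exp j)) ^ J / 20 ≤ MM J (Real.exp j))
    (hfar : ∑ l ∈ (Wp (Real.exp j)).filter (fun l => ¬ l ∈ Ioc ⌊y ^ (1 / 2 : ℝ)⌋₊ ⌊y⌋₊),
      vp J (Real.exp j) l ≤ 1)
    (hg : MM J (Real.exp j) / (2 * ((p : ℝ) - 1)) ≤
      ∑ l ∈ (Wp (Real.exp j)).filter (fun l => l % p = 1), vp J (Real.exp j) l) :
    (3 / 5 * Real.log y) ^ J / (50 * ((p : ℝ) - 1)) ≤
      ∑ l ∈ (Ioc ⌊y ^ (1 / 2 : ℝ)⌋₊ ⌊y⌋₊).filter (fun l => l.Prime ∧ l % p = 1),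
        (Real.log y) ^ (J + 1) * (1 / (l : ℝ) *
          Real.exp (-(Real.log l - (j : ℝ)) ^ 2 / 2 + (Real.log l - (j : ℝ)))) := by
  classical
  have hy0 : 0 < y := lt_of_lt_of_le (Real.exp_pos _) hy
  have ht : 10 ≤ Real.log y := by
    rw [Real.le_log_iff_exp_le hy0]
    exact hy
  have hp2 : (2 : ℝ) ≤ p := by exact_mod_cast hp.two_le
  have hp1 : 0 < (p : ℝ) - 1 := by linarith
  have hX0 : 0 < Real.exp (j : ℝ) := Real.exp_pos _
  rw [Real.log_exp] at hmm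
  have hj : 3 / 5 * Real.log y ≤ j := by
    rw [← Real.log_exp (j : ℝ), ← Real.log_rpow hy0]
    exact Real.log_le_log (Real.rpow_pos_of_pos hy0 _) hj1
  have hjJ : (3 / 5 * Real.log y) ^ J ≤ (j : ℝ) ^ J := pow_le_pow_left₀ (by positivity) hj J
  have hjJ1 : 1 ≤ (3 / 5 * Real.log y) ^ J := one_le_pow₀ (by linarith)
  have hvp : ∀ l : ℕ, 1 ≤ l → 0 ≤ vp J (Real.exp j) l := by
    intro l hl
    unfold vp gw
    have : 0 ≤ Real.log l := Real.log_nonneg (by exact_mod_cast hl)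
    positivity
  -- the part outside the window
  have hsplit : ∑ l ∈ (Wp (Real.exp j)).filter (fun l => l % p = 1), vp J (Real.exp j) l ≤
      ∑ l ∈ (Ioc ⌊y ^ (1 / 2 : ℝ)⌋₊ ⌊y⌋₊).filter (fun l => l.Prime ∧ l % p = 1),
        vp J (Real.exp j) l + 1 := by
    rw [← sum_filter_add_sum_filter_not ((Wp (Real.exp j)).filter (fun l => l % p = 1))
      (fun l => l ∈ Ioc ⌊y ^ (1 / 2 : ℝ)⌋₊ ⌊y⌋₊)]
    refine add_le_add ?_ (le_trans ?_ hfar)
    · refine sum_le_sum_of_subset_of_nonneg ?_ ?_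
      · intro l hl
        rw [mem_filter, mem_filter] at hl
        obtain ⟨⟨hl1, hl2⟩, hl3⟩ := hl
        unfold Wp at hl1
        rw [mem_filter] at hl1
        rw [mem_filter]
        exact ⟨hl3, hl1.2, hl2⟩
      · intro l hl _
        rw [mem_filter] at hl
        exact hvp l hl.2.1.one_le
    · refine sum_le_sum_of_subset_of_nonneg ?_ ?_
      · intro l hl
        rw [mem_filter, mem_filter] at hl
        rw [mem_filter]
        exact ⟨hl.1.1, hl.2⟩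
      · intro l hl _
        rw [mem_filter] at hl
        unfold Wp at hl
        rw [mem_filter, mem_Icc] at hl
        exact hvp l hl.1.1.1
  -- the lower bound
  have hlow : Real.exp j * (3 / 5 * Real.log y) ^ J / (50 * ((p : ℝ) - 1)) ≤
      ∑ l ∈ (Ioc ⌊y ^ (1 / 2 : ℝ)⌋₊ ⌊y⌋₊).filter (fun l => l.Prime ∧ l % p = 1),
        vp J (Real.exp j) l := by
    have a1 : Real.exp j * (3 / 5 * Real.log y) ^ J / (40 * ((p : ℝ) - 1)) ≤
        MM J (Real.exp j) / (2 * ((p : ℝ) - 1)) := by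
      have b1 : Real.exp j * (3 / 5 * Real.log y) ^ J / 20 ≤ MM J (Real.exp j) := by
        refine le_trans ?_ hmm
        gcongr
      have b2 : Real.exp j * (3 / 5 * Real.log y) ^ J / (40 * ((p : ℝ) - 1)) =
          (Real.exp j * (3 / 5 * Real.log y) ^ J / 20) / (2 * ((p : ℝ) - 1)) := by
        field_simp
        norm_num
      rw [b2]
      exact div_le_div_of_nonneg_right b1 (by positivity)
    have a2 : 1 ≤ Real.exp j * (3 / 5 * Real.log y) ^ J / (200 * ((p : ℝ) - 1)) := by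
      rw [le_div_iff₀ (by positivity), one_mul]
      have c1 : y ^ (3 / 5 : ℝ) = y ^ (1 / 40 : ℝ) * y ^ (23 / 40 : ℝ) := by
        rw [← Real.rpow_add hy0]
        norm_num
      have c2 : 0 < y ^ (1 / 40 : ℝ) := Real.rpow_pos_of_pos hy0 _
      calc 200 * ((p : ℝ) - 1) ≤ 200 * y ^ (1 / 40 : ℝ) := by linarith
        _ ≤ y ^ (1 / 40 : ℝ) * y ^ (23 / 40 : ℝ) := by nlinarith
        _ = y ^ (3 / 5 : ℝ) := c1.symm
        _ ≤ Real.exp j := hj1
        _ = Real.exp j * 1 := (mul_one _).symm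
        _ ≤ Real.exp j * (3 / 5 * Real.log y) ^ J := mul_le_mul_of_nonneg_left hjJ1 hX0.le
    have a3 : Real.exp j * (3 / 5 * Real.log y) ^ J / (50 * ((p : ℝ) - 1)) =
        Real.exp j * (3 / 5 * Real.log y) ^ J / (40 * ((p : ℝ) - 1)) -
        Real.exp j * (3 / 5 * Real.log y) ^ J / (200 * ((p : ℝ) - 1)) := by
      field_simp
      norm_num
    linarith
  -- divide by the scale
  have hup : ∑ l ∈ (Ioc ⌊y ^ (1 / 2 : ℝ)⌋₊ ⌊y⌋₊).filter (fun l => l.Prime ∧ l % p = 1),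
        vp J (Real.exp j) l ≤ Real.exp j *
      ∑ l ∈ (Ioc ⌊y ^ (1 / 2 : ℝ)⌋₊ ⌊y⌋₊).filter (fun l => l.Prime ∧ l % p = 1),
        (Real.log y) ^ (J + 1) * (1 / (l : ℝ) *
          Real.exp (-(Real.log l - (j : ℝ)) ^ 2 / 2 + (Real.log l - (j : ℝ)))) := by
    rw [mul_sum]
    refine sum_le_sum fun l hl => ?_
    rw [mem_filter, mem_Ioc] at hl
    have hl0 : 0 < l := hl.2.1.pos
    have hl0' : (0 : ℝ) < l := by exact_mod_cast hl0
    have hly : (l : ℝ) ≤ y := (Nat.le_floor_iff hy0.le).1 hl.1.2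
    have hlog0 : 0 ≤ Real.log l := Real.log_nonneg (by exact_mod_cast hl0)
    have hlog : Real.log l ≤ Real.log y := Real.log_le_log hl0' hly
    unfold vp
    rw [gw_scale hl0]
    calc Real.log l ^ (J + 1) * (Real.exp j * (1 / (l : ℝ) *
          Real.exp (-(Real.log l - (j : ℝ)) ^ 2 / 2 + (Real.log l - (j : ℝ)))))
        ≤ Real.log y ^ (J + 1) * (Real.exp j * (1 / (l : ℝ) *
          Real.exp (-(Real.log l - (j : ℝ)) ^ 2 / 2 + (Real.log l - (j : ℝ))))) :=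
          mul_le_mul_of_nonneg_right (pow_le_pow_left₀ hlog0 hlog _) (by positivity)
      _ = _ := by ring
  have hfin := hlow.trans hup
  have h3 : Real.exp j * ((3 / 5 * Real.log y) ^ J / (50 * ((p : ℝ) - 1))) ≤ Real.exp j *
      ∑ l ∈ (Ioc ⌊y ^ (1 / 2 : ℝ)⌋₊ ⌊y⌋₊).filter (fun l => l.Prime ∧ l % p = 1),
        (Real.log y) ^ (J + 1) * (1 / (l : ℝ) *
          Real.exp (-(Real.log l - (j : ℝ)) ^ 2 / 2 + (Real.log l - (j : ℝ)))) := by
    rw [← mul_div_assoc]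
    exact hfin
  exact le_of_mul_le_mul_left h3 hX0

theorem good_VV (J : ℕ) : ∃ c : ℝ, 0 < c ∧ c ≤ 1 ∧ ∀ᶠ y : ℝ in atTop, ∀ p : ℕ, p.Prime →
    (p : ℝ) ≤ y ^ (1 / 40 : ℝ) →
    (∀ j ∈ scales y, MM J (Real.exp j) / (2 * ((p : ℝ) - 1)) ≤
      ∑ l ∈ (Wp (Real.exp j)).filter (fun l => l % p = 1), vp J (Real.exp j) l) →
    c ≤ VV p y := by
  classical
  have hc1 : ((3 : ℝ) / 5) ^ J ≤ 1 := pow_le_one₀ (by norm_num) (by norm_num)
  refine ⟨(3 / 5) ^ J / 15000, by positivity, by linarith, ?_⟩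
  obtain ⟨X0, hX0⟩ := eventually_atTop.1 (mm_lower J)
  have e1 : ∀ᶠ y : ℝ in atTop, X0 ≤ y ^ (3 / 5 : ℝ) :=
    (tendsto_rpow_atTop (by norm_num : (0 : ℝ) < 3 / 5)).eventually_ge_atTop _
  have e2 : ∀ᶠ y : ℝ in atTop, 200 ≤ y ^ (23 / 40 : ℝ) :=
    (tendsto_rpow_atTop (by norm_num : (0 : ℝ) < 23 / 40)).eventually_ge_atTop _
  filter_upwards [far J, nsc, e1, e2, eventually_ge_atTop (Real.exp 10)] with
    y hfar hn h1 h2 hy
  intro p hp hpy hgood
  have hy0 : 0 < y := lt_of_lt_of_le (Real.exp_pos _) hy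
  have ht : 10 ≤ Real.log y := by
    rw [Real.le_log_iff_exp_le hy0]
    exact hy
  have ht0 : 0 < Real.log y := by linarith
  have hp2 : (2 : ℝ) ≤ p := by exact_mod_cast hp.two_le
  have hp1 : 0 < (p : ℝ) - 1 := by linarith
  have hstep : ∀ j ∈ scales y, (3 / 5 * Real.log y) ^ J / (50 * ((p : ℝ) - 1)) ≤
      ∑ l ∈ (Ioc ⌊y ^ (1 / 2 : ℝ)⌋₊ ⌊y⌋₊).filter (fun l => l.Prime ∧ l % p = 1),
        (Real.log y) ^ (J + 1) * (1 / (l : ℝ) *
          Real.exp (-(Real.log l - (j : ℝ)) ^ 2 / 2 + (Real.log l - (j : ℝ)))) := by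
    intro j hj
    have hj' := hj
    rw [scales, mem_filter] at hj'
    obtain ⟨-, hj1, hj2⟩ := hj'
    exact one_scale J hp hy hpy h2 hj1 (hX0 _ (h1.trans hj1)) (hfar _ hj1 hj2) (hgood j hj)
  have hsum := sum_le_sum hstep
  rw [sum_const, nsmul_eq_mul, sum_comm] at hsum
  have hR : ∑ l ∈ (Ioc ⌊y ^ (1 / 2 : ℝ)⌋₊ ⌊y⌋₊).filter (fun l => l.Prime ∧ l % p = 1),
      ∑ j ∈ scales y, (Real.log y) ^ (J + 1) * (1 / (l : ℝ) *
          Real.exp (-(Real.log l - (j : ℝ)) ^ 2 / 2 + (Real.log l - (j : ℝ)))) ≤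
      60 * (Real.log y) ^ (J + 1) / ((p : ℝ) - 1) * VV p y := by
    unfold VV
    rw [mul_sum]
    refine sum_le_sum fun l hl => ?_
    rw [mem_filter] at hl
    have hl0' : (0 : ℝ) < l := by exact_mod_cast hl.2.1.pos
    rw [← mul_sum, ← mul_sum]
    calc Real.log y ^ (J + 1) * (1 / (l : ℝ) * ∑ j ∈ scales y,
          Real.exp (-(Real.log l - (j : ℝ)) ^ 2 / 2 + (Real.log l - (j : ℝ))))
        ≤ Real.log y ^ (J + 1) * (1 / (l : ℝ) * 60) := by
          have := gsum (Real.log l) (scales y)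
          gcongr
      _ = 60 * (Real.log y) ^ (J + 1) / ((p : ℝ) - 1) * (((p : ℝ) - 1) / l) := by
          field_simp
  have hL : Real.log y / 5 * ((3 / 5 * Real.log y) ^ J / (50 * ((p : ℝ) - 1))) ≤
      ((scales y).card : ℝ) * ((3 / 5 * Real.log y) ^ J / (50 * ((p : ℝ) - 1))) :=
    mul_le_mul_of_nonneg_right hn (by positivity)
  have hall := (hL.trans hsum).trans hR
  have hpos : 0 < 60 * (Real.log y) ^ (J + 1) / ((p : ℝ) - 1) := by positivity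
  have heq : Real.log y / 5 * ((3 / 5 * Real.log y) ^ J / (50 * ((p : ℝ) - 1))) =
      60 * (Real.log y) ^ (J + 1) / ((p : ℝ) - 1) * ((3 / 5) ^ J / 15000) := by
    rw [mul_pow, pow_succ]
    field_simp
    norm_num
  rw [heq] at hall
  exact le_of_mul_le_mul_left hall hpos

end Pool.Agent.H24.FU
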