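import Pool.Agent.H24.FU.Defs
import Pool.Agent.H21.MT.BV

/-!
# [H24 FU WID] the scales (definition)
-/

namespace Pool.Agent.H24.FU

open Finset

/-- the scales `e^j` between `y^(3/5)` and `y^(9/10)` -/
noncomputable def scales (y : ℝ) : Finset ℕ := by
  classical
  exact (range (⌊Real.log y⌋₊ + 1)).filter
    (fun j : ℕ => y ^ (3 / 5 : ℝ) ≤ Real.exp j ∧ Real.exp j ≤ y ^ (9 / 10 : ℝ))

end Pool.Agent.H24.FU
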